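import Mathlib

open Set

namespace Pool.Agent.H700Z.Cpc

/-- metacompactness -/
def MC (Z : Type*) [TopologicalSpace Z] : Prop :=
  ∀ 𝒰 : Set (Set Z), (∀ U ∈ 𝒰, IsOpen U) → ⋃₀ 𝒰 = univ →
    ∃ 𝒱 : Set (Set Z), (∀ V ∈ 𝒱, IsOpen V) ∧ ⋃₀ 𝒱 = univ ∧
      (∀ V ∈ 𝒱, ∃ U ∈ 𝒰, V ⊆ U) ∧ ∀ y : Z, {V | V ∈ 𝒱 ∧ y ∈ V}.Finite

section order
variable {Y : Type*}

/-- every member of the family through `p` goes through `y` -/
def le (C : Set (Set Y)) (p y : Y) : Prop := ∀ A ∈ C, p ∈ A → y ∈ A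

lemma le_rfl' (C : Set (Set Y)) (p : Y) : le C p p := fun _ _ h => h

lemma le_trans' {C : Set (Set Y)} {p y z : Y} (h : le C p y) (h' : le C y z) : le C p z :=
  fun A hA hp => h' A hA (h A hA hp)

/-- the maximal points of `F` -/
def M (C : Set (Set Y)) (F : Set Y) : Set Y := {y | y ∈ F ∧ ∀ w ∈ F, le C y w → le C w y}

lemma M_of_le {C : Set (Set Y)} {F : Set Y} {y w : Y} (hy : y ∈ M C F) (hw : w ∈ F)
    (h : le C y w) : w ∈ M C F :=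
  ⟨hw, fun v hv hwv => le_trans' (hy.2 v hv (le_trans' h hwv)) h⟩

/-- the classes of maximal points -/
def cls (C : Set (Set Y)) (F : Set Y) : Set (Set Y) :=
  {κ | ∃ y ∈ M C F, κ = {w | le C y w} ∩ F}

/-- the canonical neighbourhood of a class -/
def Oset (C : Set (Set Y)) (κ : Set Y) : Set Y := {p | ∃ y ∈ κ, le C p y}

lemma cls_eq {C : Set (Set Y)} {F κ κ' : Set Y} (h : κ ∈ cls C F) (h' : κ' ∈ cls C F) {w : Y}
    (hw : w ∈ κ') (hO : w ∈ Oset C κ) : κ = κ' := by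
  obtain ⟨y, hy, rfl⟩ := h
  obtain ⟨y', hy', rfl⟩ := h'
  obtain ⟨v, hv, hwv⟩ := hO
  have h1 : le C y' v := le_trans' hw.1 hwv
  have h2 : le C v y' := hy'.2 v hv.2 h1
  have h3 : le C v y := hy.2 v hv.2 hv.1
  ext u
  constructor
  · rintro ⟨hu, huF⟩
    exact ⟨le_trans' h1 (le_trans' h3 hu), huF⟩
  · rintro ⟨hu, huF⟩
    exact ⟨le_trans' hv.1 (le_trans' h2 hu), huF⟩

end order

variable {Y : Type*} [TopologicalSpace Y] {C : Set (Set Y)}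

lemma isClosed_K (hC : ∀ A ∈ C, IsCompact A ∧ IsClosed A) (p : Y) :
    IsClosed {w | le C p w} := by
  have : {w | le C p w} = ⋂ A ∈ {A | A ∈ C ∧ p ∈ A}, A := by
    ext w
    simp [le]
  rw [this]
  exact isClosed_biInter fun A hA => (hC A hA.1).2

lemma isCompact_K (hC : ∀ A ∈ C, IsCompact A ∧ IsClosed A) {p : Y} (hp : p ∈ ⋃₀ C) :
    IsCompact {w | le C p w} := by
  obtain ⟨A, hA, hpA⟩ := hp
  exact (hC A hA).1.of_isClosed_subset (isClosed_K hC p) fun w hw => hw A hA hpA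

lemma isOpen_O (hcp : ∀ G ⊆ C, IsClosed (⋃₀ G)) (y : Y) : IsOpen {p | le C p y} := by
  have : {p | le C p y} = (⋃₀ {A | A ∈ C ∧ y ∉ A})ᶜ := by
    ext p
    simp only [le, mem_setOf_eq, mem_compl_iff, mem_sUnion, not_exists, not_and, and_imp]
    constructor
    · intro h A hA hy hp
      exact hy (h A hA hp)
    · intro h A hA hp
      by_contra hy
      exact h A hA hy hp
  rw [this]
  exact (hcp _ fun A hA => hA.1).isOpen_compl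

lemma isOpen_Oset (hcp : ∀ G ⊆ C, IsClosed (⋃₀ G)) (κ : Set Y) : IsOpen (Oset C κ) := by
  have : Oset C κ = ⋃ y ∈ κ, {p | le C p y} := by
    ext p
    simp [Oset]
  rw [this]
  exact isOpen_biUnion fun y _ => isOpen_O hcp y

lemma exists_M (hC : ∀ A ∈ C, IsCompact A ∧ IsClosed A) {F : Set Y} (hF : IsClosed F) {z : Y}
    (hz : z ∈ F) (hzC : z ∈ ⋃₀ C) : ∃ y ∈ M C F, le C z y := by
  let T := {y // y ∈ F ∧ le C z y}
  have key : ∃ m : T, ∀ a : T, le C m.1 a.1 → le C a.1 m.1 := by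
    apply exists_maximal_of_chains_bounded (r := fun a b : T => le C a.1 b.1)
    · intro c hc
      rcases c.eq_empty_or_nonempty with rfl | hne
      · exact ⟨⟨z, hz, le_rfl' C z⟩, by simp⟩
      · have : Nonempty c := hne.to_subtype
        have hcl : ∀ a : c, IsClosed ({w | le C a.1.1 w} ∩ F) :=
          fun a => (isClosed_K hC _).inter hF
        have := IsCompact.nonempty_iInter_of_directed_nonempty_isCompact_isClosed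
          (fun a : c => {w | le C a.1.1 w} ∩ F) ?_ ?_ ?_ hcl
        · obtain ⟨w, hw⟩ := this
          rw [mem_iInter] at hw
          obtain ⟨a0, ha0⟩ := hne
          refine ⟨⟨w, (hw ⟨a0, ha0⟩).2, le_trans' a0.2.2 (hw ⟨a0, ha0⟩).1⟩, fun a ha => ?_⟩
          exact (hw ⟨a, ha⟩).1
        · intro a b
          by_cases hab : a.1 = b.1
          · obtain rfl : a = b := Subtype.ext hab
            exact ⟨a, subset_rfl, subset_rfl⟩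
          rcases hc a.2 b.2 hab with h | h
          · exact ⟨b, fun w hw => ⟨le_trans' h hw.1, hw.2⟩, subset_rfl⟩
          · exact ⟨a, subset_rfl, fun w hw => ⟨le_trans' h hw.1, hw.2⟩⟩
        · intro a
          exact ⟨a.1.1, le_rfl' C _, a.1.2.1⟩
        · intro a
          exact (isCompact_K hC hzC).of_isClosed_subset (hcl a)
            fun w hw => le_trans' a.1.2.2 hw.1
    · intro a b c h h'
      exact le_trans' h h'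
  obtain ⟨m, hm⟩ := key
  exact ⟨m.1, ⟨m.2.1, fun w hw h => hm ⟨w, hw, le_trans' m.2.2 h⟩ h⟩, m.2.2⟩

/-- the descent relation at the point `p` -/
def desc (C : Set (Set Y)) (p : Y) (F' F : Set Y) : Prop :=
  IsClosed F ∧ F' ⊆ F ∧ Disjoint F' (M C F) ∧ ∃ w ∈ F, le C p w

lemma wf_desc (hC : ∀ A ∈ C, IsCompact A ∧ IsClosed A) (hcp : ∀ G ⊆ C, IsClosed (⋃₀ G))
    {p : Y} (hp : p ∈ ⋃₀ C) : WellFounded (desc C p) := by
  rw [wellFounded_iff_isEmpty_descending_chain]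
  refine ⟨fun ⟨f, hf⟩ => ?_⟩
  have hy : ∀ i, ∃ y ∈ M C (f i), le C p y := by
    intro i
    obtain ⟨h1, -, -, w, hw, hpw⟩ := hf i
    obtain ⟨A, hA, hpA⟩ := hp
    obtain ⟨y, hy, hwy⟩ := exists_M hC h1 hw ⟨A, hA, hpw A hA hpA⟩
    exact ⟨y, hy, le_trans' hpw hwy⟩
  set U := Oset C (⋂ i, f i) with hU
  have hUo : IsOpen U := isOpen_Oset hcp _
  have hcl : ∀ i, IsClosed ({w | le C p w} ∩ f i ∩ Uᶜ) :=
    fun i => ((isClosed_K hC p).inter (hf i).1).inter hUo.isClosed_compl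
  have := IsCompact.nonempty_iInter_of_sequence_nonempty_isCompact_isClosed
    (fun i => {w | le C p w} ∩ f i ∩ Uᶜ) ?_ ?_ ?_ hcl
  · obtain ⟨w, hw⟩ := this
    rw [mem_iInter] at hw
    exact (hw 0).2 ⟨w, mem_iInter.2 fun i => (hw i).1.2, le_rfl' C w⟩
  · intro i w hw
    exact ⟨⟨hw.1.1, (hf i).2.1 hw.1.2⟩, hw.2⟩
  · intro i
    obtain ⟨y, hy, hpy⟩ := hy i
    refine ⟨y, ⟨hpy, hy.1⟩, ?_⟩
    rintro ⟨v, hv, hyv⟩
    rw [mem_iInter] at hv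
    exact Set.disjoint_left.1 (hf i).2.2.1 (hv (i + 1)) (M_of_le hy (hv i) hyv)
  · exact (isCompact_K hC hp).of_isClosed_subset (hcl 0) fun w hw => hw.1.1

lemma exists_G (hY : MC Y) (hC : ∀ A ∈ C, IsCompact A ∧ IsClosed A)
    (hcp : ∀ G ⊆ C, IsClosed (⋃₀ G)) {F : Set Y} (hF : IsClosed F) (hFC : F ⊆ ⋃₀ C) :
    ∃ G : Set Y → Set Y, (∀ κ, IsOpen (G κ)) ∧ (∀ κ ∈ cls C F, κ ⊆ G κ) ∧
      (∀ κ, G κ ⊆ Oset C κ) ∧ ∀ p, {κ | κ ∈ cls C F ∧ p ∈ G κ}.Finite := by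
  have key := hY (insert Fᶜ (Oset C '' cls C F)) ?_ ?_
  · obtain ⟨𝒱, h1, h2, h3, h4⟩ := key
    refine ⟨fun κ => ⋃₀ {V | V ∈ 𝒱 ∧ V ⊆ Oset C κ ∧ (V ∩ κ).Nonempty}, ?_, ?_, ?_, ?_⟩
    · intro κ
      exact isOpen_sUnion fun V hV => h1 V hV.1
    · intro κ hκ y hy
      have : y ∈ ⋃₀ 𝒱 := h2 ▸ mem_univ y
      obtain ⟨V, hV, hyV⟩ := this
      obtain ⟨U, hU, hVU⟩ := h3 V hV
      refine ⟨V, ⟨hV, ?_, y, hyV, hy⟩, hyV⟩
      rcases hU with rfl | ⟨κ', hκ', rfl⟩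
      · obtain ⟨y0, -, rfl⟩ := hκ
        exact absurd hy.2 (hVU hyV)
      · rw [← cls_eq hκ' hκ hy (hVU hyV)]
        exact hVU
    · intro κ p hp
      obtain ⟨V, hV, hpV⟩ := hp
      exact hV.2.1 hpV
    · intro p
      refine Finite.subset ((h4 p).biUnion (t := fun V =>
        {κ | κ ∈ cls C F ∧ V ⊆ Oset C κ ∧ (V ∩ κ).Nonempty}) ?_) ?_
      · intro V _
        apply Set.Subsingleton.finite
        rintro κ ⟨hκ, hVκ, -⟩ κ' ⟨hκ', -, w, hwV, hwκ'⟩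
        exact cls_eq hκ hκ' hwκ' (hVκ hwV)
      · rintro κ ⟨hκ, V, hV, hpV⟩
        simp only [mem_iUnion]
        exact ⟨V, ⟨hV.1, hpV⟩, hκ, hV.2.1, hV.2.2⟩
  · rintro U (rfl | ⟨κ, -, rfl⟩)
    · exact hF.isOpen_compl
    · exact isOpen_Oset hcp κ
  · rw [eq_univ_iff_forall]
    intro p
    by_cases hp : p ∈ F
    · obtain ⟨y, hy, hpy⟩ := exists_M hC hF hp (hFC hp)
      exact ⟨Oset C ({w | le C y w} ∩ F), Or.inr ⟨_, ⟨y, hy, rfl⟩, rfl⟩,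
        y, ⟨le_rfl' C y, hy.1⟩, hpy⟩
    · exact ⟨Fᶜ, Or.inl rfl, hp⟩

variable {X : Type*} [TopologicalSpace X]

/-- contained in a finite union of members of the cover -/
def small {Z : Type*} (𝒰 : Set (Set Z)) (S : Set Z) : Prop :=
  ∃ t : Set (Set Z), t ⊆ 𝒰 ∧ t.Finite ∧ S ⊆ ⋃₀ t

lemma small.mono {Z : Type*} {𝒰 : Set (Set Z)} {S S' : Set Z} (h : small 𝒰 S) (h' : S' ⊆ S) :
    small 𝒰 S' := by
  obtain ⟨t, h1, h2, h3⟩ := h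
  exact ⟨t, h1, h2, h'.trans h3⟩

lemma exists_tube (hX : MC X) {𝒰 : Set (Set (Y × X))} (hU : ∀ U ∈ 𝒰, IsOpen U)
    (hcov : ⋃₀ 𝒰 = univ) {κ : Set Y} (hκ : IsCompact κ) :
    ∃ (𝒱 : Set (Set X)) (w : Set X → Set Y), (∀ V ∈ 𝒱, IsOpen V) ∧ ⋃₀ 𝒱 = univ ∧
      (∀ x, {V | V ∈ 𝒱 ∧ x ∈ V}.Finite) ∧
      ∀ V ∈ 𝒱, IsOpen (w V) ∧ κ ⊆ w V ∧ small 𝒰 (w V ×ˢ V) := by
  have key := hX
    {V | IsOpen V ∧ ∃ W, IsOpen W ∧ κ ⊆ W ∧ small 𝒰 (W ×ˢ V)} (fun V hV => hV.1) ?_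
  · obtain ⟨𝒱, h1, h2, h3, h4⟩ := key
    have : ∀ V : Set X, ∃ W : Set Y, V ∈ 𝒱 → IsOpen W ∧ κ ⊆ W ∧ small 𝒰 (W ×ˢ V) := by
      intro V
      by_cases hV : V ∈ 𝒱
      · obtain ⟨U, ⟨-, W, hW1, hW2, hW3⟩, hVU⟩ := h3 V hV
        exact ⟨W, fun _ => ⟨hW1, hW2, hW3.mono (prod_mono subset_rfl hVU)⟩⟩
      · exact ⟨∅, fun h => absurd h hV⟩
    choose w hw using this
    exact ⟨𝒱, w, h1, h2, h4, hw⟩
  · rw [eq_univ_iff_forall]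
    intro x
    have hc : IsCompact (κ ×ˢ ({x} : Set X)) := hκ.prod isCompact_singleton
    obtain ⟨t, ht1, ht2, ht3⟩ := hc.elim_finite_subcover_image (b := 𝒰) (c := id)
      (fun U h => hU U h) (by
        intro z _
        have : z ∈ ⋃₀ 𝒰 := hcov ▸ mem_univ z
        obtain ⟨U, h1, h2⟩ := this
        simp only [mem_iUnion]
        exact ⟨U, h1, h2⟩)
    have ht4 : κ ×ˢ ({x} : Set X) ⊆ ⋃₀ t := by
      rw [sUnion_eq_biUnion]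
      exact ht3
    obtain ⟨W, V, hW, hV, hκW, hxV, hWV⟩ := generalized_tube_lemma hκ isCompact_singleton
      (isOpen_sUnion fun U h => hU U (ht1 h)) ht4
    exact ⟨V, ⟨hV, W, hW, hκW, t, ht1, ht2, hWV⟩, hxV rfl⟩

/-- one step of the construction -/
structure Step (C : Set (Set Y)) (𝒰 : Set (Set (Y × X))) (F : Set Y)
    (P : Set (Set (Y × X))) (Ch : Set (Set Y × Set (Y × X))) : Prop where
  Popen : ∀ O ∈ P, IsOpen O
  Psmall : ∀ O ∈ P, small 𝒰 O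
  Pmeet : ∀ O ∈ P, ∀ z ∈ O, ∃ w ∈ F, le C z.1 w
  Pfin : ∀ z, {O | O ∈ P ∧ z ∈ O}.Finite
  Cclosed : ∀ c ∈ Ch, IsClosed c.1
  Csub : ∀ c ∈ Ch, c.1 ⊆ F
  Cdisj : ∀ c ∈ Ch, Disjoint c.1 (M C F)
  Copen : ∀ c ∈ Ch, IsOpen c.2
  Cfin : ∀ z, {c | c ∈ Ch ∧ z ∈ c.2}.Finite
  cover : ∀ z : Y × X, z.1 ∈ F → (∃ O ∈ P, z ∈ O) ∨ ∃ c ∈ Ch, z ∈ c.2 ∧ z.1 ∈ c.1

lemma exists_step (hY : MC Y) (hX : MC X) (hC : ∀ A ∈ C, IsCompact A ∧ IsClosed A)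
    (hcp : ∀ G ⊆ C, IsClosed (⋃₀ G)) {𝒰 : Set (Set (Y × X))} (hU : ∀ U ∈ 𝒰, IsOpen U)
    (hcov : ⋃₀ 𝒰 = univ) {F : Set Y} (hF : IsClosed F) (hFC : F ⊆ ⋃₀ C) :
    ∃ P Ch, Step C 𝒰 F P Ch := by
  obtain ⟨G, hG1, hG2, hG3, hG4⟩ := exists_G hY hC hcp hF hFC
  have : ∀ κ : Set Y, ∃ (𝒱 : Set (Set X)) (w : Set X → Set Y), κ ∈ cls C F →
      (∀ V ∈ 𝒱, IsOpen V) ∧ ⋃₀ 𝒱 = univ ∧ (∀ x, {V | V ∈ 𝒱 ∧ x ∈ V}.Finite) ∧
      ∀ V ∈ 𝒱, IsOpen (w V) ∧ κ ⊆ w V ∧ small 𝒰 (w V ×ˢ V) := by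
    intro κ
    by_cases hκ : κ ∈ cls C F
    · have hc : IsCompact κ := by
        obtain ⟨y, hy, rfl⟩ := hκ
        exact (isCompact_K hC (hFC hy.1)).inter_right hF
      obtain ⟨𝒱, w, h⟩ := exists_tube hX hU hcov hc
      exact ⟨𝒱, w, fun _ => h⟩
    · exact ⟨∅, fun _ => ∅, fun h => absurd h hκ⟩
  choose 𝒱 w hw using this
  let I : Set (Set Y × Set X) := {b | b.1 ∈ cls C F ∧ b.2 ∈ 𝒱 b.1}
  let T : Y × X → Set (Set Y × Set X) := fun z => {b | b ∈ I ∧ z.1 ∈ G b.1 ∧ z.2 ∈ b.2}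
  have hT : ∀ z, (T z).Finite := by
    intro z
    refine Finite.subset ((hG4 z.1).biUnion (t := fun κ =>
      (fun V => (κ, V)) '' {V | V ∈ 𝒱 κ ∧ z.2 ∈ V}) ?_) ?_
    · intro κ hκ
      exact ((hw κ hκ.1).2.2.1 z.2).image _
    · rintro ⟨κ, V⟩ ⟨⟨h1, h2⟩, h3, h4⟩
      simp only [mem_iUnion]
      exact ⟨κ, ⟨h1, h3⟩, V, ⟨h2, h4⟩, rfl⟩
  let o : Set Y × Set X → Set (Y × X) := fun b => (w b.1 b.2 ∩ G b.1) ×ˢ b.2
  let ch : Set (Set Y × Set X) → Set Y × Set (Y × X) := fun s =>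
    (F ∩ ((⋃ κ ∈ {κ | κ ∈ cls C F ∧ κ ∉ Prod.fst '' s}, G κ) ∪ ⋃ b ∈ s, w b.1 b.2)ᶜ,
      ⋂ b ∈ s, G b.1 ×ˢ b.2)
  refine ⟨o '' I, ch '' {s | s ⊆ I ∧ s.Finite}, ?_, ?_, ?_, ?_, ?_, ?_, ?_, ?_, ?_, ?_⟩
  · rintro _ ⟨b, hb, rfl⟩
    exact ((((hw _ hb.1).2.2.2 _ hb.2).1).inter (hG1 _)).prod ((hw _ hb.1).1 _ hb.2)
  · rintro _ ⟨b, hb, rfl⟩
    exact ((hw _ hb.1).2.2.2 _ hb.2).2.2.mono (prod_mono inter_subset_left subset_rfl)
  · rintro _ ⟨b, hb, rfl⟩ z hz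
    obtain ⟨y, hy, hzy⟩ := hG3 _ hz.1.2
    obtain ⟨y0, -, h⟩ := hb.1
    rw [h] at hy
    exact ⟨y, hy.2, hzy⟩
  · intro z
    refine ((hT z).image o).subset ?_
    rintro _ ⟨⟨b, hb, rfl⟩, hz⟩
    exact ⟨b, ⟨hb, hz.1.2, hz.2⟩, rfl⟩
  · rintro _ ⟨s, hs, rfl⟩
    refine hF.inter (IsOpen.isClosed_compl (IsOpen.union ?_ ?_))
    · exact isOpen_biUnion fun κ _ => hG1 κ
    · exact isOpen_biUnion fun b hb => ((hw _ (hs.1 hb).1).2.2.2 _ (hs.1 hb).2).1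
  · rintro _ ⟨s, hs, rfl⟩
    exact inter_subset_left
  · rintro _ ⟨s, hs, rfl⟩
    rw [Set.disjoint_left]
    rintro y ⟨-, hy⟩ hyM
    apply hy
    have hκ : {v | le C y v} ∩ F ∈ cls C F := ⟨y, hyM, rfl⟩
    have hyκ : y ∈ {v | le C y v} ∩ F := ⟨le_rfl' C y, hyM.1⟩
    by_cases h : {v | le C y v} ∩ F ∈ Prod.fst '' s
    · obtain ⟨b, hb, hb1⟩ := h
      right
      simp only [mem_iUnion]
      refine ⟨b, hb, ((hw _ (hs.1 hb).1).2.2.2 _ (hs.1 hb).2).2.1 ?_⟩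
      rw [hb1]
      exact hyκ
    · left
      simp only [mem_iUnion]
      exact ⟨_, ⟨hκ, h⟩, hG2 _ hκ hyκ⟩
  · rintro _ ⟨s, hs, rfl⟩
    exact hs.2.isOpen_biInter fun b hb => (hG1 _).prod ((hw _ (hs.1 hb).1).1 _ (hs.1 hb).2)
  · intro z
    refine (((hT z).finite_subsets).image ch).subset ?_
    rintro _ ⟨⟨s, hs, rfl⟩, hz⟩
    refine ⟨s, fun b hb => ?_, rfl⟩
    simp only [ch, mem_iInter] at hz
    exact ⟨hs.1 hb, (hz b hb).1, (hz b hb).2⟩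
  · intro z hz
    by_cases h : ∃ b ∈ T z, z.1 ∈ w b.1 b.2
    · obtain ⟨b, hb, hzb⟩ := h
      exact Or.inl ⟨o b, ⟨b, hb.1, rfl⟩, ⟨hzb, hb.2.1⟩, hb.2.2⟩
    · right
      refine ⟨ch (T z), ⟨T z, ⟨fun b hb => hb.1, hT z⟩, rfl⟩, ?_, hz, ?_⟩
      · simp only [ch, mem_iInter]
        exact fun b hb => ⟨hb.2.1, hb.2.2⟩
      · rintro (h' | h')
        · simp only [mem_iUnion] at h'
          obtain ⟨κ, ⟨hκ, hκ'⟩, hzκ⟩ := h'
          have : z.2 ∈ ⋃₀ 𝒱 κ := (hw κ hκ).2.1 ▸ mem_univ _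
          obtain ⟨V, hV, hzV⟩ := this
          exact hκ' ⟨(κ, V), ⟨⟨hκ, hV⟩, hzκ, hzV⟩, rfl⟩
        · simp only [mem_iUnion] at h'
          obtain ⟨b, hb, hzb⟩ := h'
          exact h ⟨b, hb, hzb⟩

/-- the levels of the tree of open sets -/
def lev (P : Set Y → Set (Set (Y × X))) (Ch : Set Y → Set (Set Y × Set (Y × X))) :
    ℕ → Set Y → Set (Set (Y × X))
  | 0, F => P F
  | k + 1, F => {O | ∃ c ∈ Ch F, ∃ O' ∈ lev P Ch k c.1, O = O' ∩ c.2}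

lemma exists_levels (hY : MC Y) (hX : MC X) (hC : ∀ A ∈ C, IsCompact A ∧ IsClosed A)
    (hcp : ∀ G ⊆ C, IsClosed (⋃₀ G)) {𝒰 : Set (Set (Y × X))} (hU : ∀ U ∈ 𝒰, IsOpen U)
    (hcov : ⋃₀ 𝒰 = univ) :
    ∃ Φ : ℕ → Set (Set (Y × X)), (∀ k, ∀ O ∈ Φ k, IsOpen O ∧ small 𝒰 O) ∧
      (∀ k z, {O | O ∈ Φ k ∧ z ∈ O}.Finite) ∧
      (∀ z : Y × X, z.1 ∈ ⋃₀ C → ∃ N, ∀ k, N < k → z ∉ ⋃₀ Φ k) ∧
      (∀ z : Y × X, z.1 ∈ ⋃₀ C → ∃ k, z ∈ ⋃₀ Φ k) := by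
  have : ∀ F : Set Y, ∃ P Ch, IsClosed F → F ⊆ ⋃₀ C → Step C 𝒰 F P Ch := by
    intro F
    by_cases h : IsClosed F ∧ F ⊆ ⋃₀ C
    · obtain ⟨P, Ch, hs⟩ := exists_step hY hX hC hcp hU hcov h.1 h.2
      exact ⟨P, Ch, fun _ _ => hs⟩
    · exact ⟨∅, ∅, fun h1 h2 => absurd ⟨h1, h2⟩ h⟩
  choose P Ch hs using this
  have hA : ∀ k F, IsClosed F → F ⊆ ⋃₀ C → ∀ O ∈ lev P Ch k F,
      IsOpen O ∧ small 𝒰 O ∧ ∀ z ∈ O, ∃ w ∈ F, le C z.1 w := by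
    intro k
    induction k with
    | zero =>
      intro F h1 h2 O hO
      exact ⟨(hs F h1 h2).Popen O hO, (hs F h1 h2).Psmall O hO, (hs F h1 h2).Pmeet O hO⟩
    | succ k ih =>
      rintro F h1 h2 _ ⟨c, hc, O, hO, rfl⟩
      have hst := hs F h1 h2
      obtain ⟨a1, a2, a3⟩ := ih c.1 (hst.Cclosed c hc) ((hst.Csub c hc).trans h2) O hO
      refine ⟨a1.inter (hst.Copen c hc), a2.mono inter_subset_left, fun z hz => ?_⟩
      obtain ⟨w, hw, hzw⟩ := a3 z hz.1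
      exact ⟨w, hst.Csub c hc hw, hzw⟩
  have hB : ∀ k F, IsClosed F → F ⊆ ⋃₀ C → ∀ z, {O | O ∈ lev P Ch k F ∧ z ∈ O}.Finite := by
    intro k
    induction k with
    | zero =>
      intro F h1 h2 z
      exact (hs F h1 h2).Pfin z
    | succ k ih =>
      intro F h1 h2 z
      have hst := hs F h1 h2
      refine Finite.subset ((hst.Cfin z).biUnion (t := fun c =>
        (fun O => O ∩ c.2) '' {O | O ∈ lev P Ch k c.1 ∧ z ∈ O}) ?_) ?_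
      · intro c hc
        exact (ih c.1 (hst.Cclosed c hc.1) ((hst.Csub c hc.1).trans h2) z).image _
      · rintro _ ⟨⟨c, hc, O, hO, rfl⟩, hz⟩
        simp only [mem_iUnion]
        exact ⟨c, ⟨hc, hz.2⟩, O, ⟨hO, hz.1⟩, rfl⟩
  have hCl : IsClosed (⋃₀ C) := hcp C subset_rfl
  refine ⟨fun k => lev P Ch k (⋃₀ C), fun k O hO => ?_, fun k z => hB k _ hCl subset_rfl z,
    fun z hz => ?_, fun z hz => ?_⟩
  · exact ⟨(hA k _ hCl subset_rfl O hO).1, (hA k _ hCl subset_rfl O hO).2.1⟩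
  · have key : ∀ F, IsClosed F → F ⊆ ⋃₀ C → ∃ N, ∀ k, N < k → z ∉ ⋃₀ lev P Ch k F := by
      intro F
      induction F using (wf_desc hC hcp hz).induction with
      | _ F ih =>
        intro h1 h2
        by_cases hm : ∃ w ∈ F, le C z.1 w
        · have hst := hs F h1 h2
          have : ∀ c : Set Y × Set (Y × X), ∃ N, c ∈ Ch F → ∀ k, N < k →
              z ∉ ⋃₀ lev P Ch k c.1 := by
            intro c
            by_cases hc : c ∈ Ch F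
            · obtain ⟨N, hN⟩ := ih c.1 ⟨h1, hst.Csub c hc, hst.Cdisj c hc, hm⟩
                (hst.Cclosed c hc) ((hst.Csub c hc).trans h2)
              exact ⟨N, fun _ => hN⟩
            · exact ⟨0, fun h => absurd h hc⟩
          choose N hN using this
          obtain ⟨B, hB⟩ := ((hst.Cfin z).image N).bddAbove
          refine ⟨B + 1, fun k hk => ?_⟩
          obtain ⟨k, rfl⟩ : ∃ j, k = j + 1 := ⟨k - 1, by omega⟩
          rintro ⟨_, ⟨c, hc, O, hO, rfl⟩, hzO⟩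
          have : N c ≤ B := hB ⟨c, ⟨hc, hzO.2⟩, rfl⟩
          exact hN c hc k (by omega) ⟨O, hO, hzO.1⟩
        · refine ⟨0, fun k _ => ?_⟩
          rintro ⟨O, hO, hzO⟩
          exact hm ((hA k F h1 h2 O hO).2.2 z hzO)
    exact key _ hCl subset_rfl
  · have key : ∀ F, IsClosed F → F ⊆ ⋃₀ C → z.1 ∈ F → ∃ k, z ∈ ⋃₀ lev P Ch k F := by
      intro F
      induction F using (wf_desc hC hcp hz).induction with
      | _ F ih =>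
        intro h1 h2 h3
        have hst := hs F h1 h2
        rcases hst.cover z h3 with ⟨O, hO, hzO⟩ | ⟨c, hc, hz1, hz2⟩
        · exact ⟨0, O, hO, hzO⟩
        · obtain ⟨k, O, hO, hzO⟩ := ih c.1
            ⟨h1, hst.Csub c hc, hst.Cdisj c hc, z.1, h3, le_rfl' C _⟩
            (hst.Cclosed c hc) ((hst.Csub c hc).trans h2) hz2
          exact ⟨k + 1, O ∩ c.2, ⟨c, hc, O, hO, rfl⟩, hzO, hz1⟩
    exact key _ hCl subset_rfl hz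

theorem main (hY : MC Y) (hX : MC X) (F : ℕ → Set (Set Y))
    (hC : ∀ n, ∀ A ∈ F n, IsCompact A ∧ IsClosed A) (hcp : ∀ n, ∀ G ⊆ F n, IsClosed (⋃₀ G))
    (hF : (⋃ n, ⋃₀ F n) = univ) : MC (Y × X) := by
  intro 𝒰 hU hcov
  have := fun n => exists_levels hY hX (hC n) (hcp n) hU hcov
  choose Φ h1 h2 h3 h4 using this
  have hs : ∀ O : Set (Y × X), ∃ t : Set (Set (Y × X)),
      small 𝒰 O → t ⊆ 𝒰 ∧ t.Finite ∧ O ⊆ ⋃₀ t := by
    intro O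
    by_cases h : small 𝒰 O
    · obtain ⟨t, ht⟩ := h
      exact ⟨t, fun _ => ht⟩
    · exact ⟨∅, fun h' => absurd h' h⟩
  choose t ht using hs
  let E : ℕ × ℕ → Set (Y × X) := fun i =>
    (Prod.fst ⁻¹' ⋃₀ F i.1) ∩ (⋃ k ∈ {k | i.2 < k}, ⋃₀ Φ i.1 k)ᶜ
  have hE : ∀ i, IsClosed (E i) := by
    intro i
    refine ((hcp i.1 _ subset_rfl).preimage continuous_fst).inter (IsOpen.isClosed_compl ?_)
    exact isOpen_biUnion fun k _ => isOpen_sUnion fun O hO => (h1 _ _ O hO).1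
  have hfin : ∀ m : ℕ, {j : ℕ × ℕ | Nat.pair j.1 j.2 < m}.Finite := by
    intro m
    refine Finite.of_finite_image (f := fun j : ℕ × ℕ => Nat.pair j.1 j.2)
      ((finite_lt_nat m).subset ?_) ?_
    · rintro _ ⟨j, hj, rfl⟩
      exact hj
    · intro a _ b _ h
      have := Nat.pair_eq_pair.1 h
      exact Prod.ext this.1 this.2
  let D : ℕ × ℕ → Set (Y × X) := fun i =>
    ⋂ j ∈ {j : ℕ × ℕ | Nat.pair j.1 j.2 < Nat.pair i.1 i.2}, (E j)ᶜ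
  have hD : ∀ i, IsOpen (D i) := fun i =>
    (hfin _).isOpen_biInter fun j _ => (hE j).isOpen_compl
  have hn : ∀ z : Y × X, ∃ n, z.1 ∈ ⋃₀ F n := by
    intro z
    have : z.1 ∈ ⋃ n, ⋃₀ F n := hF ▸ mem_univ _
    exact mem_iUnion.1 this
  refine ⟨{V | ∃ i : ℕ × ℕ, ∃ O ∈ Φ i.1 i.2, ∃ U ∈ t O, V = O ∩ U ∩ D i}, ?_, ?_, ?_, ?_⟩
  · rintro _ ⟨i, O, hO, U, hUt, rfl⟩
    exact (((h1 _ _ O hO).1).inter (hU U ((ht O (h1 _ _ O hO).2).1 hUt))).inter (hD i)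
  · rw [eq_univ_iff_forall]
    intro z
    classical
    have hex : ∃ m, ∃ i : ℕ × ℕ, Nat.pair i.1 i.2 = m ∧ z ∈ ⋃₀ Φ i.1 i.2 := by
      obtain ⟨n, hn⟩ := hn z
      obtain ⟨k, hk⟩ := h4 n z hn
      exact ⟨_, (n, k), rfl, hk⟩
    obtain ⟨i, hi, O, hO, hzO⟩ := Nat.find_spec hex
    obtain ⟨U, hUt, hzU⟩ := (ht O (h1 _ _ O hO).2).2.2 hzO
    refine ⟨O ∩ U ∩ D i, ⟨i, O, hO, U, hUt, rfl⟩, ⟨hzO, hzU⟩, ?_⟩
    simp only [D, mem_iInter]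
    rintro j hj ⟨hz1, hz2⟩
    obtain ⟨k, hk⟩ := h4 j.1 z hz1
    have hkj : k ≤ j.2 := by
      by_contra hlt
      apply hz2
      simp only [mem_iUnion]
      exact ⟨k, not_le.1 hlt, hk⟩
    have hle : Nat.pair j.1 k ≤ Nat.pair j.1 j.2 := by
      rcases hkj.eq_or_lt with h | h
      · rw [h]
      · exact (Nat.pair_lt_pair_right _ h).le
    have hj' : Nat.pair j.1 j.2 < Nat.pair i.1 i.2 := hj
    exact Nat.find_min hex (m := Nat.pair j.1 k) (by omega) ⟨(j.1, k), rfl, hk⟩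
  · rintro _ ⟨i, O, hO, U, hUt, rfl⟩
    exact ⟨U, (ht O (h1 _ _ O hO).2).1 hUt, fun z hz => hz.1.2⟩
  · intro z
    obtain ⟨n, hn⟩ := hn z
    obtain ⟨N, hN⟩ := h3 n z hn
    have hzE : z ∈ E (n, N) := by
      refine ⟨hn, ?_⟩
      simp only [mem_compl_iff, mem_iUnion, not_exists]
      exact fun k hk => hN k hk
    refine Finite.subset ((hfin (Nat.pair n N + 1)).biUnion (t := fun i =>
      ⋃ O ∈ {O | O ∈ Φ i.1 i.2 ∧ z ∈ O}, (fun U => O ∩ U ∩ D i) '' t O) ?_) ?_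
    · intro i _
      exact (h2 _ _ z).biUnion fun O hO => (ht O (h1 _ _ O hO.1).2).2.1.image _
    · rintro _ ⟨⟨i, O, hO, U, hUt, rfl⟩, hz⟩
      simp only [mem_iUnion]
      refine ⟨i, ?_, O, ⟨hO, hz.1.1⟩, U, hUt, rfl⟩
      by_contra hlt
      have hz2 := hz.2
      simp only [D, mem_iInter] at hz2
      refine hz2 (n, N) ?_ hzE
      simp only [mem_setOf_eq] at hlt ⊢
      omega

end Pool.Agent.H700Z.Cpc
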