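import Pool.Agent.Helper873.Product

set_option maxHeartbeats 400000
set_option autoImplicit false
open MeasureTheory Metric
open scoped ComplexConjugate

namespace Pool.Agent.H700Z.HD

open Pool.Agent.Helper873.OneVar Pool.Agent.Helper873.Product

/-- Haar measure of the circle -/
noncomputable abbrev mu : Measure UnitAddCircle := AddCircle.haarAddCircle (T := 1)

lemma one_add_ne (c ζ : ℂ) (hc : ‖c‖ < 1) (hζ : ‖ζ‖ ≤ 1) : 1 + c * ζ ≠ 0 := by
  intro h
  have h1 : c * ζ = -1 := by linear_combination h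
  have h2 : ‖c * ζ‖ = 1 := by rw [h1]; simp
  rw [norm_mul] at h2
  nlinarith [norm_nonneg c, norm_nonneg ζ]

lemma mean_inv (c : ℂ) (hc : ‖c‖ < 1) (j n : ℕ) (hn : 1 ≤ n) :
    ∫ t, zet t ^ j / (1 + c * zet t ^ n) ∂mu = if j = 0 then 1 else 0 := by
  have h := integral_zet (fun z : ℂ => z ^ j / (1 + c * z ^ n))
  rw [h]
  have hd : DiffContOnCl ℂ (fun z : ℂ => z ^ j / (1 + c * z ^ n)) (ball 0 |1|) := by
    apply DifferentiableOn.diffContOnCl
    rw [abs_one, closure_ball (0 : ℂ) one_ne_zero]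
    refine DifferentiableOn.div (by fun_prop) (by fun_prop) fun z hz => ?_
    refine one_add_ne c _ hc ?_
    rw [norm_pow]
    exact pow_le_one₀ (norm_nonneg _) (by simpa using hz)
  rw [hd.circleAverage]
  have : (0 : ℂ) ^ n = 0 := zero_pow (by omega)
  simp [this, zero_pow_eq]

lemma mean_pow (j n : ℕ) :
    ∫ t, zet t ^ j * conj (zet t ^ n) ∂mu = if j = n then 1 else 0 := by
  have h1 : ∀ t, zet t ^ j * conj (zet t ^ n) = fourier ((n : ℤ) - j) t := by
    intro t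
    rw [zet_pow, zet_pow, ← fourier_neg, ← fourier_add]
    congr 2; ring
  simp_rw [h1]
  by_cases h : j = n
  · subst h; simp
  · rw [if_neg h]
    exact integral_eq_zero_of_add_right_eq_neg (μ := mu) (fourier_add_half_inv_index
      (n := (n : ℤ) - j) (by omega) one_pos)

/-- admissible triples -/
def Adm (α : ℂ) (β P : ℝ) : Prop := ‖α‖ ^ 2 ≤ β ∧ 0 ≤ P ∧ β ^ 2 ≤ P * (β - ‖α‖ ^ 2)

noncomputable def DD (α e : ℂ) (β : ℝ) : ℝ :=
  (β - ‖α‖ ^ 2 - 2 * ‖e‖ ^ 2) * (1 + 3 * ‖e‖ ^ 2 / (4 * β))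

noncomputable def bb (α e : ℂ) (β : ℝ) : ℂ :=
  ((1 / (β - ‖e‖ ^ 2 - DD α e β / 2) : ℝ) : ℂ) * (α * conj e)

noncomputable def GG (α e : ℂ) (β : ℝ) (ζ : ℂ) : ℂ := α / (1 + bb α e β * ζ) + e * conj ζ

noncomputable def WW (α e : ℂ) (β : ℝ) (ζ : ℂ) : ℝ :=
  (1 - ‖bb α e β‖ ^ 2 / 4) * ‖2 - 1 / (1 + bb α e β / 2 * ζ)‖ ^ 2

/-- the purely real part of the core estimate -/
lemma real_core (A E β : ℝ) (hA : 0 ≤ A) (hE : 0 ≤ E) (hβ : 0 < β) (hg : 0 < β - A - 2 * E)
    (D : ℝ) (hD : D = (β - A - 2 * E) * (1 + 3 * E / (4 * β))) :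
    0 < D ∧ 0 < β - E - D / 2 ∧ A * E / (β - E - D / 2) ^ 2 ≤ E / (β - E) ∧
      D * (1 + A * E / (β - E - D / 2) ^ 2 / 4) ≤
        β - E - A - A * E / (β - E - D / 2) ^ 2 * (β - E - D) := by
  set g := β - A - 2 * E with hgdef
  have hB : 0 < β - E := by linarith
  have hD0 : 0 < D := by rw [hD]; positivity
  have hD1 : D ≤ g + 3 * E / 4 := by
    rw [hD, mul_add, mul_one]
    have : g * (3 * E / (4 * β)) = (g / β) * (3 * E / 4) := by field_simp
    rw [this]
    have h2 : g / β ≤ 1 := by rw [div_le_one hβ]; linarith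
    nlinarith
  have hA1 : A ≤ β - E - D := by linarith
  have hH : 0 < β - E - D / 2 := by linarith
  set B := β - E with hBdef
  set H := B - D / 2 with hHdef
  have hH2 : 0 < H ^ 2 := by positivity
  have k1 : A * B ≤ H ^ 2 := by rw [hHdef]; nlinarith
  refine ⟨hD0, hH, ?_, ?_⟩
  · rw [div_le_div_iff₀ hH2 hB]; nlinarith
  · have k2 : A * E / H ^ 2 ≤ E / B := by rw [div_le_div_iff₀ hH2 hB]; nlinarith
    have k3 : 0 ≤ B - 3 * D / 4 := by linarith
    have k4 : A * E / H ^ 2 * (B - 3 * D / 4) ≤ E / B * (B - 3 * D / 4) :=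
      mul_le_mul_of_nonneg_right k2 k3
    have k5 : E / B * (B - 3 * D / 4) = E - D * (3 * E / (4 * B)) := by field_simp
    have k6 : D * (1 - 3 * E / (4 * B)) ≤ g := by
      have k7 : 3 * E / (4 * β) ≤ 3 * E / (4 * B) := by
        apply div_le_div_of_nonneg_left (by positivity) (by positivity); linarith
      have k8 : (1 + 3 * E / (4 * β)) * (1 - 3 * E / (4 * β)) ≤ 1 := by
        nlinarith [sq_nonneg (3 * E / (4 * β))]
      calc D * (1 - 3 * E / (4 * B)) ≤ D * (1 - 3 * E / (4 * β)) := by nlinarith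
        _ = g * ((1 + 3 * E / (4 * β)) * (1 - 3 * E / (4 * β))) := by rw [hD]; ring
        _ ≤ g := by nlinarith
    nlinarith

lemma real_gain (E β b2 : ℝ) (hE : 0 ≤ E) (hβ : 0 < β) (h2 : 2 * E ≤ β) (hb : b2 ≤ E / (β - E)) :
    β ≤ (β - E / 20) * ((1 - b2 / 4) * (1 + 3 * E / (4 * β))) := by
  have hB : 0 < β - E := by linarith
  have h1 : (4 * β - 5 * E) / (4 * (β - E)) ≤ 1 - b2 / 4 := by
    have : (4 * β - 5 * E) / (4 * (β - E)) = 1 - E / (β - E) / 4 := by field_simp; ring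
    rw [this]; linarith
  have h3 : β ≤ (β - E / 20) * ((4 * β - 5 * E) / (4 * (β - E)) * (1 + 3 * E / (4 * β))) := by
    have : (β - E / 20) * ((4 * β - 5 * E) / (4 * (β - E)) * (1 + 3 * E / (4 * β))) =
        (β - E / 20) * (4 * β - 5 * E) * (4 * β + 3 * E) / (16 * β * (β - E)) := by
      field_simp; ring
    rw [this, le_div_iff₀ (by positivity)]
    have h4 : 0 ≤ β - 2 * E := by linarith
    nlinarith [mul_nonneg hE h4, mul_nonneg hE (mul_nonneg hE h4), mul_nonneg hE (mul_nonneg h4 h4),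
      mul_nonneg hE (mul_nonneg hE hE)]
  refine h3.trans ?_
  apply mul_le_mul_of_nonneg_left _ (by linarith)
  apply mul_le_mul_of_nonneg_right h1 (by positivity)

end Pool.Agent.H700Z.HD
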