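import Pool.Agent.H700Z.HD1

set_option maxHeartbeats 400000
set_option autoImplicit false
open MeasureTheory Metric
open scoped ComplexConjugate

namespace Pool.Agent.H700Z.HD

open Pool.Agent.Helper873.OneVar Pool.Agent.Helper873.Product

lemma mul_conj_sq (x : ℂ) : x * conj x = ((‖x‖ ^ 2 : ℝ) : ℂ) := by
  rw [Complex.mul_conj, Complex.normSq_eq_norm_sq]

lemma bb_sq (α e : ℂ) (β : ℝ) :
    ‖bb α e β‖ ^ 2 = ‖α‖ ^ 2 * ‖e‖ ^ 2 / (β - ‖e‖ ^ 2 - DD α e β / 2) ^ 2 := by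
  unfold bb
  rw [norm_mul, norm_mul, Complex.norm_real, Complex.norm_conj, mul_pow, mul_pow, Real.norm_eq_abs,
    sq_abs, div_pow, one_pow, one_div_mul_eq_div]

/-- hypotheses of the core step -/
def Hyp (α e : ℂ) (β Q : ℝ) : Prop :=
  0 ≤ β - ‖α‖ ^ 2 - 2 * ‖e‖ ^ 2 ∧ 0 ≤ Q ∧
    β * (β - ‖e‖ ^ 2 / 20) ≤ Q * (β - ‖α‖ ^ 2 - 2 * ‖e‖ ^ 2)

lemma Hyp.cases {α e : ℂ} {β Q : ℝ} (h : Hyp α e β Q) :
    (β = 0 ∧ α = 0 ∧ e = 0) ∨ (0 < β ∧ 0 < β - ‖α‖ ^ 2 - 2 * ‖e‖ ^ 2) := by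
  obtain ⟨h1, h2, h3⟩ := h
  have hA := sq_nonneg ‖α‖
  have hE := sq_nonneg ‖e‖
  have hβ : 0 ≤ β := by linarith
  rcases hβ.eq_or_lt with h0 | h0
  · left
    refine ⟨h0.symm, ?_, ?_⟩
    · have : ‖α‖ ^ 2 = 0 := by linarith
      simpa using this
    · have : ‖e‖ ^ 2 = 0 := by linarith
      simpa using this
  · right
    refine ⟨h0, ?_⟩
    rcases h1.eq_or_lt with h4 | h4
    · exfalso
      rw [← h4, mul_zero] at h3
      have : 0 < β - ‖e‖ ^ 2 / 20 := by linarith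
      nlinarith
    · exact h4

lemma Hyp.bb_lt {α e : ℂ} {β Q : ℝ} (h : Hyp α e β Q) : ‖bb α e β‖ < 1 := by
  rcases h.cases with ⟨-, h0, -⟩ | ⟨hβ, hg⟩
  · simp [bb, h0]
  · have hA := sq_nonneg ‖α‖
    have hE := sq_nonneg ‖e‖
    obtain ⟨-, -, k, -⟩ := real_core _ _ β hA hE hβ hg (DD α e β) rfl
    rw [← bb_sq] at k
    have : ‖e‖ ^ 2 / (β - ‖e‖ ^ 2) < 1 := by
      rw [div_lt_one (by linarith)]; linarith
    have h2 : ‖bb α e β‖ ^ 2 < 1 := by linarith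
    nlinarith [norm_nonneg (bb α e β)]

lemma half_lt {b : ℂ} (hb : ‖b‖ < 1) : ‖b / 2‖ < 1 / 2 := by
  rw [norm_div]; simp only [Complex.norm_ofNat]; linarith

lemma WW_nonneg {α e : ℂ} {β Q : ℝ} (h : Hyp α e β Q) (ζ : ℂ) : 0 ≤ WW α e β ζ := by
  have := h.bb_lt
  unfold WW
  apply mul_nonneg _ (sq_nonneg _)
  nlinarith [norm_nonneg (bb α e β)]

lemma WW_le {α e : ℂ} {β Q : ℝ} (h : Hyp α e β Q) (ζ : ℂ) (hζ : ‖ζ‖ = 1) : WW α e β ζ ≤ 16 := by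
  have hb := half_lt h.bb_lt
  unfold WW
  have h1 : 1 / 2 ≤ ‖1 + bb α e β / 2 * ζ‖ := by
    have := norm_sub_norm_le (1 : ℂ) (-(bb α e β / 2 * ζ))
    rw [sub_neg_eq_add, norm_neg, norm_mul, hζ, norm_one] at this
    linarith
  have h2 : ‖1 / (1 + bb α e β / 2 * ζ)‖ ≤ 2 := by
    rw [norm_div, norm_one, div_le_iff₀ (by linarith)]; linarith
  have h3 : ‖2 - 1 / (1 + bb α e β / 2 * ζ)‖ ≤ 4 := by
    refine (norm_sub_le _ _).trans ?_
    simp only [Complex.norm_ofNat]; linarith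
  have h4 : ‖2 - 1 / (1 + bb α e β / 2 * ζ)‖ ^ 2 ≤ 16 := by
    nlinarith [norm_nonneg (2 - 1 / (1 + bb α e β / 2 * ζ))]
  nlinarith [sq_nonneg ‖bb α e β‖, sq_nonneg ‖2 - 1 / (1 + bb α e β / 2 * ζ)‖]

theorem core {α e : ℂ} {β Q : ℝ} (h : Hyp α e β Q) (ζ : ℂ) (hζ : ‖ζ‖ = 1) :
    Adm (GG α e β ζ) β (Q * WW α e β ζ) := by
  have hW := WW_nonneg h ζ
  have hblt := h.bb_lt
  have hQ := h.2.1
  rcases h.cases with ⟨h0, h1, h2⟩ | ⟨hβ, hg⟩
  · refine ⟨?_, mul_nonneg hQ hW, ?_⟩ <;> simp [GG, h0, h1, h2]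
  have hA := sq_nonneg ‖α‖
  have hE := sq_nonneg ‖e‖
  obtain ⟨hD, hH, k1, k2⟩ := real_core _ _ β hA hE hβ hg (DD α e β) rfl
  rw [← bb_sq] at k1 k2
  have k3 := real_gain _ β _ hE hβ (by linarith) k1
  set b := bb α e β with hb
  set D := DD α e β with hDdef
  set H := β - ‖e‖ ^ 2 - D / 2 with hHdef
  have hζ1 : ζ * conj ζ = 1 := by rw [mul_conj_sq, hζ]; simp
  have h1 : α * conj e = (H : ℂ) * b := by
    rw [hb, bb, ← hDdef, ← hHdef, ← mul_assoc, ← Complex.ofReal_mul, mul_one_div_cancel hH.ne']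
    simp
  have h1' : conj α * e = (H : ℂ) * conj b := by
    have := congrArg conj h1
    simpa using this
  set t : ℝ := (b * ζ).re with ht
  have ht' : b * ζ + conj b * conj ζ = 2 * (t : ℂ) := by
    rw [← map_mul, Complex.add_conj, ht]; push_cast; ring
  have hu : 1 + b * ζ ≠ 0 := one_add_ne b ζ hblt hζ.le
  have hv : 1 + b / 2 * ζ ≠ 0 := one_add_ne _ ζ (by linarith [half_lt hblt]) hζ.le
  have hGu : GG α e β ζ * (1 + b * ζ) = α + e * b + e * conj ζ := by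
    unfold GG
    rw [← hb, add_mul, div_mul_cancel₀ _ hu]
    linear_combination (e * b) * hζ1
  have n1 : ‖α + e * b + e * conj ζ‖ ^ 2 = ‖α‖ ^ 2 + 2 * H * ‖b‖ ^ 2 + ‖e‖ ^ 2 * ‖b‖ ^ 2 +
      ‖e‖ ^ 2 + 2 * (H + ‖e‖ ^ 2) * t := by
    apply Complex.ofReal_injective
    rw [← mul_conj_sq]
    have a1 := mul_conj_sq α
    have a2 := mul_conj_sq e
    have a3 := mul_conj_sq b
    simp only [map_add, map_mul, Complex.conj_conj]
    push_cast at a1 a2 a3 ⊢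
    linear_combination a1 + (conj b + ζ) * h1 + (b + conj ζ) * h1' +
      (2 * H + (‖e‖ : ℂ) ^ 2) * a3 + (H + (‖e‖ : ℂ) ^ 2) * ht' +
      (b * ζ + conj b * conj ζ + b * conj b + 1) * a2 + e * conj e * hζ1
  have n2 : ‖1 + b * ζ‖ ^ 2 = 1 + ‖b‖ ^ 2 + 2 * t := by
    apply Complex.ofReal_injective
    rw [← mul_conj_sq]
    have a3 := mul_conj_sq b
    simp only [map_add, map_mul, map_one]
    push_cast at a3 ⊢
    linear_combination a3 + ht' + b * conj b * hζ1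
  have n3 : ‖1 + b / 2 * ζ‖ ^ 2 = 1 + ‖b‖ ^ 2 / 4 + t := by
    apply Complex.ofReal_injective
    rw [← mul_conj_sq]
    have a3 := mul_conj_sq b
    simp only [map_add, map_mul, map_one, map_div₀, map_ofNat]
    push_cast at a3 ⊢
    linear_combination (1 / 4) * a3 + (1 / 2) * ht' + (1 / 4) * b * conj b * hζ1
  have hu2 : 0 < ‖1 + b * ζ‖ ^ 2 := by positivity
  have hv2 : 0 < ‖1 + b / 2 * ζ‖ ^ 2 := by positivity
  have n4 : ‖GG α e β ζ‖ ^ 2 * ‖1 + b * ζ‖ ^ 2 = ‖α + e * b + e * conj ζ‖ ^ 2 := by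
    rw [← mul_pow, ← norm_mul, hGu]
  have den : D * ‖1 + b / 2 * ζ‖ ^ 2 ≤ (β - ‖GG α e β ζ‖ ^ 2) * ‖1 + b * ζ‖ ^ 2 := by
    rw [sub_mul, n4, n1, n2, n3, hHdef]
    nlinarith
  have hWeq : WW α e β ζ = (1 - ‖b‖ ^ 2 / 4) * (‖1 + b * ζ‖ ^ 2 / ‖1 + b / 2 * ζ‖ ^ 2) := by
    unfold WW
    rw [← hb, ← div_pow, ← norm_div]
    congr 3
    rw [eq_div_iff hv, sub_mul, one_div_mul_cancel hv]
    ring
  have hgap : 0 ≤ β - ‖GG α e β ζ‖ ^ 2 := by
    have : 0 ≤ (β - ‖GG α e β ζ‖ ^ 2) * ‖1 + b * ζ‖ ^ 2 := le_trans (by positivity) den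
    exact nonneg_of_mul_nonneg_left this hu2
  refine ⟨by linarith, mul_nonneg hQ hW, ?_⟩
  have hb4 : 0 ≤ 1 - ‖b‖ ^ 2 / 4 := by nlinarith [norm_nonneg b]
  have m1 : (1 - ‖b‖ ^ 2 / 4) * D ≤ WW α e β ζ * (β - ‖GG α e β ζ‖ ^ 2) := by
    rw [hWeq, mul_assoc]
    apply mul_le_mul_of_nonneg_left _ hb4
    rw [div_mul_eq_mul_div, le_div_iff₀ hv2]
    linarith
  have m2 : β ^ 2 ≤ Q * ((1 - ‖b‖ ^ 2 / 4) * D) := by
    have hc : 0 ≤ (1 - ‖b‖ ^ 2 / 4) * (1 + 3 * ‖e‖ ^ 2 / (4 * β)) := by positivity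
    calc β ^ 2 = β * β := by ring
      _ ≤ β * ((β - ‖e‖ ^ 2 / 20) * ((1 - ‖b‖ ^ 2 / 4) * (1 + 3 * ‖e‖ ^ 2 / (4 * β)))) :=
        mul_le_mul_of_nonneg_left k3 hβ.le
      _ = (β * (β - ‖e‖ ^ 2 / 20)) * ((1 - ‖b‖ ^ 2 / 4) * (1 + 3 * ‖e‖ ^ 2 / (4 * β))) := by ring
      _ ≤ (Q * (β - ‖α‖ ^ 2 - 2 * ‖e‖ ^ 2)) *
          ((1 - ‖b‖ ^ 2 / 4) * (1 + 3 * ‖e‖ ^ 2 / (4 * β))) :=
        mul_le_mul_of_nonneg_right h.2.2 hc
      _ = Q * ((1 - ‖b‖ ^ 2 / 4) * D) := by rw [hDdef, DD]; ring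
  calc β ^ 2 ≤ Q * ((1 - ‖b‖ ^ 2 / 4) * D) := m2
    _ ≤ Q * (WW α e β ζ * (β - ‖GG α e β ζ‖ ^ 2)) := mul_le_mul_of_nonneg_left m1 hQ
    _ = _ := by ring

lemma cont_inv (c : ℂ) (hc : ‖c‖ < 1) (j n : ℕ) :
    Continuous fun t => zet t ^ j / (1 + c * zet t ^ n) := by
  have := continuous_zet
  refine Continuous.div (by fun_prop) (by fun_prop) fun t => one_add_ne c _ hc ?_
  rw [norm_pow, norm_zet, one_pow]

lemma cont_GG {α e : ℂ} {β Q : ℝ} (h : Hyp α e β Q) (n : ℕ) :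
    Continuous fun t => GG α e β (zet t ^ n) := by
  have h1 := cont_inv _ h.bb_lt 0 n
  have := continuous_zet
  have h2 : (fun t => GG α e β (zet t ^ n)) = fun t =>
      α * (zet t ^ 0 / (1 + bb α e β * zet t ^ n)) + e * conj (zet t ^ n) := by
    funext t; unfold GG; ring
  rw [h2]
  have h3 : Continuous fun t => conj (zet t ^ n) := Complex.continuous_conj.comp (by fun_prop)
  fun_prop

lemma mean_GG {α e : ℂ} {β Q : ℝ} (h : Hyp α e β Q) (j n : ℕ) (hn : 1 ≤ n) :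
    ∫ t, zet t ^ j * GG α e β (zet t ^ n) ∂mu =
      (if j = 0 then α else 0) + (if j = n then e else 0) := by
  have h1 := cont_inv _ h.bb_lt j n
  have := continuous_zet
  have h3 : Continuous fun t => zet t ^ j * conj (zet t ^ n) :=
    Continuous.mul (by fun_prop) (Complex.continuous_conj.comp (by fun_prop))
  have h2 : ∀ t, zet t ^ j * GG α e β (zet t ^ n) =
      α * (zet t ^ j / (1 + bb α e β * zet t ^ n)) + e * (zet t ^ j * conj (zet t ^ n)) := by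
    intro t; unfold GG; ring
  simp_rw [h2]
  rw [integral_add ((integrable_cont h1).const_mul _) ((integrable_cont h3).const_mul _),
    integral_const_mul, integral_const_mul, mean_inv _ h.bb_lt j n hn, mean_pow]
  split_ifs <;> simp

lemma WW_eq {α e : ℂ} {β Q : ℝ} (h : Hyp α e β Q) (ζ : ℂ) (hζ : ‖ζ‖ = 1) :
    WW α e β ζ = (3 - ‖bb α e β‖ ^ 2) +
      (‖bb α e β‖ ^ 2 - 2) * (1 / (1 + bb α e β / 2 * ζ)).re := by
  have hblt := h.bb_lt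
  unfold WW
  set b := bb α e β
  have hv : 1 + b / 2 * ζ ≠ 0 := one_add_ne _ ζ (by linarith [half_lt hblt]) hζ.le
  set q := 1 / (1 + b / 2 * ζ) with hq
  have hζ1 : ζ * conj ζ = 1 := by rw [mul_conj_sq, hζ]; simp
  have h1 : q * (1 + b / 2 * ζ) = 1 := by rw [hq, one_div_mul_cancel hv]
  have h1' : conj q * (1 + conj b / 2 * conj ζ) = 1 := by
    have := congrArg conj h1
    simpa [map_ofNat] using this
  have ht : q + conj q = 2 * (q.re : ℂ) := by rw [Complex.add_conj]; push_cast; ring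
  apply Complex.ofReal_injective
  have a3 := mul_conj_sq b
  have a4 := mul_conj_sq (2 - q)
  simp only [map_sub, map_ofNat] at a4
  push_cast at a3 a4 ⊢
  rw [← a4, ← a3]
  have key : (1 - b * conj b / 4) * (q * conj q) = q + conj q - 1 := by
    linear_combination (-(conj q) * (conj b / 2 * conj ζ)) * h1 + (q - 1) * h1' +
      (q * conj q * b * conj b / 4) * hζ1
  linear_combination key + (b * conj b / 2 - 1) * ht

lemma mean_WW {α e : ℂ} {β Q : ℝ} (h : Hyp α e β Q) (n : ℕ) (hn : 1 ≤ n) :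
    ∫ t, WW α e β (zet t ^ n) ∂mu = 1 := by
  have hc : ‖bb α e β / 2‖ < 1 := by linarith [half_lt h.bb_lt]
  have h1 := cont_inv _ hc 0 n
  have h2 := mean_inv _ hc 0 n hn
  simp only [pow_zero, if_true] at h1 h2
  have h3 : ∀ t, WW α e β (zet t ^ n) = (3 - ‖bb α e β‖ ^ 2) +
      (‖bb α e β‖ ^ 2 - 2) * (1 / (1 + bb α e β / 2 * zet t ^ n)).re := fun t =>
    WW_eq h _ (by rw [norm_pow, norm_zet, one_pow])
  simp_rw [h3]
  have h4 := integral_re (μ := mu) (integrable_cont h1)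
  simp only [RCLike.re_eq_complex_re] at h4
  have h5 : Continuous fun t => (1 / (1 + bb α e β / 2 * zet t ^ n)).re :=
    Complex.continuous_re.comp h1
  rw [integral_add (integrable_const _) ((integrable_cont h5).const_mul _), integral_const_mul,
    h4, h2]
  simp
  ring

lemma cont_WW {α e : ℂ} {β Q : ℝ} (h : Hyp α e β Q) (n : ℕ) :
    Continuous fun t => WW α e β (zet t ^ n) := by
  have hc : ‖bb α e β / 2‖ < 1 := by linarith [half_lt h.bb_lt]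
  have h1 := cont_inv _ hc 0 n
  simp only [pow_zero] at h1
  unfold WW
  fun_prop

end Pool.Agent.H700Z.HD
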