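import Pool.Agent.H700Z.HD2

set_option maxHeartbeats 400000
set_option autoImplicit false
open MeasureTheory Metric Finset
open scoped ComplexConjugate

namespace Pool.Agent.H700Z.HD

open Pool.Agent.Helper873.OneVar Pool.Agent.Helper873.Product

lemma Adm.nonneg {α : ℂ} {β P : ℝ} (h : Adm α β P) : 0 ≤ β := (sq_nonneg _).trans h.1

lemma Adm.le {α : ℂ} {β P : ℝ} (h : Adm α β P) : β ≤ P := by
  obtain ⟨h1, h2, h3⟩ := h
  have h0 : 0 ≤ β := (sq_nonneg _).trans h1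
  rcases h0.eq_or_lt with h4 | h4
  · linarith
  · by_contra h5
    push Not at h5
    nlinarith [mul_nonneg h2 (sq_nonneg ‖α‖)]

lemma Adm.update {α : ℂ} {β P : ℝ} (h : Adm α β P) : Adm α (min β (2 * ‖α‖ ^ 2)) P := by
  rcases le_total β (2 * ‖α‖ ^ 2) with h4 | h4
  · rw [min_eq_left h4]; exact h
  · rw [min_eq_right h4]
    obtain ⟨h1, h2, h3⟩ := h
    have hA := sq_nonneg ‖α‖
    refine ⟨by linarith, h2, ?_⟩
    rcases hA.eq_or_lt with h5 | h5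
    · rw [← h5]; simp
    · have h6 : 0 < β - ‖α‖ ^ 2 := by linarith
      have h7 : 4 * ‖α‖ ^ 2 ≤ P := by
        by_contra h8
        push Not at h8
        nlinarith [sq_nonneg (β - 2 * ‖α‖ ^ 2)]
      nlinarith

lemma adm_sum {ι : Type} (s : Finset ι) (τ : ι → ℝ) (G : ι → ℂ) (B P : ι → ℝ)
    (hτ : ∀ i ∈ s, 0 ≤ τ i) (hsum : ∑ i ∈ s, τ i ≤ 1) (h : ∀ i ∈ s, Adm (G i) (B i) (P i)) :
    Adm (∑ i ∈ s, (τ i : ℂ) * G i) (∑ i ∈ s, τ i * B i) (∑ i ∈ s, τ i * P i) := by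
  have h1 : ‖∑ i ∈ s, (τ i : ℂ) * G i‖ ^ 2 ≤ ∑ i ∈ s, τ i * ‖G i‖ ^ 2 := by
    have a1 : ‖∑ i ∈ s, (τ i : ℂ) * G i‖ ≤ ∑ i ∈ s, τ i * ‖G i‖ := by
      refine (norm_sum_le _ _).trans (le_of_eq (sum_congr rfl fun i hi => ?_))
      rw [norm_mul, Complex.norm_real, Real.norm_of_nonneg (hτ i hi)]
    have a2 : (∑ i ∈ s, τ i * ‖G i‖) ^ 2 ≤ (∑ i ∈ s, τ i) * ∑ i ∈ s, τ i * ‖G i‖ ^ 2 :=
      sum_sq_le_sum_mul_sum_of_sq_le_mul s hτ
        (fun i hi => mul_nonneg (hτ i hi) (sq_nonneg _)) (fun i _ => le_of_eq (by ring))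
    have a3 : 0 ≤ ∑ i ∈ s, τ i * ‖G i‖ ^ 2 :=
      sum_nonneg fun i hi => mul_nonneg (hτ i hi) (sq_nonneg _)
    calc _ ≤ (∑ i ∈ s, τ i * ‖G i‖) ^ 2 := pow_le_pow_left₀ (norm_nonneg _) a1 2
      _ ≤ _ := a2
      _ ≤ _ := by nlinarith
  have h2 : (∑ i ∈ s, τ i * B i) ^ 2 ≤
      (∑ i ∈ s, τ i * P i) * ∑ i ∈ s, τ i * (B i - ‖G i‖ ^ 2) :=
    sum_sq_le_sum_mul_sum_of_sq_le_mul s (fun i hi => mul_nonneg (hτ i hi) (h i hi).2.1)
      (fun i hi => mul_nonneg (hτ i hi) (sub_nonneg.2 (h i hi).1)) (fun i hi => by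
        have := mul_le_mul_of_nonneg_left (h i hi).2.2 (sq_nonneg (τ i))
        nlinarith)
  have h3 : ∑ i ∈ s, τ i * (B i - ‖G i‖ ^ 2) = ∑ i ∈ s, τ i * B i - ∑ i ∈ s, τ i * ‖G i‖ ^ 2 := by
    rw [← sum_sub_distrib]; exact sum_congr rfl fun i _ => by ring
  have h4 : 0 ≤ ∑ i ∈ s, τ i * (B i - ‖G i‖ ^ 2) :=
    sum_nonneg fun i hi => mul_nonneg (hτ i hi) (sub_nonneg.2 (h i hi).1)
  have h5 : 0 ≤ ∑ i ∈ s, τ i * P i := sum_nonneg fun i hi => mul_nonneg (hτ i hi) (h i hi).2.1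
  refine ⟨by linarith, h5, h2.trans (mul_le_mul_of_nonneg_left (by linarith) h5)⟩

lemma cs2 (a b p q g h : ℝ) (hp : 0 ≤ p) (hq : 0 ≤ q) (hg : 0 ≤ g) (hh : 0 ≤ h)
    (h1 : a ^ 2 ≤ p * g) (h2 : b ^ 2 ≤ q * h) : (a + b) ^ 2 ≤ (p + q) * (g + h) := by
  have := sum_sq_le_sum_mul_sum_of_sq_le_mul (univ : Finset (Fin 2)) (r := ![a, b]) (f := ![p, q])
    (g := ![g, h]) (by simp [Fin.forall_fin_two, hp, hq]) (by simp [Fin.forall_fin_two, hg, hh])
    (by simp [Fin.forall_fin_two, h1, h2])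
  simpa [Fin.sum_univ_two] using this

lemma hyp_of_adm {α₀ α₁ : ℂ} {β₀ β₁ P₀ P₁ : ℝ} (h0 : Adm α₀ β₀ P₀) (h1 : Adm α₁ β₁ P₁)
    (h2 : β₁ ≤ 2 * ‖α₁‖ ^ 2) (m l : ℝ) :
    Hyp ((m : ℂ) * α₀) ((l : ℂ) * α₁) (m ^ 2 * β₀ + 2 * l ^ 2 * β₁)
      (m ^ 2 * P₀ + (159 / 160) * (2 * l ^ 2) * P₁) := by
  have e0 : ‖(m : ℂ) * α₀‖ ^ 2 = m ^ 2 * ‖α₀‖ ^ 2 := by
    rw [norm_mul, mul_pow, Complex.norm_real, Real.norm_eq_abs, sq_abs]
  have e1 : ‖(l : ℂ) * α₁‖ ^ 2 = l ^ 2 * ‖α₁‖ ^ 2 := by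
    rw [norm_mul, mul_pow, Complex.norm_real, Real.norm_eq_abs, sq_abs]
  have hm := sq_nonneg m
  have hl := sq_nonneg l
  have g0 : 0 ≤ m ^ 2 * (β₀ - ‖α₀‖ ^ 2) := mul_nonneg hm (sub_nonneg.2 h0.1)
  have g1 : 0 ≤ 2 * l ^ 2 * (β₁ - ‖α₁‖ ^ 2) := mul_nonneg (by positivity) (sub_nonneg.2 h1.1)
  have p0 : 0 ≤ m ^ 2 * P₀ := mul_nonneg hm h0.2.1
  have p1 : 0 ≤ (159 / 160) * (2 * l ^ 2) * P₁ := mul_nonneg (by positivity) h1.2.1
  unfold Hyp
  rw [e0, e1]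
  refine ⟨by linarith, by linarith, ?_⟩
  have key := cs2 (m ^ 2 * β₀) ((159 / 160) * (2 * l ^ 2) * β₁) _ _ _ _ p0 p1 g0 g1
    (by have := mul_le_mul_of_nonneg_left h0.2.2 (sq_nonneg (m ^ 2)); nlinarith)
    (by
      have a := mul_le_mul_of_nonneg_left h1.2.2 (sq_nonneg (2 * l ^ 2))
      have b : 0 ≤ (2 * l ^ 2) ^ 2 * β₁ ^ 2 := by positivity
      nlinarith)
  have x0 : 0 ≤ m ^ 2 * β₀ := mul_nonneg hm h0.nonneg
  have x1 : 0 ≤ 2 * l ^ 2 * β₁ := mul_nonneg (by positivity) h1.nonneg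
  have x2 : 2 * l ^ 2 * β₁ ≤ 4 * (l ^ 2 * ‖α₁‖ ^ 2) := by nlinarith
  set X := m ^ 2 * β₀
  set Y := 2 * l ^ 2 * β₁ with hY
  set E := l ^ 2 * ‖α₁‖ ^ 2 with hE
  have e2 : (159 / 160) * (2 * l ^ 2) * β₁ = (159 / 160) * Y := by rw [hY]; ring
  rw [e2] at key
  have e3 : X + Y - m ^ 2 * ‖α₀‖ ^ 2 - 2 * E =
      m ^ 2 * (β₀ - ‖α₀‖ ^ 2) + 2 * l ^ 2 * (β₁ - ‖α₁‖ ^ 2) := by
    simp only [X, Y, E]; ring
  rw [e3]
  refine le_trans ?_ key
  nlinarith [mul_nonneg (add_nonneg x0 x1) (sub_nonneg.2 x2), sq_nonneg Y]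

/-- damping factor -/
noncomputable def mm (r : ℝ) : ℝ := 1 / Real.sqrt (1 + 2 * (r / (1 - r)) ^ 2)

noncomputable def ll (r : ℝ) : ℝ := mm r * (r / (1 - r))

noncomputable def tau (N : ℕ) (r : ℝ) (n : ℕ) : ℝ := if n = 0 then r ^ N else (1 - r) * r ^ (n - 1)

lemma mm_pos (r : ℝ) : 0 < mm r := by unfold mm; positivity

lemma mm_ll (r : ℝ) : mm r ^ 2 + 2 * ll r ^ 2 = 1 := by
  unfold ll
  have h : mm r ^ 2 = 1 / (1 + 2 * (r / (1 - r)) ^ 2) := by
    unfold mm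
    rw [div_pow, one_pow, Real.sq_sqrt (by positivity)]
  rw [mul_pow, h]
  have : 0 < 1 + 2 * (r / (1 - r)) ^ 2 := by positivity
  generalize (r / (1 - r)) ^ 2 = x at *
  field_simp

lemma ll_ge (r : ℝ) (h0 : 0 < r) (h1 : r ^ 2 ≤ 1 / 2) : r ^ 2 ≤ 2 * ll r ^ 2 := by
  have hr : r < 1 := by nlinarith
  have h2 : r ^ 2 ≤ (r / (1 - r)) ^ 2 := by
    apply pow_le_pow_left₀ h0.le
    rw [le_div_iff₀ (by linarith)]; nlinarith
  have h3 := mm_ll r
  have h4 : ll r ^ 2 = mm r ^ 2 * (r / (1 - r)) ^ 2 := by unfold ll; ring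
  have h5 := sq_nonneg (mm r)
  by_contra h6
  push Not at h6
  have h7 : 1 / 2 < mm r ^ 2 := by linarith
  nlinarith [sq_nonneg r, mul_le_mul_of_nonneg_left h2 h5]

lemma tau_nonneg (N : ℕ) (r : ℝ) (h0 : 0 < r) (h1 : r < 1) (n : ℕ) : 0 ≤ tau N r n := by
  unfold tau
  have : 0 < 1 - r := by linarith
  split_ifs <;> positivity

lemma tau_sum (N : ℕ) (r : ℝ) : ∑ n ∈ range (N + 1), tau N r n = 1 := by
  rw [sum_range_succ']
  simp only [tau, Nat.add_eq_zero_iff, one_ne_zero, and_false, if_false, if_true,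
    Nat.add_sub_cancel]
  rw [← mul_sum, mul_comm, geom_sum_mul_neg]; ring

section step

variable (N : ℕ) (r : ℝ) (α : ℕ → ℂ) (β P : ℕ → ℝ)

noncomputable def pB (n : ℕ) : ℝ :=
  if n = 0 then mm r ^ 2 * β 0 else mm r ^ 2 * β 0 + 2 * ll r ^ 2 * β n

noncomputable def pG (n : ℕ) (ζ : ℂ) : ℂ :=
  if n = 0 then mm r * α 0 else GG (mm r * α 0) (ll r * α n) (pB r β n) (ζ ^ n)

noncomputable def pP (n : ℕ) (ζ : ℂ) : ℝ :=
  if n = 0 then mm r ^ 2 * P 0 else (mm r ^ 2 * P 0 + (159 / 160) * (2 * ll r ^ 2) * P n) *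
    WW (mm r * α 0) (ll r * α n) (pB r β n) (ζ ^ n)

noncomputable def sG (ζ : ℂ) : ℂ := ∑ n ∈ range (N + 1), (tau N r n : ℂ) * pG r α β n ζ

noncomputable def sP (ζ : ℂ) : ℝ := ∑ n ∈ range (N + 1), tau N r n * pP r α β P n ζ

noncomputable def sB (ζ : ℂ) : ℝ :=
  min (∑ n ∈ range (N + 1), tau N r n * pB r β n) (2 * ‖sG N r α β ζ‖ ^ 2)

/-- weights for the barrier -/
noncomputable def lam (n : ℕ) : ℝ := if n = 0 then mm r ^ 2 else tau N r n * (2 * ll r ^ 2)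

/-- weights for the potential -/
noncomputable def muw (n : ℕ) : ℝ :=
  if n = 0 then mm r ^ 2 else tau N r n * ((159 / 160) * (2 * ll r ^ 2))

variable {N r α β P}

lemma hyp_n (h : ∀ n, Adm (α n) (β n) (P n) ∧ β n ≤ 2 * ‖α n‖ ^ 2) (n : ℕ) (hn : n ≠ 0) :
    Hyp (mm r * α 0) (ll r * α n) (pB r β n)
      (mm r ^ 2 * P 0 + (159 / 160) * (2 * ll r ^ 2) * P n) := by
  unfold pB
  rw [if_neg hn]
  exact hyp_of_adm (h 0).1 (h n).1 (h n).2 _ _

lemma adm_piece (h : ∀ n, Adm (α n) (β n) (P n) ∧ β n ≤ 2 * ‖α n‖ ^ 2) (n : ℕ) (ζ : ℂ)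
    (hζ : ‖ζ‖ = 1) : Adm (pG r α β n ζ) (pB r β n) (pP r α β P n ζ) := by
  by_cases hn : n = 0
  · subst hn
    simp only [pG, pB, pP, if_true]
    obtain ⟨h1, h2, h3⟩ := (h 0).1
    have e0 : ‖(mm r : ℂ) * α 0‖ ^ 2 = mm r ^ 2 * ‖α 0‖ ^ 2 := by
      rw [norm_mul, mul_pow, Complex.norm_real, Real.norm_eq_abs, sq_abs]
    have hm := sq_nonneg (mm r)
    refine ⟨by rw [e0]; exact mul_le_mul_of_nonneg_left h1 hm, mul_nonneg hm h2, ?_⟩
    rw [e0]
    have := mul_le_mul_of_nonneg_left h3 (sq_nonneg (mm r ^ 2))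
    nlinarith
  · simp only [pG, pP, if_neg hn]
    exact core (hyp_n h n hn) _ (by rw [norm_pow, hζ, one_pow])

lemma step_adm (h0 : 0 < r) (h1 : r < 1)
    (h : ∀ n, Adm (α n) (β n) (P n) ∧ β n ≤ 2 * ‖α n‖ ^ 2) (ζ : ℂ) (hζ : ‖ζ‖ = 1) :
    Adm (sG N r α β ζ) (sB N r α β ζ) (sP N r α β P ζ) ∧
      sB N r α β ζ ≤ 2 * ‖sG N r α β ζ‖ ^ 2 :=
  ⟨(adm_sum _ _ _ _ _ (fun n _ => tau_nonneg N r h0 h1 n) (tau_sum N r).le
    (fun n _ => adm_piece h n ζ hζ)).update, min_le_right _ _⟩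

lemma split_sum (a : ℝ) (c : ℝ) (x : ℕ → ℝ) :
    ∑ n ∈ range (N + 1), tau N r n * (if n = 0 then a * x 0 else a * x 0 + c * x n) =
      ∑ n ∈ range (N + 1), (if n = 0 then a else tau N r n * c) * x n := by
  have h := tau_sum N r
  rw [sum_range_succ'] at h ⊢
  rw [sum_range_succ']
  simp only [Nat.add_eq_zero_iff, one_ne_zero, and_false, if_false, if_true, mul_add,
    sum_add_distrib, ← sum_mul]
  have : ∑ n ∈ range N, tau N r (n + 1) * (c * x (n + 1)) =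
      ∑ n ∈ range N, tau N r (n + 1) * c * x (n + 1) := sum_congr rfl fun _ _ => by ring
  rw [this]
  linear_combination (a * x 0) * h

lemma sB_le (ζ : ℂ) : sB N r α β ζ ≤ ∑ n ∈ range (N + 1), lam N r n * β n := by
  refine (min_le_left _ _).trans (le_of_eq ?_)
  exact split_sum _ _ β

lemma wsum_le (h0 : 0 < r) (a c : ℝ) (hc : 0 ≤ c) :
    ∑ n ∈ range (N + 1), (if n = 0 then a else tau N r n * c) ≤ a + c := by
  have h := tau_sum N r
  rw [sum_range_succ'] at h ⊢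
  simp only [Nat.add_eq_zero_iff, one_ne_zero, and_false, if_false, if_true, ← sum_mul]
  have h2 : 0 ≤ tau N r 0 := by unfold tau; simp only [if_true]; positivity
  nlinarith

lemma lam_sum (h0 : 0 < r) : ∑ n ∈ range (N + 1), lam N r n ≤ 1 := by
  have := wsum_le (N := N) h0 (mm r ^ 2) (2 * ll r ^ 2) (by positivity)
  rw [mm_ll] at this
  exact this

lemma muw_sum (h0 : 0 < r) (h1 : r ^ 2 ≤ 1 / 2) :
    ∑ n ∈ range (N + 1), muw N r n ≤ 1 - r ^ 2 / 160 := by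
  have h2 := wsum_le (N := N) h0 (mm r ^ 2) ((159 / 160) * (2 * ll r ^ 2)) (by positivity)
  have h3 := mm_ll r
  have h4 := ll_ge r h0 h1
  refine le_trans h2 (by linarith)

lemma lam_nonneg (h0 : 0 < r) (h1 : r < 1) (n : ℕ) : 0 ≤ lam N r n := by
  unfold lam
  have := tau_nonneg N r h0 h1 n
  split_ifs <;> positivity

lemma muw_nonneg (h0 : 0 < r) (h1 : r < 1) (n : ℕ) : 0 ≤ muw N r n := by
  unfold muw
  have := tau_nonneg N r h0 h1 n
  split_ifs <;> positivity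

lemma cont_pP (h : ∀ n, Adm (α n) (β n) (P n) ∧ β n ≤ 2 * ‖α n‖ ^ 2) (n : ℕ) :
    Continuous fun t => pP r α β P n (zet t) := by
  by_cases hn : n = 0
  · simp only [pP, hn, if_true]; exact continuous_const
  · simp only [pP, if_neg hn]
    exact continuous_const.mul (cont_WW (hyp_n h n hn) n)

lemma cont_pG (h : ∀ n, Adm (α n) (β n) (P n) ∧ β n ≤ 2 * ‖α n‖ ^ 2) (n : ℕ) :
    Continuous fun t => pG r α β n (zet t) := by
  by_cases hn : n = 0
  · simp only [pG, hn, if_true]; exact continuous_const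
  · simp only [pG, if_neg hn]
    exact cont_GG (hyp_n h n hn) n

lemma mean_sP (h : ∀ n, Adm (α n) (β n) (P n) ∧ β n ≤ 2 * ‖α n‖ ^ 2) :
    ∫ t, sP N r α β P (zet t) ∂mu = ∑ n ∈ range (N + 1), muw N r n * P n := by
  unfold sP
  rw [integral_finsetSum _ fun n _ => (integrable_cont (cont_pP h n)).const_mul _]
  rw [show ∑ n ∈ range (N + 1), muw N r n * P n = _ from (split_sum _ _ P).symm]
  refine sum_congr rfl fun n _ => ?_
  rw [integral_const_mul]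
  congr 1
  by_cases hn : n = 0
  · simp [pP, hn]
  · simp only [pP, if_neg hn]
    rw [integral_const_mul, mean_WW (hyp_n h n hn) n (by omega), mul_one]

lemma sP_le (h0 : 0 < r) (h1 : r < 1) (h : ∀ n, Adm (α n) (β n) (P n) ∧ β n ≤ 2 * ‖α n‖ ^ 2)
    (ζ : ℂ) (hζ : ‖ζ‖ = 1) :
    sP N r α β P ζ ≤ 16 * ∑ n ∈ range (N + 1), muw N r n * P n := by
  unfold sP
  rw [show ∑ n ∈ range (N + 1), muw N r n * P n = _ from (split_sum _ _ P).symm, mul_sum]
  refine sum_le_sum fun n _ => ?_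
  rw [mul_left_comm]
  refine mul_le_mul_of_nonneg_left ?_ (tau_nonneg N r h0 h1 n)
  by_cases hn : n = 0
  · simp only [pP, hn, if_true]
    have := mul_nonneg (sq_nonneg (mm r)) (h 0).1.2.1
    linarith
  · simp only [pP, if_neg hn]
    have h2 := hyp_n (r := r) h n hn
    rw [mul_comm]
    exact mul_le_mul_of_nonneg_right (WW_le h2 _ (by rw [norm_pow, hζ, one_pow])) h2.2.1

lemma mean_sG (h1 : r < 1) (h : ∀ n, Adm (α n) (β n) (P n) ∧ β n ≤ 2 * ‖α n‖ ^ 2)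
    (j : ℕ) (hj : j ≤ N) :
    ∫ t, zet t ^ j * sG N r α β (zet t) ∂mu = ((mm r * r ^ j : ℝ) : ℂ) * α j := by
  have hz := continuous_zet
  have e1 : ∀ t, zet t ^ j * sG N r α β (zet t) =
      ∑ n ∈ range (N + 1), (tau N r n : ℂ) * (zet t ^ j * pG r α β n (zet t)) := by
    intro t; unfold sG; rw [mul_sum]; exact sum_congr rfl fun _ _ => by ring
  simp_rw [e1]
  have hc : ∀ n, Continuous fun t => zet t ^ j * pG r α β n (zet t) := fun n =>
    (hz.pow j).mul (cont_pG h n)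
  rw [integral_finsetSum _ fun n _ => (integrable_cont (hc n)).const_mul _]
  have e2 : ∀ n, ∫ t, (tau N r n : ℂ) * (zet t ^ j * pG r α β n (zet t)) ∂mu =
      (tau N r n : ℂ) * ((if j = 0 then mm r * α 0 else 0) +
        (if j = n ∧ n ≠ 0 then ll r * α n else 0)) := by
    intro n
    rw [integral_const_mul]
    congr 1
    by_cases hn : n = 0
    · have := mean_pow j 0
      simp only [pow_zero, map_one, mul_one] at this
      simp only [pG, hn, if_true]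
      rw [integral_mul_const, this]
      split_ifs <;> simp_all
    · simp only [pG, if_neg hn]
      rw [mean_GG (hyp_n h n hn) j n (by omega)]
      simp [hn]
  simp_rw [e2, mul_add]
  rw [sum_add_distrib, ← sum_mul, ← Complex.ofReal_sum, tau_sum]
  by_cases hj0 : j = 0
  · subst hj0
    rw [sum_eq_zero]
    · simp
    · intro n _
      rw [if_neg (by omega), mul_zero]
  · rw [if_neg hj0, sum_eq_single j]
    · rw [if_pos ⟨rfl, hj0⟩, mul_zero, zero_add, ← mul_assoc, ← Complex.ofReal_mul]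
      congr 2
      unfold tau ll
      rw [if_neg hj0]
      obtain ⟨k, rfl⟩ := Nat.exists_eq_succ_of_ne_zero hj0
      have : 1 - r ≠ 0 := by linarith
      simp only [Nat.succ_sub_one, pow_succ]
      field_simp
    · intro n _ hn
      rw [if_neg (fun h => hn h.1.symm), mul_zero]
    · intro hj'
      exact absurd (mem_range.2 (by omega)) hj'

end step

section meas

variable {X : Type} [MeasurableSpace X]

lemma meas_conj {f : X → ℂ} (hf : Measurable f) : Measurable fun x => conj (f x) :=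
  Complex.continuous_conj.measurable.comp hf

lemma meas_bb {α e : X → ℂ} {β : X → ℝ} (hα : Measurable α) (he : Measurable e)
    (hβ : Measurable β) : Measurable fun x => bb (α x) (e x) (β x) := by
  unfold bb DD
  have := meas_conj he
  fun_prop

lemma meas_GG {α e ζ : X → ℂ} {β : X → ℝ} (hα : Measurable α) (he : Measurable e)
    (hβ : Measurable β) (hζ : Measurable ζ) : Measurable fun x => GG (α x) (e x) (β x) (ζ x) := by
  unfold GG
  have := meas_conj hζ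
  have := meas_bb hα he hβ
  fun_prop

lemma meas_WW {α e ζ : X → ℂ} {β : X → ℝ} (hα : Measurable α) (he : Measurable e)
    (hβ : Measurable β) (hζ : Measurable ζ) : Measurable fun x => WW (α x) (e x) (β x) (ζ x) := by
  unfold WW
  have := meas_bb hα he hβ
  fun_prop

variable {N : ℕ} {r : ℝ} {α : ℕ → X → ℂ} {β P : ℕ → X → ℝ} {ζ : X → ℂ}

lemma meas_pB (hβ : ∀ n, Measurable (β n)) (n : ℕ) :
    Measurable fun x => pB r (fun j => β j x) n := by
  unfold pB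
  have := hβ 0
  have := hβ n
  split_ifs <;> fun_prop

lemma meas_sG (hα : ∀ n, Measurable (α n)) (hβ : ∀ n, Measurable (β n)) (hζ : Measurable ζ) :
    Measurable fun x => sG N r (fun j => α j x) (fun j => β j x) (ζ x) := by
  unfold sG
  refine Finset.measurable_sum _ fun n _ => Measurable.const_mul ?_ _
  unfold pG
  split_ifs
  · exact (hα 0).const_mul _
  · exact meas_GG ((hα 0).const_mul _) ((hα n).const_mul _) (meas_pB hβ n) (hζ.pow_const n)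

lemma meas_sB (hα : ∀ n, Measurable (α n)) (hβ : ∀ n, Measurable (β n)) (hζ : Measurable ζ) :
    Measurable fun x => sB N r (fun j => α j x) (fun j => β j x) (ζ x) := by
  unfold sB
  refine Measurable.min (Finset.measurable_sum _ fun n _ => (meas_pB hβ n).const_mul _) ?_
  exact ((meas_sG hα hβ hζ).norm.pow_const 2).const_mul _

lemma meas_sP (hα : ∀ n, Measurable (α n)) (hβ : ∀ n, Measurable (β n))
    (hP : ∀ n, Measurable (P n)) (hζ : Measurable ζ) :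
    Measurable fun x => sP N r (fun j => α j x) (fun j => β j x) (fun j => P j x) (ζ x) := by
  unfold sP
  refine Finset.measurable_sum _ fun n _ => Measurable.const_mul ?_ _
  unfold pP
  split_ifs
  · exact (hP 0).const_mul _
  · exact (((hP 0).const_mul _).add ((hP n).const_mul _)).mul
      (meas_WW ((hα 0).const_mul _) ((hα n).const_mul _) (meas_pB hβ n) (hζ.pow_const n))

end meas

end Pool.Agent.H700Z.HD
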