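import Pool.Agent.H700Z.HD3

set_option maxHeartbeats 400000
set_option autoImplicit false
open MeasureTheory Metric Finset Function
open scoped ComplexConjugate

namespace Pool.Agent.H700Z.HD

open Pool.Agent.Helper873.OneVar Pool.Agent.Helper873.Product

abbrev Om : Type := ℕ → UnitAddCircle

/-- does not depend on the coordinates below `s` -/
def Indep {Y : Type} (s : ℕ) (F : Om → Y) : Prop := ∀ z i w, i < s → F (update z i w) = F z

/-- does not depend on the coordinates from `s` on -/
def Dep {Y : Type} (s : ℕ) (F : Om → Y) : Prop := ∀ z i w, s ≤ i → F (update z i w) = F z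

lemma Dep.mono {Y : Type} {s s' : ℕ} {F : Om → Y} (h : Dep s F) (hs : s ≤ s') : Dep s' F :=
  fun z i w hi => h z i w (hs.trans hi)

noncomputable def gam (r : ℕ → ℝ) (s t : ℕ) : ℝ := ∏ i ∈ Ico s t, (1 - r i ^ 2 / 160)

def restr (s t : ℕ) (ν : ℕ → ℕ) : ℕ → ℕ := fun i => if s ≤ i ∧ i < t then ν i else 0

lemma int_resample {E : Type} [NormedAddCommGroup E] [NormedSpace ℝ E] (i : ℕ) (f : Om → E)
    (hf : Integrable f tor) : ∫ z, f z ∂tor = ∫ z, ∫ w, f (update z i w) ∂mu ∂tor := by
  have h0 : Integrable (fun p : Om × UnitAddCircle => f (update p.1 i p.2)) (tor.prod mu) :=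
    (resample i).integrable_comp_of_integrable hf
  have h1 : ∫ z, f z ∂tor = ∫ p, f (update p.1 i p.2) ∂(tor.prod mu) := by
    have h2 := integral_map (μ := tor.prod mu)
      (φ := fun p : Om × UnitAddCircle => update p.1 i p.2)
      (resample i).measurable.aemeasurable (f := f)
      (by rw [(resample i).map_eq]; exact hf.aestronglyMeasurable)
    rw [(resample i).map_eq] at h2
    exact h2
  rw [h1, integral_prod _ h0]

lemma int_cont {E : Type} [NormedAddCommGroup E] {f : Om → E} (hf : Continuous f) :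
    Integrable f tor :=
  hf.integrable_of_hasCompactSupport (HasCompactSupport.of_compactSpace f)

lemma int_mulR {v F : Om → ℝ} (hv : Continuous v) (hF : Measurable F) (C : ℝ)
    (h0 : ∀ z, 0 ≤ F z) (hC : ∀ z, F z ≤ C) : Integrable (fun z => v z * F z) tor :=
  (int_cont hv).mul_bdd hF.aestronglyMeasurable (c := C)
    (Filter.Eventually.of_forall fun z => by rw [Real.norm_of_nonneg (h0 z)]; exact hC z)

lemma int_mulC {v F : Om → ℂ} (hv : Continuous v) (hF : Measurable F) (C : ℝ)
    (hC : ∀ z, ‖F z‖ ≤ C) : Integrable (fun z => v z * F z) tor :=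
  (int_cont hv).mul_bdd hF.aestronglyMeasurable (c := C) (Filter.Eventually.of_forall hC)

/-- the invariants of the dual construction on the variables in `[s, t)` -/
structure Inv (r : ℕ → ℝ) (N s t : ℕ) (η : (ℕ → ℕ) → ℂ) (G : Om → ℂ) (B P : Om → ℝ) : Prop where
  mG : Measurable G
  mB : Measurable B
  mP : Measurable P
  iG : Indep s G
  iB : Indep s B
  iP : Indep s P
  adm : ∀ z, Adm (G z) (B z) (P z) ∧ B z ≤ 2 * ‖G z‖ ^ 2
  ble : ∀ z, B z ≤ 2
  ple : ∃ C, ∀ z, P z ≤ C
  four : ∀ ν : ℕ → ℕ, (∀ i, ν i ≤ N) →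
    ∫ z, (∏ i ∈ Ico s t, zet (z i) ^ ν i) * G z ∂tor =
      ((∏ i ∈ Ico s t, mm (r i) * r i ^ ν i : ℝ) : ℂ) * η (restr s t ν)
  pot : ∀ v : Om → ℝ, Continuous v → (∀ z, 0 ≤ v z) → Dep s v →
    ∫ z, v z * P z ∂tor ≤ 4 * gam r s t * ∫ z, v z ∂tor
  bar : ∀ s', s ≤ s' → s' ≤ t → ∀ v : Om → ℝ, Continuous v → (∀ z, 0 ≤ v z) → Dep s' v →
    ∫ z, v z * B z ∂tor ≤ 4 * gam r s' t * ∫ z, v z ∂tor

lemma Inv.gle {r : ℕ → ℝ} {N s t : ℕ} {η : (ℕ → ℕ) → ℂ} {G : Om → ℂ} {B P : Om → ℝ}
    (h : Inv r N s t η G B P) (z : Om) : ‖G z‖ ≤ 2 := by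
  have h1 := (h.adm z).1.1
  have h2 := h.ble z
  nlinarith [norm_nonneg (G z)]

lemma gam_nonneg {r : ℕ → ℝ} (h1 : ∀ i, r i ^ 2 ≤ 1 / 2) (s t : ℕ) : 0 ≤ gam r s t :=
  prod_nonneg fun i _ => by linarith [h1 i]

lemma inv_base (r : ℕ → ℝ) (N t : ℕ) (η : (ℕ → ℕ) → ℂ) (hη : ∀ ν, ‖η ν‖ ≤ 1) :
    Inv r N t t η (fun _ => η 0) (fun _ => 2 * ‖η 0‖ ^ 2) (fun _ => 4 * ‖η 0‖ ^ 2) := by
  have h1 : ‖η 0‖ ^ 2 ≤ 1 := by nlinarith [hη 0, norm_nonneg (η 0)]
  have h0 := sq_nonneg ‖η 0‖
  have hg : gam r t t = 1 := by simp [gam]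
  refine ⟨measurable_const, measurable_const, measurable_const, fun _ _ _ _ => rfl,
    fun _ _ _ _ => rfl, fun _ _ _ _ => rfl, fun _ => ⟨⟨by linarith, by linarith, by nlinarith⟩,
    le_rfl⟩, fun _ => by linarith, ⟨_, fun _ => le_rfl⟩, fun ν _ => ?_, fun v _ hv _ => ?_,
    fun s' h2 h3 v _ hv _ => ?_⟩
  · have : restr t t ν = 0 := by
      funext i; unfold restr; rw [if_neg (by omega)]; rfl
    simp [this]
  · rw [integral_mul_const, hg]
    have : 0 ≤ ∫ z, v z ∂tor := integral_nonneg hv
    nlinarith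
  · obtain rfl : s' = t := le_antisymm h3 h2
    rw [integral_mul_const, hg]
    have : 0 ≤ ∫ z, v z ∂tor := integral_nonneg hv
    nlinarith

lemma inv_step (r : ℕ → ℝ) (h0 : ∀ i, 0 < r i) (h1 : ∀ i, r i ^ 2 ≤ 1 / 2) (N s t : ℕ)
    (hst : s < t) (η : (ℕ → ℕ) → ℂ) (G : ℕ → Om → ℂ) (B P : ℕ → Om → ℝ)
    (h : ∀ j, Inv r N (s + 1) t (fun μ => η (update μ s j)) (G j) (B j) (P j)) :
    Inv r N s t η (fun z => sG N (r s) (fun j => G j z) (fun j => B j z) (zet (z s)))
      (fun z => sB N (r s) (fun j => G j z) (fun j => B j z) (zet (z s)))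
      (fun z => sP N (r s) (fun j => G j z) (fun j => B j z) (fun j => P j z) (zet (z s))) := by
  have hr1 : r s < 1 := by nlinarith [h1 s, h0 s]
  have hz : Measurable fun z : Om => zet (z s) :=
    continuous_zet.measurable.comp (measurable_pi_apply s)
  have mG := meas_sG (N := N) (r := r s) (fun j => (h j).mG) (fun j => (h j).mB) hz
  have mB := meas_sB (N := N) (r := r s) (fun j => (h j).mG) (fun j => (h j).mB) hz
  have mP := meas_sP (N := N) (r := r s) (fun j => (h j).mG) (fun j => (h j).mB)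
    (fun j => (h j).mP) hz
  have uG : ∀ z i w, i < s + 1 → (fun j => G j (update z i w)) = fun j => G j z :=
    fun z i w hi => funext fun j => (h j).iG z i w hi
  have uB : ∀ z i w, i < s + 1 → (fun j => B j (update z i w)) = fun j => B j z :=
    fun z i w hi => funext fun j => (h j).iB z i w hi
  have uP : ∀ z i w, i < s + 1 → (fun j => P j (update z i w)) = fun j => P j z :=
    fun z i w hi => funext fun j => (h j).iP z i w hi
  have adm : ∀ z : Om, Adm (sG N (r s) (fun j => G j z) (fun j => B j z) (zet (z s)))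
      (sB N (r s) (fun j => G j z) (fun j => B j z) (zet (z s)))
      (sP N (r s) (fun j => G j z) (fun j => B j z) (fun j => P j z) (zet (z s))) ∧
      sB N (r s) (fun j => G j z) (fun j => B j z) (zet (z s)) ≤
        2 * ‖sG N (r s) (fun j => G j z) (fun j => B j z) (zet (z s))‖ ^ 2 :=
    fun z => step_adm (h0 s) hr1 (fun j => (h j).adm z) _ (norm_zet _)
  have ble : ∀ z : Om, sB N (r s) (fun j => G j z) (fun j => B j z) (zet (z s)) ≤ 2 := by
    intro z
    refine (sB_le _).trans ?_
    calc ∑ n ∈ range (N + 1), lam N (r s) n * B n z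
        ≤ ∑ n ∈ range (N + 1), lam N (r s) n * 2 :=
          sum_le_sum fun n _ => mul_le_mul_of_nonneg_left ((h n).ble z) (lam_nonneg (h0 s) hr1 n)
      _ ≤ 2 := by rw [← sum_mul]; linarith [lam_sum (N := N) (h0 s)]
  choose C hC using fun j => (h j).ple
  have ple : ∀ z : Om, sP N (r s) (fun j => G j z) (fun j => B j z) (fun j => P j z) (zet (z s)) ≤
      16 * ∑ n ∈ range (N + 1), muw N (r s) n * C n := by
    intro z
    refine (sP_le (h0 s) hr1 (fun j => (h j).adm z) _ (norm_zet _)).trans ?_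
    refine mul_le_mul_of_nonneg_left (sum_le_sum fun n _ => ?_) (by norm_num)
    exact mul_le_mul_of_nonneg_left (hC n z) (muw_nonneg (h0 s) hr1 n)
  have pot : ∀ v : Om → ℝ, Continuous v → (∀ z, 0 ≤ v z) → Dep s v →
      ∫ z, v z * sP N (r s) (fun j => G j z) (fun j => B j z) (fun j => P j z) (zet (z s)) ∂tor ≤
        4 * gam r s t * ∫ z, v z ∂tor := by
    intro v hv hv0 hd
    rw [int_resample s _ (int_mulR hv mP _ (fun z => (adm z).1.2.1) ple)]
    have e : ∀ z : Om, ∫ w, v (update z s w) * sP N (r s) (fun j => G j (update z s w))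
        (fun j => B j (update z s w)) (fun j => P j (update z s w)) (zet (update z s w s)) ∂mu =
        ∑ n ∈ range (N + 1), muw N (r s) n * (v z * P n z) := by
      intro z
      simp_rw [hd z s _ le_rfl, uG z s _ (Nat.lt_succ_self s), uB z s _ (Nat.lt_succ_self s),
        uP z s _ (Nat.lt_succ_self s), update_self]
      rw [integral_const_mul, mean_sP (fun j => (h j).adm z), mul_sum]
      exact sum_congr rfl fun _ _ => by ring
    simp_rw [e]
    rw [integral_finsetSum _ fun n _ =>
      (int_mulR hv (h n).mP _ (fun z => ((h n).adm z).1.2.1) (hC n)).const_mul _]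
    have hI : 0 ≤ 4 * gam r (s + 1) t * ∫ z, v z ∂tor :=
      mul_nonneg (mul_nonneg (by norm_num) (gam_nonneg h1 _ _)) (integral_nonneg hv0)
    calc ∑ n ∈ range (N + 1), ∫ z, muw N (r s) n * (v z * P n z) ∂tor
        ≤ ∑ n ∈ range (N + 1), muw N (r s) n * (4 * gam r (s + 1) t * ∫ z, v z ∂tor) := by
          refine sum_le_sum fun n _ => ?_
          rw [integral_const_mul]
          exact mul_le_mul_of_nonneg_left ((h n).pot v hv hv0 (hd.mono (Nat.le_succ s)))
            (muw_nonneg (h0 s) hr1 n)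
      _ ≤ (1 - r s ^ 2 / 160) * (4 * gam r (s + 1) t * ∫ z, v z ∂tor) := by
          rw [← sum_mul]
          exact mul_le_mul_of_nonneg_right (muw_sum (h0 s) (h1 s)) hI
      _ = 4 * gam r s t * ∫ z, v z ∂tor := by
          unfold gam
          rw [prod_eq_prod_Ico_succ_bot hst]; ring
  refine ⟨mG, mB, mP, fun z i w hi => ?_, fun z i w hi => ?_, fun z i w hi => ?_, adm, ble,
    ⟨_, ple⟩, fun ν hν => ?_, pot, fun s' h2 h3 v hv hv0 hd => ?_⟩
  · simp only [uG z i w (by omega), uB z i w (by omega), update_of_ne (show s ≠ i by omega)]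
  · simp only [uG z i w (by omega), uB z i w (by omega), update_of_ne (show s ≠ i by omega)]
  · simp only [uG z i w (by omega), uB z i w (by omega), uP z i w (by omega),
      update_of_ne (show s ≠ i by omega)]
  · have hc : ∀ a b, Continuous fun z : Om => ∏ i ∈ Ico a b, zet (z i) ^ ν i := fun a b =>
      continuous_finsetProd _ fun i _ => (continuous_zet.comp (continuous_apply i)).pow _
    have gle : ∀ z : Om, ‖sG N (r s) (fun j => G j z) (fun j => B j z) (zet (z s))‖ ≤ 2 := by
      intro z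
      have a1 := (adm z).1.1
      have a2 := ble z
      nlinarith [norm_nonneg (sG N (r s) (fun j => G j z) (fun j => B j z) (zet (z s)))]
    rw [int_resample s _ (int_mulC (hc s t) mG _ gle)]
    have e : ∀ z : Om, ∫ w, (∏ i ∈ Ico s t, zet (update z s w i) ^ ν i) *
        sG N (r s) (fun j => G j (update z s w)) (fun j => B j (update z s w))
          (zet (update z s w s)) ∂mu =
        ((mm (r s) * r s ^ ν s : ℝ) : ℂ) *
          ((∏ i ∈ Ico (s + 1) t, zet (z i) ^ ν i) * G (ν s) z) := by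
      intro z
      have e1 : ∀ w, ∏ i ∈ Ico s t, zet (update z s w i) ^ ν i =
          (∏ i ∈ Ico (s + 1) t, zet (z i) ^ ν i) * zet w ^ ν s := by
        intro w
        rw [prod_eq_prod_Ico_succ_bot hst, update_self, mul_comm]
        congr 1
        refine prod_congr rfl fun i hi => ?_
        rw [update_of_ne (by have := (mem_Ico.1 hi).1; omega)]
      simp_rw [e1, uG z s _ (Nat.lt_succ_self s), uB z s _ (Nat.lt_succ_self s), update_self,
        mul_assoc]
      rw [integral_const_mul, mean_sG hr1 (fun j => (h j).adm z) _ (hν s)]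
      ring
    simp_rw [e]
    rw [integral_const_mul, (h (ν s)).four ν hν, prod_eq_prod_Ico_succ_bot hst]
    have e2 : update (restr (s + 1) t ν) s (ν s) = restr s t ν := by
      funext i
      by_cases hi : i = s
      · subst hi; simp [restr, hst]
      · rw [update_of_ne hi]
        unfold restr
        have : (s + 1 ≤ i ∧ i < t) ↔ (s ≤ i ∧ i < t) := by omega
        simp only [this]
    rw [e2]
    push_cast
    ring
  · have iB := int_mulR hv mB _ (fun z => (adm z).1.nonneg) ble
    rcases h2.eq_or_lt with rfl | h4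
    · refine le_trans (integral_mono iB (int_mulR hv mP _ (fun z => (adm z).1.2.1) ple)
        fun z => mul_le_mul_of_nonneg_left (adm z).1.le (hv0 z)) (pot v hv hv0 hd)
    · have iBn : ∀ n, Integrable (fun z => lam N (r s) n * (v z * B n z)) tor := fun n =>
        (int_mulR hv (h n).mB _ (fun z => ((h n).adm z).1.nonneg) (h n).ble).const_mul _
      have hI : 0 ≤ 4 * gam r s' t * ∫ z, v z ∂tor :=
        mul_nonneg (mul_nonneg (by norm_num) (gam_nonneg h1 _ _)) (integral_nonneg hv0)
      calc _ ≤ ∫ z, ∑ n ∈ range (N + 1), lam N (r s) n * (v z * B n z) ∂tor := by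
            refine integral_mono iB (integrable_finsetSum _ fun n _ => iBn n) fun z => ?_
            refine (mul_le_mul_of_nonneg_left (sB_le _) (hv0 z)).trans (le_of_eq ?_)
            rw [mul_sum]
            exact sum_congr rfl fun _ _ => by ring
        _ ≤ ∑ n ∈ range (N + 1), lam N (r s) n * (4 * gam r s' t * ∫ z, v z ∂tor) := by
            rw [integral_finsetSum _ fun n _ => iBn n]
            refine sum_le_sum fun n _ => ?_
            rw [integral_const_mul]
            exact mul_le_mul_of_nonneg_left ((h n).bar s' h4 h3 v hv hv0 hd)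
              (lam_nonneg (h0 s) hr1 n)
        _ ≤ _ := by
            rw [← sum_mul]
            nlinarith [lam_sum (N := N) (h0 s)]

theorem exists_inv (r : ℕ → ℝ) (h0 : ∀ i, 0 < r i) (h1 : ∀ i, r i ^ 2 ≤ 1 / 2) (N t : ℕ) :
    ∀ L s, s + L = t → ∀ η : (ℕ → ℕ) → ℂ, (∀ ν, ‖η ν‖ ≤ 1) →
      ∃ G B P, Inv r N s t η G B P := by
  intro L
  induction L with
  | zero =>
    intro s hs η hη
    obtain rfl : s = t := hs
    exact ⟨_, _, _, inv_base r N s η hη⟩
  | succ L ih =>
    intro s hs η hη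
    choose G B P h using fun j : ℕ =>
      ih (s + 1) (by omega) (fun μ => η (update μ s j)) (fun ν => hη _)
    exact ⟨_, _, _, inv_step r h0 h1 N s t (by omega) η G B P h⟩

end Pool.Agent.H700Z.HD
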