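import Pool.Agent.H700Z.HD4

set_option maxHeartbeats 400000
set_option autoImplicit false
open MeasureTheory Metric Finset Function
open scoped ComplexConjugate

namespace Pool.Agent.H700Z.HD

open Pool.Agent.Helper873.OneVar Pool.Agent.Helper873.Product

lemma exists_phase (x : ℂ) : ∃ u : ℂ, ‖u‖ = 1 ∧ u * x = ‖x‖ := by
  by_cases h : x = 0
  · exact ⟨1, by simp, by simp [h]⟩
  · refine ⟨(‖x‖ : ℂ) / x, ?_, div_mul_cancel₀ _ h⟩
    rw [norm_div, Complex.norm_real, norm_norm, div_self (norm_ne_zero_iff.2 h)]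

/-- complex uniform convexity in one variable -/
lemma cv (N : ℕ) (a : ℕ → ℂ) (j : ℕ) (hj : 1 ≤ j) (hjN : j ≤ N) (b : ℝ) (hb0 : 0 ≤ b)
    (hb : b < 1) : b * ‖a j‖ - b ^ 2 * ‖a 0‖ + ‖a 0‖ ≤
      ∫ t, ‖∑ i ∈ range (N + 1), a i * zet t ^ i‖ ∂mu := by
  obtain ⟨u, hu, hu'⟩ := exists_phase (a 0)
  obtain ⟨v, hv, hv'⟩ := exists_phase (a j)
  set c : ℂ := b * (u * conj v) with hc
  have hc1 : ‖c‖ < 1 := by
    rw [hc, norm_mul, norm_mul, Complex.norm_conj, hu, hv, Complex.norm_real,
      Real.norm_of_nonneg hb0]; linarith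
  have hz := continuous_zet
  let G : UnitAddCircle → ℂ := fun t =>
    (1 - b ^ 2) * u / (1 + c * zet t ^ j) + b * v * conj (zet t ^ j)
  have hG : ∀ t, ‖G t‖ = 1 := by
    intro t
    have hζ : ‖zet t ^ j‖ = 1 := by rw [norm_pow, norm_zet, one_pow]
    have hne := one_add_ne c _ hc1 hζ.le
    have e1 : zet t ^ j * conj (zet t ^ j) = 1 := by rw [mul_conj_sq, hζ]; simp
    have e2 : u * conj u = 1 := by rw [mul_conj_sq, hu]; simp
    have e3 : v * conj v = 1 := by rw [mul_conj_sq, hv]; simp
    have e4 : G t * (1 + c * zet t ^ j) = u * conj (1 + c * zet t ^ j) := by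
      simp only [G]
      rw [add_mul, div_mul_cancel₀ _ hne, hc]
      simp only [map_add, map_mul, map_one, Complex.conj_conj, Complex.conj_ofReal]
      linear_combination (b ^ 2 * u * v * conj v) * e1 + (b ^ 2 * u) * e3 -
        (b * v * conj (zet t ^ j)) * e2
    have e5 := congrArg norm e4
    rw [norm_mul, norm_mul, Complex.norm_conj, hu] at e5
    exact mul_right_cancel₀ (norm_ne_zero_iff.2 hne) e5
  have h3 : ∀ i, Continuous fun t => zet t ^ i * conj (zet t ^ j) := fun i =>
    Continuous.mul (by fun_prop) (Complex.continuous_conj.comp (by fun_prop))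
  have e : ∀ t, (∑ i ∈ range (N + 1), a i * zet t ^ i) * G t = ∑ i ∈ range (N + 1),
      (a i * ((1 - b ^ 2) * u) * (zet t ^ i / (1 + c * zet t ^ j)) +
        a i * (b * v) * (zet t ^ i * conj (zet t ^ j))) := by
    intro t
    rw [sum_mul]
    exact sum_congr rfl fun i _ => by simp only [G]; ring
  have hI : ∫ t, (∑ i ∈ range (N + 1), a i * zet t ^ i) * G t ∂mu =
      ((b * ‖a j‖ - b ^ 2 * ‖a 0‖ + ‖a 0‖ : ℝ) : ℂ) := by
    simp_rw [e]
    have hint : ∀ i, Integrable (fun t =>
        a i * ((1 - b ^ 2) * u) * (zet t ^ i / (1 + c * zet t ^ j)) +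
        a i * (b * v) * (zet t ^ i * conj (zet t ^ j))) mu := fun i =>
      ((integrable_cont (cont_inv c hc1 i j)).const_mul _).add
        ((integrable_cont (h3 i)).const_mul _)
    rw [integral_finsetSum _ fun i _ => hint i]
    have e2 : ∀ i, ∫ t, (a i * ((1 - b ^ 2) * u) * (zet t ^ i / (1 + c * zet t ^ j)) +
        a i * (b * v) * (zet t ^ i * conj (zet t ^ j))) ∂mu =
        (if i = 0 then a i * ((1 - b ^ 2) * u) else 0) + (if i = j then a i * (b * v) else 0) := by
      intro i
      rw [integral_add ((integrable_cont (cont_inv c hc1 i j)).const_mul _)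
        ((integrable_cont (h3 i)).const_mul _), integral_const_mul, integral_const_mul,
        mean_inv c hc1 i j hj, mean_pow]
      split_ifs <;> simp
    simp_rw [e2]
    rw [sum_add_distrib, sum_ite_eq' , sum_ite_eq', if_pos (mem_range.2 (by omega)),
      if_pos (mem_range.2 (by omega))]
    push_cast
    linear_combination (1 - b ^ 2) * hu' + b * hv'
  have h4 := norm_integral_le_integral_norm (μ := mu)
    (fun t => (∑ i ∈ range (N + 1), a i * zet t ^ i) * G t)
  rw [hI, Complex.norm_real] at h4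
  simp_rw [norm_mul, hG, mul_one] at h4
  exact (le_abs_self _).trans h4

lemma submean (N : ℕ) (a : ℕ → ℂ) :
    Real.sqrt ‖a 0‖ ≤ ∫ t, Real.sqrt ‖∑ i ∈ range (N + 1), a i * zet t ^ i‖ ∂mu := by
  have h := sqrt_ineq (∑ i ∈ range (N + 1), Polynomial.C (a i) * Polynomial.X ^ i) 0 le_rfl one_pos
  simp only [Polynomial.eval_finsetSum, Polynomial.eval_mul, Polynomial.eval_C, Polynomial.eval_pow,
    Polynomial.eval_X, Complex.ofReal_zero, zero_mul, sub_zero, norm_one, div_one] at h
  rw [sum_range_succ'] at h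
  simpa using h

lemma int_inner (i : ℕ) (f : Om → ℝ) (hf : Integrable f tor) :
    Integrable (fun z => ∫ w, f (update z i w) ∂mu) tor :=
  ((resample i).integrable_comp_of_integrable hf).integral_prod_left

/-- running maximum -/
noncomputable def rmax (y : ℕ → Om → ℝ) : ℕ → Om → ℝ
  | 0 => y 0
  | k + 1 => fun z => max (rmax y k z) (y (k + 1) z)

lemma cont_rmax {y : ℕ → Om → ℝ} (hy : ∀ k, Continuous (y k)) (k : ℕ) : Continuous (rmax y k) := by
  induction k with
  | zero => exact hy 0
  | succ k ih => exact ih.max (hy (k + 1))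

lemma dep_rmax {y : ℕ → Om → ℝ} (hy : ∀ k, Dep k (y k)) (k : ℕ) : Dep k (rmax y k) := by
  induction k with
  | zero => exact hy 0
  | succ k ih =>
    intro z i w hi
    simp only [rmax]
    rw [ih z i w (by omega), hy (k + 1) z i w hi]

lemma le_rmax (y : ℕ → Om → ℝ) (k : ℕ) (z : Om) : y k z ≤ rmax y k z := by
  cases k with
  | zero => exact le_rfl
  | succ k => exact le_max_right _ _

/-- Doob inequality -/
lemma doob (y : ℕ → Om → ℝ) (hy : ∀ k, Continuous (y k)) (h0 : ∀ k z, 0 ≤ y k z)
    (hd : ∀ k, Dep k (y k)) (hs : ∀ k z, y k z ≤ ∫ w, y (k + 1) (update z k w) ∂mu) (d : ℕ) :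
    ∫ z, rmax y d z ^ 2 ∂tor ≤ 4 * ∫ z, y d z ^ 2 ∂tor := by
  have hM := cont_rmax hy
  have hM0 : ∀ k z, 0 ≤ rmax y k z := fun k z => (h0 k z).trans (le_rmax y k z)
  have key : ∀ k, ∫ z, (2 * rmax y k z ^ 2 - 4 * (rmax y k z * y k z)) ∂tor ≤ 0 := by
    intro k
    induction k with
    | zero =>
      refine integral_nonpos fun z => ?_
      simp only [rmax, Pi.zero_apply]
      nlinarith [sq_nonneg (y 0 z)]
    | succ k ih =>
      have c1 := hM k
      have c2 := hM (k + 1)
      have c3 := hy k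
      have c4 := hy (k + 1)
      have a1 : ∫ z, (2 * rmax y (k + 1) z ^ 2 - 4 * (rmax y (k + 1) z * y (k + 1) z)) ∂tor ≤
          ∫ z, (2 * rmax y k z ^ 2 - 4 * (rmax y k z * y (k + 1) z)) ∂tor := by
        refine integral_mono (int_cont (by fun_prop)) (int_cont (by fun_prop)) fun z => ?_
        simp only [rmax]
        rcases le_total (rmax y k z) (y (k + 1) z) with h | h
        · rw [max_eq_right h]; nlinarith [sq_nonneg (rmax y k z - y (k + 1) z)]
        · rw [max_eq_left h]
      have a2 : ∫ z, rmax y k z * y k z ∂tor ≤ ∫ z, rmax y k z * y (k + 1) z ∂tor := by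
        have i1 : Integrable (fun z => rmax y k z * y (k + 1) z) tor := int_cont (by fun_prop)
        rw [int_resample k _ i1]
        refine integral_mono (int_cont (by fun_prop)) (int_inner k _ i1) fun z => ?_
        simp_rw [dep_rmax hd k z k _ le_rfl]
        rw [integral_const_mul]
        exact mul_le_mul_of_nonneg_left (hs k z) (hM0 k z)
      rw [integral_sub (int_cont (by fun_prop)) (int_cont (by fun_prop)), integral_const_mul,
        integral_const_mul] at ih
      refine a1.trans ?_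
      rw [integral_sub (int_cont (by fun_prop)) (int_cont (by fun_prop)), integral_const_mul,
        integral_const_mul]
      linarith
  have c1 := hM d
  have c3 := hy d
  have a3 : ∫ z, rmax y d z ^ 2 ∂tor ≤
      ∫ z, (4 * y d z ^ 2 + (2 * rmax y d z ^ 2 - 4 * (rmax y d z * y d z))) ∂tor := by
    refine integral_mono (int_cont (by fun_prop)) (int_cont (by fun_prop)) fun z => ?_
    nlinarith [sq_nonneg (rmax y d z - 2 * y d z)]
  rw [integral_add (int_cont (by fun_prop)) (int_cont (by fun_prop)), integral_const_mul] at a3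
  linarith [key d]

lemma tele (r : ℕ → ℝ) (a : ℕ → ℝ) (d : ℕ) :
    ∑ k ∈ range d, r k ^ 2 / 160 * ∑ s ∈ range (k + 1), gam r s k * a s +
      ∑ s ∈ range (d + 1), gam r s d * a s = ∑ s ∈ range (d + 1), a s := by
  induction d with
  | zero => simp [gam]
  | succ d ih =>
    rw [sum_range_succ, sum_range_succ (fun s => gam r s (d + 1) * a s), sum_range_succ a (d + 1),
      ← ih]
    have e : ∑ s ∈ range (d + 1), gam r s (d + 1) * a s =
        (1 - r d ^ 2 / 160) * ∑ s ∈ range (d + 1), gam r s d * a s := by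
      rw [mul_sum]
      refine sum_congr rfl fun s hs => ?_
      unfold gam
      rw [prod_Ico_succ_top (by have := mem_range.1 hs; omega)]
      ring
    have e2 : gam r (d + 1) (d + 1) = 1 := by simp [gam]
    rw [e, e2]
    ring

end Pool.Agent.H700Z.HD
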