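import Pool.Agent.H700Z.HD5

set_option maxHeartbeats 400000
set_option autoImplicit false
open MeasureTheory Metric Finset Function
open scoped ComplexConjugate

namespace Pool.Agent.H700Z.HD

open Pool.Agent.Helper873.OneVar Pool.Agent.Helper873.Product

open Classical in
/-- indices whose exponent vector vanishes beyond `k` and equals `j` at `k` -/
noncomputable def TT (T : Finset ℕ) (ν : ℕ → ℕ → ℕ) (k j : ℕ) : Finset ℕ :=
  T.filter fun n => (∀ i, k + 1 ≤ i → ν n i = 0) ∧ ν n k = j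

lemma mem_TT {T : Finset ℕ} {ν : ℕ → ℕ → ℕ} {k j n : ℕ} :
    n ∈ TT T ν k j ↔ n ∈ T ∧ (∀ i, k + 1 ≤ i → ν n i = 0) ∧ ν n k = j := by
  classical
  unfold TT; simp only [mem_filter]

noncomputable def DP (T : Finset ℕ) (ν : ℕ → ℕ → ℕ) (c : ℕ → ℂ) (k j : ℕ) (z : Om) : ℂ :=
  ∑ n ∈ TT T ν k j, c n * ∏ i ∈ range k, zet (z i) ^ ν n i

variable {T : Finset ℕ} {ν : ℕ → ℕ → ℕ} {c : ℕ → ℂ} {N : ℕ}

lemma cont_mono (μ : ℕ → ℕ) (s : Finset ℕ) : Continuous fun z : Om => ∏ i ∈ s, zet (z i) ^ μ i :=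
  continuous_finsetProd _ fun i _ => (continuous_zet.comp (continuous_apply i)).pow _

lemma cont_DP (k j : ℕ) : Continuous (DP T ν c k j) :=
  continuous_finsetSum _ fun _ _ => continuous_const.mul (cont_mono _ _)

lemma dep_DP (k j : ℕ) : Dep k (DP T ν c k j) := by
  intro z i w hi
  unfold DP
  refine sum_congr rfl fun n _ => ?_
  congr 1
  refine prod_congr rfl fun l hl => ?_
  rw [update_of_ne (by have := mem_range.1 hl; omega)]

lemma DP_succ (hN : ∀ n ∈ T, ∀ i, ν n i ≤ N) (k : ℕ) (z : Om) :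
    DP T ν c (k + 1) 0 z = ∑ j ∈ range (N + 1), DP T ν c k j z * zet (z k) ^ j := by
  classical
  unfold DP
  rw [← sum_fiberwise_of_maps_to (s := TT T ν (k + 1) 0) (t := range (N + 1)) (g := fun n => ν n k)
    (fun n hn => mem_range.2 (Nat.lt_succ_of_le (hN n (mem_TT.1 hn).1 k)))]
  refine sum_congr rfl fun j _ => ?_
  rw [sum_mul]
  refine sum_congr ?_ fun n hn => ?_
  · ext n
    simp only [mem_filter, mem_TT]
    constructor
    · rintro ⟨⟨h1, h2, h3⟩, h4⟩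
      refine ⟨h1, fun i hi => ?_, h4⟩
      rcases hi.eq_or_lt with rfl | h5
      · exact h3
      · exact h2 i h5
    · rintro ⟨h1, h2, h3⟩
      exact ⟨⟨h1, fun i hi => h2 i (by omega), h2 _ le_rfl⟩, h3⟩
  · rw [prod_range_succ, (mem_TT.1 hn).2.2]; ring

lemma DP_update (hN : ∀ n ∈ T, ∀ i, ν n i ≤ N) (k : ℕ) (z : Om) (w : UnitAddCircle) :
    DP T ν c (k + 1) 0 (update z k w) = ∑ j ∈ range (N + 1), DP T ν c k j z * zet w ^ j := by
  rw [DP_succ hN, update_self]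
  exact sum_congr rfl fun j _ => by rw [dep_DP k j z k w le_rfl]

/-- the dual function attached to the coefficients in `TT T ν k j` -/
lemma dual (r : ℕ → ℝ) (h0 : ∀ i, 0 < r i) (h1 : ∀ i, r i ^ 2 ≤ 1 / 2)
    (hN : ∀ n ∈ T, ∀ i, ν n i ≤ N) (hinj : ∀ n ∈ T, ∀ m ∈ T, ν n = ν m → n = m) (k j : ℕ) :
    ∃ (G : Om → ℂ) (B : Om → ℝ), Measurable G ∧ Measurable B ∧ (∀ z, ‖G z‖ ^ 2 ≤ B z) ∧
      (∀ z, B z ≤ 2) ∧
      (∑ n ∈ TT T ν k j, ‖c n‖ * ∏ i ∈ range k, mm (r i) * r i ^ ν n i ≤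
        ∫ z, ‖DP T ν c k j z‖ * ‖G z‖ ∂tor) ∧
      ∀ s ≤ k, ∀ v : Om → ℝ, Continuous v → (∀ z, 0 ≤ v z) → Dep s v →
        ∫ z, v z * B z ∂tor ≤ 4 * gam r s k * ∫ z, v z ∂tor := by
  classical
  choose u hu hu' using exists_phase
  let η : (ℕ → ℕ) → ℂ := fun μ =>
    if h : ∃ n ∈ TT T ν k j, restr 0 k (ν n) = μ then u (c h.choose) else 0
  have hη : ∀ μ, ‖η μ‖ ≤ 1 := by
    intro μ
    simp only [η]
    split_ifs
    · exact (hu _).le
    · simp
  have hη' : ∀ n ∈ TT T ν k j, η (restr 0 k (ν n)) = u (c n) := by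
    intro n hn
    have h : ∃ m ∈ TT T ν k j, restr 0 k (ν m) = restr 0 k (ν n) := ⟨n, hn, rfl⟩
    simp only [η]
    rw [dif_pos h]
    obtain ⟨h2, h3⟩ := h.choose_spec
    have : h.choose = n := by
      refine hinj _ (mem_TT.1 h2).1 _ (mem_TT.1 hn).1 (funext fun i => ?_)
      rcases lt_trichotomy i k with h4 | rfl | h4
      · have := congrFun h3 i
        simpa [restr, h4] using this
      · rw [(mem_TT.1 h2).2.2, (mem_TT.1 hn).2.2]
      · rw [(mem_TT.1 h2).2.1 i h4, (mem_TT.1 hn).2.1 i h4]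
    rw [this]
  obtain ⟨G, B, P, h⟩ := exists_inv r h0 h1 N k k 0 (zero_add k) η hη
  refine ⟨G, B, h.mG, h.mB, fun z => (h.adm z).1.1, h.ble, ?_,
    fun s hs => h.bar s (Nat.zero_le s) hs⟩
  have e : ∫ z, DP T ν c k j z * G z ∂tor =
      ((∑ n ∈ TT T ν k j, ‖c n‖ * ∏ i ∈ range k, mm (r i) * r i ^ ν n i : ℝ) : ℂ) := by
    unfold DP
    simp_rw [sum_mul, mul_assoc]
    rw [integral_finsetSum _ fun n _ => (int_mulC (cont_mono _ _) h.mG _ h.gle).const_mul _,
      Complex.ofReal_sum]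
    refine sum_congr rfl fun n hn => ?_
    have := h.four (ν n) (hN n (mem_TT.1 hn).1)
    rw [← range_eq_Ico] at this
    rw [integral_const_mul, this, hη' n hn, Complex.ofReal_mul, ← hu' (c n)]
    ring
  have h4 := norm_integral_le_integral_norm (μ := tor) (fun z => DP T ν c k j z * G z)
  rw [e, Complex.norm_real] at h4
  simp_rw [norm_mul] at h4
  exact (le_abs_self _).trans h4

theorem main_abs (r : ℕ → ℝ) (h0 : ∀ i, 0 < r i) (h1 : ∀ i, r i ^ 2 ≤ 1 / 2) (hN1 : 1 ≤ N)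
    (hN : ∀ n ∈ T, ∀ i, ν n i ≤ N) (hinj : ∀ n ∈ T, ∀ m ∈ T, ν n = ν m → n = m) (d : ℕ) :
    ∑ k ∈ range d, ∑ j ∈ Icc 1 N, r k ^ j *
      ∑ n ∈ TT T ν k j, ‖c n‖ * ∏ i ∈ range k, mm (r i) * r i ^ ν n i ≤
      4500 * ∫ z, ‖DP T ν c d 0 z‖ ∂tor := by
  let y : ℕ → Om → ℝ := fun k z => Real.sqrt ‖DP T ν c k 0 z‖
  have hy : ∀ k, Continuous (y k) := fun k => (cont_DP k 0).norm.sqrt
  have hy0 : ∀ k z, 0 ≤ y k z := fun k z => Real.sqrt_nonneg _
  have hyd : ∀ k, Dep k (y k) := fun k z i w hi => by simp only [y]; rw [dep_DP k 0 z i w hi]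
  have hy2 : ∀ k z, y k z ^ 2 = ‖DP T ν c k 0 z‖ := fun k z => Real.sq_sqrt (norm_nonneg _)
  have hs : ∀ k z, y k z ≤ ∫ w, y (k + 1) (update z k w) ∂mu := by
    intro k z
    simp only [y]
    simp_rw [DP_update hN]
    exact submean N fun j => DP T ν c k j z
  have hdoob := doob y hy hy0 hyd hs d
  simp_rw [hy2] at hdoob
  have hM := cont_rmax hy
  have hM0 : ∀ k z, 0 ≤ rmax y k z := fun k z => (hy0 k z).trans (le_rmax y k z)
  let v : ℕ → Om → ℝ := fun s z =>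
    match s with
    | 0 => rmax y 0 z ^ 2
    | s + 1 => rmax y (s + 1) z ^ 2 - rmax y s z ^ 2
  have hvc : ∀ s, Continuous (v s) := by
    intro s
    cases s with
    | zero => exact (hM 0).pow 2
    | succ s => exact ((hM (s + 1)).pow 2).sub ((hM s).pow 2)
  have hv0 : ∀ s z, 0 ≤ v s z := by
    intro s z
    cases s with
    | zero => exact sq_nonneg _
    | succ s => exact sub_nonneg.2 (pow_le_pow_left₀ (hM0 s z) (le_max_left _ _) 2)
  have hvd : ∀ s, Dep s (v s) := by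
    intro s z i w hi
    cases s with
    | zero => simp only [v]; rw [dep_rmax hyd 0 z i w hi]
    | succ s => simp only [v]; rw [dep_rmax hyd (s + 1) z i w hi, dep_rmax hyd s z i w (by omega)]
  have hvs : ∀ k z, ∑ s ∈ range (k + 1), v s z = rmax y k z ^ 2 := by
    intro k z
    induction k with
    | zero => simp [v]
    | succ k ih => rw [sum_range_succ, ih]; simp only [v]; ring
  let a : ℕ → ℝ := fun s => ∫ z, v s z ∂tor
  have ha0 : ∀ s, 0 ≤ a s := fun s => integral_nonneg (hv0 s)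
  let E : ℕ → ℝ := fun k => ∫ z, ‖DP T ν c k 0 z‖ ∂tor
  let R : ℕ → ℝ := fun k => E (k + 1) - E k + r k ^ 2 * ∑ s ∈ range (k + 1), gam r s k * a s
  have hr1 : ∀ k, r k < 1 := fun k => by nlinarith [h1 k, h0 k]
  have key : ∀ k j, 1 ≤ j → j ≤ N → r k *
      ∑ n ∈ TT T ν k j, ‖c n‖ * ∏ i ∈ range k, mm (r i) * r i ^ ν n i ≤ 2 * R k := by
    intro k j hj hjN
    obtain ⟨G, B, mG, mB, hGB, hB, hS, hbar⟩ := dual (c := c) r h0 h1 hN hinj k j
    have hB0 : ∀ z, 0 ≤ B z := fun z => (sq_nonneg _).trans (hGB z)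
    have hG2 : ∀ z, ‖G z‖ ≤ 2 := fun z => by nlinarith [hGB z, hB z, norm_nonneg (G z)]
    have i1 : Integrable (fun z => ‖DP T ν c k j z‖ * ‖G z‖) tor :=
      int_mulR (cont_DP k j).norm mG.norm _ (fun z => norm_nonneg _) hG2
    have i2 : Integrable (fun z => ‖DP T ν c (k + 1) 0 z‖) tor := int_cont (cont_DP _ _).norm
    have i3 : Integrable (fun z => ‖DP T ν c k 0 z‖) tor := int_cont (cont_DP _ _).norm
    have i4 : ∀ s, Integrable (fun z => v s z * B z) tor := fun s => int_mulR (hvc s) mB _ hB0 hB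
    have i5 : Integrable (fun z => ∑ s ∈ range (k + 1), v s z * B z) tor :=
      integrable_finsetSum _ fun s _ => i4 s
    have pt : ∀ z, r k / 2 * (‖DP T ν c k j z‖ * ‖G z‖) ≤
        (∫ w, ‖DP T ν c (k + 1) 0 (update z k w)‖ ∂mu) - ‖DP T ν c k 0 z‖ +
          r k ^ 2 / 4 * ∑ s ∈ range (k + 1), v s z * B z := by
      intro z
      have hb0 : 0 ≤ r k * ‖G z‖ / 2 := by have := h0 k; positivity
      have hb1 : r k * ‖G z‖ / 2 < 1 := by nlinarith [hG2 z, hr1 k, h0 k, norm_nonneg (G z)]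
      have h2 := cv N (fun j => DP T ν c k j z) j hj hjN _ hb0 hb1
      simp_rw [DP_update hN]
      rw [← sum_mul, hvs]
      have h3 : ‖DP T ν c k 0 z‖ ≤ rmax y k z ^ 2 := by
        rw [← hy2]; exact pow_le_pow_left₀ (hy0 k z) (le_rmax y k z) 2
      have h4 : ‖G z‖ ^ 2 * ‖DP T ν c k 0 z‖ ≤ rmax y k z ^ 2 * B z := by
        rw [mul_comm]
        exact mul_le_mul h3 (hGB z) (sq_nonneg _) (sq_nonneg _)
      have h5 := mul_le_mul_of_nonneg_left h4 (show 0 ≤ r k ^ 2 / 4 by positivity)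
      nlinarith
    have h6 := integral_mono (i1.const_mul (r k / 2))
      (((int_inner k _ i2).sub i3).add (i5.const_mul (r k ^ 2 / 4))) pt
    rw [integral_const_mul] at h6
    have h7 : ∫ z, (((∫ w, ‖DP T ν c (k + 1) 0 (update z k w)‖ ∂mu) - ‖DP T ν c k 0 z‖) +
        r k ^ 2 / 4 * ∑ s ∈ range (k + 1), v s z * B z) ∂tor =
        E (k + 1) - E k + r k ^ 2 / 4 * ∑ s ∈ range (k + 1), ∫ z, v s z * B z ∂tor := by
      have i6 : Integrable (fun z => (∫ w, ‖DP T ν c (k + 1) 0 (update z k w)‖ ∂mu) -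
          ‖DP T ν c k 0 z‖) tor := (int_inner k _ i2).sub i3
      rw [integral_add i6 (i5.const_mul _),
        integral_sub (int_inner k _ i2) i3, integral_const_mul,
        integral_finsetSum _ fun s _ => i4 s, ← int_resample k _ i2]
    have h8 : ∑ s ∈ range (k + 1), ∫ z, v s z * B z ∂tor ≤
        4 * ∑ s ∈ range (k + 1), gam r s k * a s := by
      rw [mul_sum]
      refine sum_le_sum fun s hs => ?_
      rw [← mul_assoc]
      exact hbar s (by have := mem_range.1 hs; omega) _ (hvc s) (hv0 s) (hvd s)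
    have h9 := h6.trans (le_of_eq h7)
    have h10 := mul_le_mul_of_nonneg_left hS (h0 k).le
    have h11 := mul_le_mul_of_nonneg_left h8 (show 0 ≤ r k ^ 2 / 4 by positivity)
    simp only [R]
    linarith
  have hSnn : ∀ k j, 0 ≤ ∑ n ∈ TT T ν k j, ‖c n‖ * ∏ i ∈ range k, mm (r i) * r i ^ ν n i :=
    fun k j => sum_nonneg fun n _ => mul_nonneg (norm_nonneg _) (prod_nonneg fun i _ =>
      mul_nonneg (mm_pos _).le (pow_nonneg (h0 i).le _))
  have hR0 : ∀ k, 0 ≤ R k := fun k => by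
    have := key k 1 le_rfl hN1
    have := mul_nonneg (h0 k).le (hSnn k 1)
    linarith
  have key2 : ∀ k, ∑ j ∈ Icc 1 N, r k ^ j *
      ∑ n ∈ TT T ν k j, ‖c n‖ * ∏ i ∈ range k, mm (r i) * r i ^ ν n i ≤ 7 * R k := by
    intro k
    have hg : ∑ j ∈ Icc 1 N, r k ^ (j - 1) ≤ 7 / 2 := by
      have e1 : ∑ j ∈ Icc 1 N, r k ^ (j - 1) = ∑ j ∈ range N, r k ^ j := by
        rw [← Finset.Ico_add_one_right_eq_Icc, sum_Ico_eq_sum_range]
        simp
      have e2 := geom_sum_mul_neg (r k) N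
      have e3 : r k ≤ 5 / 7 := by nlinarith [h1 k, h0 k]
      have e4 : 0 ≤ ∑ j ∈ range N, r k ^ j := sum_nonneg fun j _ => pow_nonneg (h0 k).le j
      have e5 : 0 ≤ r k ^ N := pow_nonneg (h0 k).le N
      rw [e1]
      nlinarith
    calc _ ≤ ∑ j ∈ Icc 1 N, r k ^ (j - 1) * (2 * R k) := by
          refine sum_le_sum fun j hj => ?_
          obtain ⟨hj1, hj2⟩ := mem_Icc.1 hj
          have e : r k ^ j = r k ^ (j - 1) * r k := by
            rw [← pow_succ]; congr 1; omega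
          rw [e, mul_assoc]
          exact mul_le_mul_of_nonneg_left (key k j hj1 hj2) (pow_nonneg (h0 k).le _)
      _ ≤ 7 * R k := by rw [← sum_mul]; nlinarith [hR0 k]
  have hsumR : ∑ k ∈ range d, R k ≤ E d + 160 * (4 * E d) := by
    simp only [R]
    rw [sum_add_distrib, sum_range_sub E d]
    have t1 := tele r a d
    have t2 : ∑ s ∈ range (d + 1), a s = ∫ z, rmax y d z ^ 2 ∂tor := by
      simp only [a]
      rw [← integral_finsetSum _ fun s _ => int_cont (hvc s)]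
      simp_rw [hvs]
    have t3 : 0 ≤ ∑ s ∈ range (d + 1), gam r s d * a s :=
      sum_nonneg fun s _ => mul_nonneg (gam_nonneg h1 _ _) (ha0 s)
    have t4 : ∑ k ∈ range d, r k ^ 2 * ∑ s ∈ range (k + 1), gam r s k * a s =
        160 * ∑ k ∈ range d, r k ^ 2 / 160 * ∑ s ∈ range (k + 1), gam r s k * a s := by
      rw [mul_sum]; exact sum_congr rfl fun _ _ => by ring
    have t5 : 0 ≤ E 0 := integral_nonneg fun z => norm_nonneg _
    have t6 : ∫ z, rmax y d z ^ 2 ∂tor ≤ 4 * E d := hdoob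
    linarith
  have hE : 0 ≤ E d := integral_nonneg fun z => norm_nonneg _
  calc _ ≤ ∑ k ∈ range d, 7 * R k := sum_le_sum fun k _ => key2 k
    _ = 7 * ∑ k ∈ range d, R k := by rw [mul_sum]
    _ ≤ 4500 * E d := by linarith

end Pool.Agent.H700Z.HD
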