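import Pool.Agent.H700Z.HD6
import Pool.Agent.Helper873.Mean
import Pool.Agent.Helper873.NT

set_option maxHeartbeats 400000
set_option autoImplicit false
open MeasureTheory Metric Finset Function Filter
open scoped ComplexConjugate

namespace Pool.Agent.H700Z.HD

open Pool.Agent.Helper873.OneVar Pool.Agent.Helper873.Product Pool.Agent.Helper873.Zeta
open Pool.Agent.Helper873.NT Pool.Agent.Helper873.Monomial Pool.Agent.Helper873.Embed
open Pool.Agent.Helper873.Alg

noncomputable def rr (i : ℕ) : ℝ := 1 / Real.sqrt (Nat.nth Nat.Prime i : ℝ)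

lemma rr_pos (i : ℕ) : 0 < rr i := by
  unfold rr
  have := two_le_p i
  exact one_div_pos.2 (Real.sqrt_pos.2 (by linarith))

lemma rr_sq (i : ℕ) : rr i ^ 2 = 1 / (Nat.nth Nat.Prime i : ℝ) := by
  unfold rr
  rw [div_pow, one_pow, Real.sq_sqrt (Nat.cast_nonneg _)]

lemma rr_sq_le (i : ℕ) : rr i ^ 2 ≤ 1 / 2 := by
  rw [rr_sq]; exact one_div_le_one_div_of_le (by norm_num) (two_le_p i)

lemma rr_cube (i : ℕ) : rr i ^ 3 = pw (1 / 2) (Nat.nth Nat.Prime i) := by
  have h := two_le_p i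
  rw [pw_apply, rr, Real.sqrt_eq_rpow, one_div, ← Real.rpow_neg (by linarith), ← Real.rpow_natCast,
    ← Real.rpow_mul (by linarith)]
  norm_num

lemma mm_ge (r : ℝ) (h0 : 0 < r) (h1 : r ^ 2 ≤ 1 / 2) :
    Real.exp (-(r ^ 2 + 16 * r ^ 3)) ≤ mm r := by
  have e3 : r ≤ 5 / 7 := by nlinarith
  have hx : (r / (1 - r)) ^ 2 ≤ r ^ 2 + 16 * r ^ 3 := by
    rw [div_pow, div_le_iff₀ (by nlinarith)]
    have : 1 ≤ (1 + 16 * r) * (1 - r) ^ 2 := by nlinarith [mul_nonneg h0.le (sub_nonneg.2 e3)]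
    nlinarith [mul_le_mul_of_nonneg_left this (sq_nonneg r)]
  unfold mm
  set x := (r / (1 - r)) ^ 2 with hxd
  have hx0 : 0 ≤ x := sq_nonneg _
  have h2 : Real.sqrt (1 + 2 * x) ≤ Real.exp x := by
    rw [Real.sqrt_le_left (Real.exp_pos x).le, ← Real.exp_nat_mul]
    have := Real.add_one_le_exp ((2 : ℕ) * x)
    push_cast at this ⊢
    linarith
  calc Real.exp (-(r ^ 2 + 16 * r ^ 3)) ≤ Real.exp (-x) := Real.exp_le_exp.2 (by linarith)
    _ = 1 / Real.exp x := by rw [Real.exp_neg, one_div]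
    _ ≤ _ := one_div_le_one_div_of_le (Real.sqrt_pos.2 (by linarith)) h2

lemma mertens (k : ℕ) : Real.exp (∑ i ∈ range k, 1 / (Nat.nth Nat.Prime i : ℝ)) ≤
    Real.exp 12 * (1 + Real.log (Nat.nth Nat.Prime k)) := by
  have hlog : 0 ≤ Real.log (Nat.nth Nat.Prime k) := Real.log_natCast_nonneg _
  rcases Nat.eq_zero_or_pos k with rfl | hk
  · simp only [range_zero, sum_empty, Real.exp_zero]
    have : 1 ≤ Real.exp 12 := Real.one_le_exp (by norm_num)
    nlinarith
  set P := Nat.nth Nat.Prime k with hP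
  have hP3 : (3 : ℝ) ≤ P := by
    have := Nat.add_two_le_nth_prime k
    exact_mod_cast (show 3 ≤ P by omega)
  have hl1 : 1 ≤ Real.log P := by
    rw [Real.le_log_iff_exp_le (by linarith)]
    linarith [Real.exp_one_lt_d9]
  set s : ℝ := 1 / Real.log P with hs
  have hs0 : 0 < s := by positivity
  have hs1 : s ≤ 1 := by rw [hs, div_le_one (by linarith)]; exact hl1
  have e1 := sum_primes_eq (fun p => 1 / (p : ℝ)) P
  rw [hP, Nat.primeCounting'_nth_eq, ← hP] at e1
  rw [e1]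
  have h2 : ∑ p ∈ Nat.primesBelow P, 1 / (p : ℝ) ≤
      ∑ p ∈ Nat.primesBelow P, (p : ℝ) ^ (-(1 + s)) + 12 := by
    have h3 := sum_log P s hs0 hs1
    have h4 : ∑ p ∈ Nat.primesBelow P, 1 / (p : ℝ) ≤ ∑ p ∈ Nat.primesBelow P,
        ((p : ℝ) ^ (-(1 + s)) + 3 * s * (Real.log p * (p : ℝ) ^ (-(1 + s)))) := by
      refine sum_le_sum fun p hp => ?_
      obtain ⟨hpP, hpp⟩ := Nat.mem_primesBelow.1 hp
      have hp0 : (0 : ℝ) < p := by exact_mod_cast hpp.pos
      have hu0 : 0 ≤ s * Real.log p := mul_nonneg hs0.le (Real.log_natCast_nonneg _)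
      have hu1 : s * Real.log p ≤ 1 := by
        rw [hs, one_div_mul_eq_div, div_le_one (by linarith)]
        exact Real.log_le_log hp0 (by exact_mod_cast hpP.le)
      have e2 : 1 / (p : ℝ) = (p : ℝ) ^ (-(1 + s)) * Real.exp (s * Real.log p) := by
        rw [mul_comm s, ← Real.rpow_def_of_pos hp0, ← Real.rpow_add hp0, one_div,
          ← Real.rpow_neg_one]
        congr 1; ring
      have e3 : Real.exp (s * Real.log p) ≤ 1 + 3 * (s * Real.log p) := by
        have a1 := Real.add_one_le_exp (-(s * Real.log p))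
        have a2 : Real.exp (s * Real.log p) ≤ 3 :=
          (Real.exp_le_exp.2 hu1).trans (by linarith [Real.exp_one_lt_d9])
        have a3 : Real.exp (-(s * Real.log p)) * Real.exp (s * Real.log p) = 1 := by
          rw [← Real.exp_add]; simp
        nlinarith [Real.exp_pos (s * Real.log p)]
      have e4 : 0 ≤ (p : ℝ) ^ (-(1 + s)) := Real.rpow_nonneg hp0.le _
      rw [e2]
      nlinarith [mul_le_mul_of_nonneg_left e3 e4]
    rw [sum_add_distrib, ← mul_sum] at h4
    have h5 : 3 * s * ∑ p ∈ Nat.primesBelow P, Real.log p * (p : ℝ) ^ (-(1 + s)) ≤ 12 := by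
      calc _ ≤ 3 * s * (4 / s) := mul_le_mul_of_nonneg_left h3 (by positivity)
        _ = 12 := by field_simp; norm_num
    linarith
  have h6 : Real.exp (∑ p ∈ Nat.primesBelow P, (p : ℝ) ^ (-(1 + s))) ≤ Z P s := by
    rw [Real.exp_sum, Z]
    refine prod_le_prod (fun _ _ => (Real.exp_pos _).le) fun p hp => ?_
    obtain ⟨-, hpp⟩ := Nat.mem_primesBelow.1 hp
    have hp1 : (1 : ℝ) < p := by exact_mod_cast hpp.one_lt
    have a1 : (p : ℝ) ^ (-(1 + s)) < 1 := Real.rpow_lt_one_of_one_lt_of_neg hp1 (by linarith)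
    have a2 := Real.add_one_le_exp (-((p : ℝ) ^ (-(1 + s))))
    rw [← one_div, le_div_iff₀ (by linarith)]
    have a3 : Real.exp ((p : ℝ) ^ (-(1 + s))) * Real.exp (-((p : ℝ) ^ (-(1 + s)))) = 1 := by
      rw [← Real.exp_add]; simp
    nlinarith [Real.exp_pos ((p : ℝ) ^ (-(1 + s)))]
  have h7 := Z_upper P s hs0
  rw [hs, one_div_one_div, ← hs] at h7
  calc _ ≤ Real.exp (∑ p ∈ Nat.primesBelow P, (p : ℝ) ^ (-(1 + s)) + 12) := Real.exp_le_exp.2 h2
    _ = Real.exp 12 * Real.exp (∑ p ∈ Nat.primesBelow P, (p : ℝ) ^ (-(1 + s))) := by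
      rw [Real.exp_add, mul_comm]
    _ ≤ _ := mul_le_mul_of_nonneg_left (h6.trans h7) (Real.exp_pos _).le

lemma prod_mm (k : ℕ) : Real.exp (-60) / (1 + Real.log (Nat.nth Nat.Prime k)) ≤
    ∏ i ∈ range k, mm (rr i) := by
  have hlog : 0 ≤ Real.log (Nat.nth Nat.Prime k) := Real.log_natCast_nonneg _
  have h1 : ∑ i ∈ range k, rr i ^ 3 ≤ 3 := by
    simp_rw [rr_cube]
    have a1 := tsum_upper (1 / 2) (by norm_num)
    have a2 : ∑ i ∈ range k, pw (1 / 2) (Nat.nth Nat.Prime i) ≤ ∑' n, pw (1 / 2) n := by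
      rw [← sum_image (s := range k) (g := Nat.nth Nat.Prime) (f := fun n => pw (1 / 2) n)
        (fun _ _ _ _ h => Nat.nth_injective Nat.infinite_setOfPred_prime h)]
      exact (summable_pw _ (by norm_num)).sum_le_tsum _ fun n _ => pw_nonneg _ n
    linarith
  have h2 := mertens k
  simp_rw [← rr_sq] at h2
  calc _ ≤ Real.exp (-(∑ i ∈ range k, rr i ^ 2 + 48)) := by
        rw [div_le_iff₀ (by linarith)]
        have a1 : Real.exp (-60) * Real.exp (∑ i ∈ range k, rr i ^ 2 + 48) ≤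
            1 + Real.log (Nat.nth Nat.Prime k) := by
          rw [Real.exp_add, mul_left_comm, ← Real.exp_add]
          have a2 : Real.exp 12 * Real.exp (-60 + 48) = 1 := by rw [← Real.exp_add]; norm_num
          have := mul_le_mul_of_nonneg_right h2 (Real.exp_pos (-60 + 48)).le
          nlinarith
        have a3 : Real.exp (-(∑ i ∈ range k, rr i ^ 2 + 48)) *
            Real.exp (∑ i ∈ range k, rr i ^ 2 + 48) = 1 := by rw [← Real.exp_add]; simp
        have a4 := mul_le_mul_of_nonneg_left a1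
          (Real.exp_pos (-(∑ i ∈ range k, rr i ^ 2 + 48))).le
        rw [mul_left_comm, a3, mul_one] at a4
        exact a4
    _ ≤ Real.exp (∑ i ∈ range k, -(rr i ^ 2 + 16 * rr i ^ 3)) := by
        refine Real.exp_le_exp.2 ?_
        rw [sum_neg_distrib, sum_add_distrib, ← mul_sum]
        linarith
    _ ≤ _ := by
        rw [Real.exp_sum]
        exact prod_le_prod (fun _ _ => (Real.exp_pos _).le)
          fun i _ => mm_ge _ (rr_pos i) (rr_sq_le i)

lemma ex_le (n N : ℕ) (hn : n ≠ 0) (h : n ≤ N) (i : ℕ) : ex n i ≤ N :=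
  ((Nat.factorization_lt _ hn).le).trans h

lemma top (n : ℕ) (hn : 2 ≤ n) : ∃ k < n, 1 ≤ ex n k ∧ (∀ i, k + 1 ≤ i → ex n i = 0) ∧
    Real.exp (-60) / 3 * (1 / (Real.sqrt n * Real.log n)) ≤
      rr k ^ ex n k * ∏ i ∈ range k, mm (rr i) * rr i ^ ex n i := by
  classical
  have hne : ((range n).filter fun i => ex n i ≠ 0).Nonempty := by
    by_contra h
    rw [not_nonempty_iff_eq_empty, filter_eq_empty_iff] at h
    have h2 := prod_ex n n (by omega) le_rfl
    rw [prod_eq_one (fun i hi => by rw [not_not.1 (h hi), pow_zero])] at h2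
    omega
  set k := max' _ hne with hk
  obtain ⟨hk1, hk2⟩ := mem_filter.1 (max'_mem _ hne)
  rw [← hk] at hk1 hk2
  have hk3 : ∀ i, k + 1 ≤ i → ex n i = 0 := by
    intro i hi
    by_contra h
    rcases lt_or_ge i n with h4 | h4
    · have := le_max' _ i (mem_filter.2 ⟨mem_range.2 h4, h⟩ :
        i ∈ (range n).filter fun i => ex n i ≠ 0)
      omega
    · exact h (ex_eq_zero n i h4)
  refine ⟨k, mem_range.1 hk1, by omega, hk3, ?_⟩
  have hn0 : (0 : ℝ) < n := by exact_mod_cast (show 0 < n by omega)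
  have e1 : ∏ i ∈ range (k + 1), (Nat.nth Nat.Prime i) ^ ex n i = n := by
    refine Eq.trans ?_ (prod_ex n n (by omega) le_rfl)
    refine prod_subset (range_subset_range.2 (by have := mem_range.1 hk1; omega)) fun i _ hi => ?_
    rw [hk3 i (by have := mem_range.not.1 hi; omega), pow_zero]
  have e2 : ∏ i ∈ range (k + 1), rr i ^ ex n i = 1 / Real.sqrt n := by
    have a1 : (∏ i ∈ range (k + 1), rr i ^ ex n i) ^ 2 = (1 / Real.sqrt n) ^ 2 := by
      rw [div_pow, one_pow, Real.sq_sqrt hn0.le, ← prod_pow]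
      conv_rhs => rw [← e1]
      push_cast
      rw [one_div, ← prod_inv_distrib]
      refine prod_congr rfl fun i _ => ?_
      rw [← pow_mul, mul_comm, pow_mul, rr_sq, one_div, inv_pow]
    exact (pow_left_inj₀ (prod_nonneg fun i _ => pow_nonneg (rr_pos i).le _) (by positivity)
      two_ne_zero).1 a1
  have e3 : Real.log (Nat.nth Nat.Prime k) ≤ Real.log n := by
    refine Real.log_le_log (by linarith [two_le_p k]) ?_
    have : Nat.nth Nat.Prime k ∣ n := Nat.dvd_of_factorization_pos hk2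
    exact_mod_cast Nat.le_of_dvd (by omega) this
  have e4 : 1 / 2 ≤ Real.log n := by
    have : Real.log 2 ≤ Real.log n := Real.log_le_log (by norm_num) (by exact_mod_cast hn)
    linarith [Real.log_two_gt_d9]
  have e5 := prod_mm k
  have hlog : 0 ≤ Real.log (Nat.nth Nat.Prime k) := Real.log_natCast_nonneg _
  have e6 : Real.exp (-60) / 3 * (1 / Real.log n) ≤ ∏ i ∈ range k, mm (rr i) := by
    refine le_trans ?_ e5
    rw [div_mul_div_comm, mul_one]
    exact div_le_div_of_nonneg_left (Real.exp_pos _).le (by linarith) (by linarith)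
  rw [prod_mul_distrib, mul_left_comm, mul_comm (rr k ^ _), ← prod_range_succ (fun i => rr i ^ ex n i),
    e2]
  calc _ = Real.exp (-60) / 3 * (1 / Real.log n) * (1 / Real.sqrt n) := by
        field_simp
    _ ≤ _ := mul_le_mul_of_nonneg_right e6 (by positivity)

theorem hardy (N : ℕ) (hN : 1 ≤ N) (a : ℕ → ℂ) :
    Real.exp (-60) / 3 * ∑ n ∈ Icc 2 N, ‖a n‖ / (Real.sqrt n * Real.log n) ≤
      4500 * ∫ z, ‖∑ n ∈ Icc 1 N, a n * mon n (fun j => zet (z j))‖ ∂tor := by
  classical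
  have h := main_abs (T := Icc 1 N) (ν := ex) (c := a) rr rr_pos rr_sq_le hN
    (fun n hn i => ex_le n N (by have := (mem_Icc.1 hn).1; omega) (mem_Icc.1 hn).2 i)
    (fun n hn m hm hnm => ex_injective n m (by have := (mem_Icc.1 hn).1; omega)
      (by have := (mem_Icc.1 hm).1; omega) (congrFun hnm)) N
  have e : ∀ z, DP (Icc 1 N) ex a N 0 z = ∑ n ∈ Icc 1 N, a n * mon n (fun j => zet (z j)) := by
    intro z
    unfold DP
    refine sum_congr ?_ fun n hn => ?_
    · ext n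
      rw [mem_TT]
      refine ⟨fun h => h.1, fun h => ⟨h, fun i hi => ex_eq_zero n i ?_, ex_eq_zero n N ?_⟩⟩ <;>
        have := (mem_Icc.1 h).2 <;> omega
    · rw [mon_eq n N (mem_Icc.1 hn).2]
  simp_rw [e] at h
  refine le_trans ?_ h
  let W : ℕ → ℕ → ℕ → ℝ := fun n k j => if n ∈ TT (Icc 1 N) ex k j then
    rr k ^ j * (‖a n‖ * ∏ i ∈ range k, mm (rr i) * rr i ^ ex n i) else 0
  have hW : ∀ n k j, 0 ≤ W n k j := by
    intro n k j
    simp only [W]
    split_ifs
    · exact mul_nonneg (pow_nonneg (rr_pos k).le _) (mul_nonneg (norm_nonneg _)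
        (prod_nonneg fun i _ => mul_nonneg (mm_pos _).le (pow_nonneg (rr_pos i).le _)))
    · exact le_rfl
  have e2 : ∀ k j, rr k ^ j * ∑ n ∈ TT (Icc 1 N) ex k j,
      ‖a n‖ * ∏ i ∈ range k, mm (rr i) * rr i ^ ex n i = ∑ n ∈ Icc 1 N, W n k j := by
    intro k j
    simp only [W]
    rw [← sum_filter, mul_sum]
    refine sum_congr ?_ fun _ _ => rfl
    ext n
    rw [mem_filter]
    exact ⟨fun h => ⟨(mem_TT.1 h).1, h⟩, fun h => h.2⟩
  simp_rw [e2]
  have e3 : ∑ k ∈ range N, ∑ j ∈ Icc 1 N, ∑ n ∈ Icc 1 N, W n k j =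
      ∑ n ∈ Icc 1 N, ∑ k ∈ range N, ∑ j ∈ Icc 1 N, W n k j := by
    rw [sum_comm (s := Icc 1 N) (t := range N)]
    exact sum_congr rfl fun k _ => sum_comm
  rw [e3, mul_sum]
  refine le_trans (sum_le_sum fun n hn => ?_) (sum_le_sum_of_subset_of_nonneg
    (Icc_subset_Icc_left (by norm_num : 1 ≤ 2))
    fun n _ _ => sum_nonneg fun k _ => sum_nonneg fun j _ => hW n k j)
  obtain ⟨hn1, hn2⟩ := mem_Icc.1 hn
  obtain ⟨k, hk1, hk2, hk3, hk4⟩ := top n hn1
  refine le_trans ?_ (single_le_sum (f := fun k => ∑ j ∈ Icc 1 N, W n k j)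
    (fun k _ => sum_nonneg fun j _ => hW n k j) (mem_range.2 (show k < N by omega)))
  refine le_trans ?_ (single_le_sum (f := fun j => W n k j) (fun j _ => hW n k j)
    (mem_Icc.2 ⟨hk2, ex_le n N (by omega) hn2 k⟩))
  simp only [W]
  rw [if_pos (mem_TT.2 ⟨mem_Icc.2 ⟨by omega, hn2⟩, hk3, rfl⟩)]
  have := mul_le_mul_of_nonneg_left hk4 (norm_nonneg (a n))
  calc _ = ‖a n‖ * (Real.exp (-60) / 3 * (1 / (Real.sqrt n * Real.log n))) := by ring
    _ ≤ _ := this
    _ = _ := by ring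

end Pool.Agent.H700Z.HD
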