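import Pool.Agent.H700Z.HD7

set_option maxHeartbeats 400000
set_option autoImplicit false
open MeasureTheory Metric Finset Function Filter
open scoped ComplexConjugate

namespace Pool.Agent.H700Z.HD

open Pool.Agent.Helper873.OneVar Pool.Agent.Helper873.Product
open Pool.Agent.Helper873.Monomial Pool.Agent.Helper873.Alg Pool.Agent.Helper873.Mean

theorem final :
    ∃ C : ℝ, 0 < C ∧ ∀ (N : ℕ), 1 ≤ N → ∀ (a : ℕ → ℂ), ∃ L : ℝ,
      Filter.Tendsto
        (fun T : ℝ => (1 / T) * ∫ t in (-T / 2)..(T / 2),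
          ‖∑ k ∈ Finset.Icc 1 N,
              a k / ((k : ℂ) ^ (2 * (Real.pi : ℂ) * Complex.I * (t : ℂ)))‖)
        Filter.atTop (nhds L) ∧
      C * (‖a 1‖ + ∑ k ∈ Finset.Icc 2 N, ‖a k‖ / (Real.sqrt k * Real.log k)) ≤ L := by
  refine ⟨Real.exp (-60) / 3 / 4501, by positivity, fun N hN a => ?_⟩
  let c : ℕ →₀ ℂ := Finsupp.onFinset (range N) (fun m => if m < N then a (m + 1) else 0)
    (fun m hm => by
      by_contra h
      exact hm (if_neg fun h' => h (mem_range.2 h')))
  have hc : ∀ w, poly c w = ∑ n ∈ Icc 1 N, a n * mon n w := by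
    intro w
    unfold poly
    rw [Finsupp.onFinset_sum _ (by intro m; simp), ← Finset.Ico_add_one_right_eq_Icc,
      sum_Ico_eq_sum_range]
    simp only [Nat.add_sub_cancel]
    refine sum_congr rfl fun m hm => ?_
    rw [if_pos (mem_range.1 hm), add_comm 1 m]
  refine ⟨∫ z, ‖poly c (fun k => zet (z k))‖ ∂tor, ?_, ?_⟩
  · have h1 := (mean_value c).comp (tendsto_id.const_mul_atTop Real.pi_pos)
    refine h1.congr' ?_
    filter_upwards [eventually_gt_atTop 0] with T hT
    simp only [Function.comp, id]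
    have e : ∀ t : ℝ, ‖∑ k ∈ Finset.Icc 1 N,
        a k / ((k : ℂ) ^ (2 * (Real.pi : ℂ) * Complex.I * (t : ℂ)))‖ =
        (fun u : ℝ => ‖poly c (vs (u * Complex.I))‖) (2 * Real.pi * t) := by
      intro t
      simp only [hc]
      congr 1
      refine sum_congr rfl fun k hk => ?_
      rw [mon_vs k (by have := (mem_Icc.1 hk).1; omega), Complex.cpow_neg, div_eq_mul_inv]
      congr 3
      push_cast
      ring
    simp_rw [e]
    rw [intervalIntegral.integral_comp_mul_left (fun u : ℝ => ‖poly c (vs (u * Complex.I))‖)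
      (by positivity : 2 * Real.pi ≠ 0), smul_eq_mul,
      show 2 * Real.pi * (-T / 2) = -(Real.pi * T) by ring,
      show 2 * Real.pi * (T / 2) = Real.pi * T by ring]
    have := Real.pi_pos
    generalize (∫ t in -(Real.pi * T)..Real.pi * T, ‖poly c (vs (t * Complex.I))‖) = I
    field_simp
  · have h1 := hardy N hN a
    simp_rw [← hc] at h1
    have h2 := coeff_bound c 0
    have h3 : c 0 = a 1 := by
      simp only [c, Finsupp.onFinset_apply]
      rw [if_pos (by omega)]
    rw [h3] at h2
    have h4 : Real.exp (-60) / 3 ≤ 1 := by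
      have : Real.exp (-60) ≤ 1 := Real.exp_le_one_iff.2 (by norm_num)
      linarith
    have h5 := mul_le_mul_of_nonneg_right h4 (norm_nonneg (a 1))
    rw [div_mul_eq_mul_div, div_le_iff₀ (by norm_num), mul_add]
    linarith

end Pool.Agent.H700Z.HD
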