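import Pool.Agent.H700Z.NoBasis

open Filter Topology
open scoped ENNReal

set_option linter.unusedSectionVars false
set_option maxHeartbeats 400000

namespace Pool.Agent.H700Z.Pel

/-- the Hilbert space of square summable sequences -/
abbrev Z2 : Type := lp (fun _ : ℕ => ℝ) 2

/-- coordinate projections -/
noncomputable def Q (m : ℕ) (z : Z2) : Z2 := ∑ i ∈ Finset.range m, lp.single 2 i (z i)

lemma Q_le (m : ℕ) (z : Z2) : ‖Q m z‖ ≤ ‖z‖ := by
  have hp : 0 < (2 : ℝ≥0∞).toReal := by norm_num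
  have h1 := lp.norm_sum_single (E := fun _ : ℕ => ℝ) hp (fun i => z i) (Finset.range m)
  have h2 := lp.sum_rpow_le_norm_rpow hp z (Finset.range m)
  rw [← h1] at h2
  exact (Real.rpow_le_rpow_iff (norm_nonneg _) (norm_nonneg _) hp).1 h2

lemma Q_tendsto (z : Z2) : Tendsto (fun m => Q m z) atTop (𝓝 z) :=
  (lp.hasSum_single (by norm_num) z).tendsto_sum_nat

lemma Z2_infinite : ¬ FiniteDimensional ℝ Z2 := by
  intro h
  have hli : LinearIndependent ℝ (fun i : ℕ => (lp.single 2 i (1 : ℝ) : Z2)) := by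
    rw [linearIndependent_iff']
    intro s g hs i hi
    have := congrArg (fun z : Z2 => z i) hs
    simp only [lp.coeFn_sum, Finset.sum_apply, lp.coeFn_smul, Pi.smul_apply, lp.single_apply,
      Pi.single_apply, smul_eq_mul, mul_ite, mul_one, mul_zero, Finset.sum_ite_eq, hi, if_true,
      lp.coeFn_zero, Pi.zero_apply] at this
    exact this
  exact Module.Finite.not_linearIndependent_of_infinite _ hli

variable {E : Type} [NormedAddCommGroup E] [NormedSpace ℝ E]

theorem exists_ops [FiniteDimensional ℝ E] :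
    ∃ (x : ℕ → WithLp 2 (E × Z2)) (φ : ℕ → WithLp 2 (E × Z2) →ₗ[ℝ] ℝ), (∀ j, x j ≠ 0) ∧
      (∀ v n, ‖S x (fun j => φ j v) n‖ ≤ ‖v‖) ∧
      ∀ v, Tendsto (S x (fun j => φ j v)) atTop (𝓝 v) := by
  set D := Module.finrank ℝ E with hD
  let b := Module.finBasis ℝ E
  let b' : ℕ → E := fun r => if h : r < D then b ⟨r, h⟩ else 0
  let c : ℕ → E →ₗ[ℝ] ℝ := fun r => if h : r < D then b.coord ⟨r, h⟩ else 0
  let R : ℕ → E →ₗ[ℝ] E := fun r => ∑ i ∈ Finset.range r, (c i).smulRight (b' i)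
  have hR : ∀ r v, R r v = ∑ i ∈ Finset.range r, c i v • b' i := by
    intro r v
    simp [R, LinearMap.sum_apply]
  have hRD : ∀ v, R D v = v := by
    intro v
    rw [hR, Finset.sum_range]
    conv_rhs => rw [← b.sum_repr v]
    refine Finset.sum_congr rfl fun i _ => ?_
    simp [c, b', i.2]
  obtain ⟨C, hC1, hC⟩ : ∃ C : ℝ, 1 ≤ C ∧ ∀ r ≤ D, ∀ v, ‖R r v‖ ≤ C * ‖v‖ := by
    refine ⟨1 + ∑ r ∈ Finset.range (D + 1), ‖LinearMap.toContinuousLinearMap (R r)‖, ?_, ?_⟩
    · have : 0 ≤ ∑ r ∈ Finset.range (D + 1), ‖LinearMap.toContinuousLinearMap (R r)‖ :=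
        Finset.sum_nonneg fun _ _ => norm_nonneg _
      linarith
    · intro r hr v
      have h1 := (LinearMap.toContinuousLinearMap (R r)).le_opNorm v
      have h2 : ‖LinearMap.toContinuousLinearMap (R r)‖ ≤
          ∑ r ∈ Finset.range (D + 1), ‖LinearMap.toContinuousLinearMap (R r)‖ :=
        Finset.single_le_sum (f := fun r => ‖LinearMap.toContinuousLinearMap (R r)‖)
          (fun _ _ => norm_nonneg _) (Finset.mem_range.2 (by omega))
      have h3 := norm_nonneg v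
      have h4 : ‖R r v‖ ≤ ‖LinearMap.toContinuousLinearMap (R r)‖ * ‖v‖ := h1
      nlinarith
  set θ : ℝ := 1 - 1 / C with hθ
  have hC0 : 0 < C := by linarith
  have hθ0 : 0 ≤ θ := by
    have : 1 / C ≤ 1 := by rw [div_le_one hC0]; exact hC1
    linarith
  have hθ1 : θ < 1 := by
    have : 0 < 1 / C := by positivity
    linarith
  have hθC : (1 - θ) * C = 1 := by
    rw [hθ]
    field_simp
    ring
  let x : ℕ → WithLp 2 (E × Z2) := fun j =>
    if j % (D + 1) < D then WithLp.toLp 2 (b' (j % (D + 1)), 0)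
    else WithLp.toLp 2 (0, lp.single 2 (j / (D + 1)) (1 : ℝ))
  let φ : ℕ → WithLp 2 (E × Z2) →ₗ[ℝ] ℝ := fun j =>
    if j % (D + 1) < D then
      (θ ^ (j / (D + 1)) * (1 - θ)) • (c (j % (D + 1)) ∘ₗ WithLp.fstₗ 2 ℝ E Z2)
    else lp.evalₗ (𝕜 := ℝ) (fun _ : ℕ => ℝ) 2 (j / (D + 1)) ∘ₗ WithLp.sndₗ 2 ℝ E Z2
  have hS : ∀ (v : WithLp 2 (E × Z2)) (n : ℕ), S x (fun j => φ j v) n =
      WithLp.toLp 2 ((1 - θ ^ (n / (D + 1))) • v.fst +
        (θ ^ (n / (D + 1)) * (1 - θ)) • R (n % (D + 1)) v.fst, Q (n / (D + 1)) v.snd) := by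
    intro v n
    induction n with
    | zero =>
      simp [S, Q, hR]
      rfl
    | succ n ih =>
      rw [S_succ, ih]
      have hlt : n % (D + 1) < D + 1 := Nat.mod_lt _ (by omega)
      by_cases h : n % (D + 1) < D
      · have h1 : (n + 1) % (D + 1) = n % (D + 1) + 1 := by
          rw [Nat.add_mod, Nat.mod_eq_of_lt (a := 1) (by omega), Nat.mod_eq_of_lt (by omega)]
        have h2 : (n + 1) / (D + 1) = n / (D + 1) := by
          have e1 := Nat.div_add_mod n (D + 1)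
          have e2 := Nat.div_add_mod (n + 1) (D + 1)
          have e3 : (D + 1) * ((n + 1) / (D + 1)) = (D + 1) * (n / (D + 1)) := by omega
          exact Nat.eq_of_mul_eq_mul_left (by omega) e3
        rw [h1, h2]
        simp only [x, φ, if_pos h, hR, Finset.sum_range_succ]
        rw [← WithLp.toLp_smul, ← WithLp.toLp_add]
        congr 1
        simp only [Prod.smul_mk, Prod.mk_add_mk, smul_zero, add_zero, LinearMap.smul_apply,
          LinearMap.comp_apply, smul_eq_mul, smul_add, add_assoc, mul_smul]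
        rfl
      · have h0 : n % (D + 1) = D := by omega
        have e1 := Nat.div_add_mod n (D + 1)
        have e0 : n + 1 = (D + 1) * (n / (D + 1) + 1) := by
          rw [mul_add]
          omega
        have h1 : (n + 1) % (D + 1) = 0 := by
          rw [e0]
          exact Nat.mul_mod_right _ _
        have h2 : (n + 1) / (D + 1) = n / (D + 1) + 1 := by
          rw [e0]
          exact Nat.mul_div_cancel_left _ (by omega)
        rw [h1, h2]
        simp only [x, φ, if_neg h]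
        rw [h0, hRD, ← WithLp.toLp_smul, ← WithLp.toLp_add]
        congr 1
        simp only [Prod.smul_mk, Prod.mk_add_mk, smul_zero, add_zero, LinearMap.comp_apply, hR,
          Finset.range_zero, Finset.sum_empty, Q, Finset.sum_range_succ, Prod.mk.injEq]
        constructor
        · rw [← add_smul]
          congr 1
          ring
        · congr 1
          rw [← lp.single_smul, smul_eq_mul, mul_one]
          rfl
  have hE : ∀ (v : E) (m r : ℕ), r ≤ D →
      ‖(θ ^ m * (1 - θ)) • R r v‖ ≤ θ ^ m * ‖v‖ := by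
    intro v m r hr
    have h1 : 0 ≤ θ ^ m := pow_nonneg hθ0 m
    have h2 : 0 ≤ θ ^ m * (1 - θ) := mul_nonneg h1 (by linarith)
    rw [norm_smul, Real.norm_of_nonneg h2]
    calc θ ^ m * (1 - θ) * ‖R r v‖ ≤ θ ^ m * (1 - θ) * (C * ‖v‖) :=
          mul_le_mul_of_nonneg_left (hC r hr v) h2
      _ = θ ^ m * ((1 - θ) * C) * ‖v‖ := by ring
      _ = θ ^ m * ‖v‖ := by rw [hθC, mul_one]
  have hmod : ∀ n, n % (D + 1) ≤ D := fun n => Nat.lt_succ_iff.1 (Nat.mod_lt _ (by omega))
  refine ⟨x, φ, fun j => ?_, fun v n => ?_, fun v => ?_⟩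
  · simp only [x]
    split_ifs with h
    · intro h0
      have := congrArg WithLp.fst h0
      simp only [WithLp.toLp_fst, b', dif_pos h, WithLp.zero_fst] at this
      exact b.ne_zero _ this
    · intro h0
      have := congrArg (fun w : WithLp 2 (E × Z2) => w.snd (j / (D + 1))) h0
      simp at this
  · rw [hS]
    refine (pow_le_pow_iff_left₀ (norm_nonneg _) (norm_nonneg _) two_ne_zero).1 ?_
    rw [WithLp.prod_norm_sq_eq_of_L2, WithLp.prod_norm_sq_eq_of_L2]
    simp only [WithLp.toLp_fst, WithLp.toLp_snd]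
    have h1 : θ ^ (n / (D + 1)) ≤ 1 := pow_le_one₀ hθ0 hθ1.le
    refine add_le_add (pow_le_pow_left₀ (norm_nonneg _) ?_ 2)
      (pow_le_pow_left₀ (norm_nonneg _) (Q_le _ _) 2)
    refine (norm_add_le _ _).trans ?_
    have h2 := hE v.fst (n / (D + 1)) _ (hmod n)
    rw [norm_smul, Real.norm_of_nonneg (by linarith)]
    linarith
  · have hdiv : Tendsto (fun n : ℕ => n / (D + 1)) atTop atTop :=
      Nat.tendsto_div_const_atTop (by omega)
    have hpow : Tendsto (fun n : ℕ => θ ^ (n / (D + 1))) atTop (𝓝 0) :=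
      (tendsto_pow_atTop_nhds_zero_of_lt_one hθ0 hθ1).comp hdiv
    have h1 : Tendsto (fun n : ℕ => (1 - θ ^ (n / (D + 1))) • v.fst) atTop (𝓝 v.fst) := by
      simpa using ((tendsto_const_nhds (x := (1 : ℝ))).sub hpow).smul_const v.fst
    have h2 : Tendsto (fun n : ℕ => (θ ^ (n / (D + 1)) * (1 - θ)) • R (n % (D + 1)) v.fst) atTop
        (𝓝 0) := by
      refine squeeze_zero_norm (fun n => hE v.fst _ _ (hmod n)) ?_
      simpa using hpow.mul_const ‖v.fst‖
    have h3 := h1.add h2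
    rw [add_zero] at h3
    have h4 := (Q_tendsto v.snd).comp hdiv
    have h5 := ((WithLp.prodContinuousLinearEquiv 2 ℝ E Z2).symm.continuous.tendsto _).comp
      (h3.prodMk_nhds h4)
    refine h5.congr fun n => ?_
    rw [hS]
    rfl

instance fact6 : Fact (1 ≤ (6 : ℝ≥0∞)) := ⟨by norm_num⟩

/-- values of a cubic polynomial at six points -/
noncomputable def Lm : (Fin 4 → ℝ) →ₗ[ℝ] PiLp 6 (fun _ : Fin 6 => ℝ) where
  toFun c := WithLp.toLp 6 fun i : Fin 6 =>
    c 0 + c 1 * (i : ℕ) + c 2 * ((i : ℕ) : ℝ) ^ 2 + c 3 * ((i : ℕ) : ℝ) ^ 3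
  map_add' c d := by
    ext i
    simp
    ring
  map_smul' t c := by
    ext i
    simp
    ring

lemma Lm_apply (c : Fin 4 → ℝ) (i : Fin 6) : Lm c i =
    c 0 + c 1 * (i : ℕ) + c 2 * ((i : ℕ) : ℝ) ^ 2 + c 3 * ((i : ℕ) : ℝ) ^ 3 := rfl

lemma norm_pow_six (v : PiLp 6 (fun _ : Fin 6 => ℝ)) : ‖v‖ ^ 6 = ∑ i, (v i) ^ 6 := by
  rw [PiLp.norm_eq_of_nat 6 (by norm_num) v, ← Real.rpow_natCast, ← Real.rpow_mul (by positivity)]
  have : ∀ i, ‖v i‖ ^ 6 = (v i) ^ 6 := fun i => by
    rw [Real.norm_eq_abs]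
    exact Even.pow_abs (by decide) _
  simp only [this]
  norm_num

lemma first_order (v k : PiLp 6 (fun _ : Fin 6 => ℝ)) (h : ∀ t : ℝ, ‖v‖ ≤ ‖v + t • k‖) :
    ∑ i, (v i) ^ 5 * k i = 0 := by
  let f : ℝ → ℝ := fun t => ∑ i, (v i + t * k i) ^ 6
  have hmin : IsLocalMin f 0 := by
    refine Filter.Eventually.of_forall fun t => ?_
    have h1 := pow_le_pow_left₀ (norm_nonneg _) (h t) 6
    rw [norm_pow_six, norm_pow_six] at h1
    simpa [f] using h1
  have hd : HasDerivAt f (∑ i, (6 : ℕ) * (v i + 0 * k i) ^ (6 - 1) * (1 * k i)) 0 := by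
    apply HasDerivAt.fun_sum
    intro i _
    exact (((hasDerivAt_id (0 : ℝ)).mul_const (k i)).const_add (v i)).fun_pow 6
  have h0 := hmin.hasDerivAt_eq_zero hd
  have : ∑ i, ((6 : ℕ) : ℝ) * (v i + 0 * k i) ^ (6 - 1) * (1 * k i) =
      6 * ∑ i, (v i) ^ 5 * k i := by
    rw [Finset.mul_sum]
    refine Finset.sum_congr rfl fun i _ => ?_
    norm_num
    ring
  rw [this] at h0
  linarith

lemma E4_prop (l' : (Fin 4 → ℝ) →ₗ[ℝ] ℝ) (kc : Fin 4 → ℝ)
    (hcon : ∀ (v : Fin 4 → ℝ) (t : ℝ), l' v = 0 → ‖Lm v‖ ≤ ‖Lm v + t • Lm kc‖) : Lm kc = 0 := by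
  let G : (Fin 3 → ℝ) →ₗ[ℝ] (Fin 2 → ℝ) :=
    { toFun := fun g => ![l' ![g 0, g 1, g 2, 0], l' ![0, g 0, g 1, g 2]]
      map_add' := by
        intro g h
        ext i
        fin_cases i
        · simp only [Fin.zero_eta, Matrix.cons_val_zero, Pi.add_apply, ← map_add]
          congr 1
          ext j
          fin_cases j <;> simp
        · simp only [Fin.mk_one, Matrix.cons_val_one, Matrix.cons_val_zero, Pi.add_apply,
            ← map_add]
          congr 1
          ext j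
          fin_cases j <;> simp
      map_smul' := by
        intro t g
        ext i
        fin_cases i
        · simp only [Fin.zero_eta, Matrix.cons_val_zero, Pi.smul_apply, RingHom.id_apply,
            ← map_smul]
          congr 1
          ext j
          fin_cases j <;> simp
        · simp only [Fin.mk_one, Matrix.cons_val_one, Matrix.cons_val_zero, Pi.smul_apply,
            RingHom.id_apply, ← map_smul]
          congr 1
          ext j
          fin_cases j <;> simp }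
  have hG : LinearMap.ker G ≠ ⊥ := G.ker_ne_bot_of_finrank_lt (by simp)
  obtain ⟨g, hg, hg0⟩ := (Submodule.ne_bot_iff _).1 hG
  have hg1 : l' ![g 0, g 1, g 2, 0] = 0 := congrFun (LinearMap.mem_ker.1 hg) 0
  have hg2 : l' ![0, g 0, g 1, g 2] = 0 := congrFun (LinearMap.mem_ker.1 hg) 1
  have key : ∀ β : ℝ, ∑ i : Fin 6, (1 + β * (i : ℕ)) ^ 5 *
      ((g 0 + g 1 * (i : ℕ) + g 2 * ((i : ℕ) : ℝ) ^ 2) ^ 5 * Lm kc i) = 0 := by
    intro β
    have h1 : l' (![g 0, g 1, g 2, 0] + β • ![0, g 0, g 1, g 2]) = 0 := by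
      rw [map_add, map_smul, hg1, hg2]
      simp
    have h2 := first_order (Lm (![g 0, g 1, g 2, 0] + β • ![0, g 0, g 1, g 2])) (Lm kc)
      (fun t => hcon _ t h1)
    rw [← h2]
    refine Finset.sum_congr rfl fun i _ => ?_
    rw [← mul_assoc, ← mul_pow]
    congr 2
    simp [Lm_apply]
    ring
  have hz : ∀ i : Fin 6, (g 0 + g 1 * (i : ℕ) + g 2 * ((i : ℕ) : ℝ) ^ 2) ^ 5 * Lm kc i = 0 := by
    have a0 := key 0
    have a1 := key 1
    have a2 := key (-1)
    have a3 := key 2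
    have a4 := key (-2)
    have a5 := key 3
    simp only [Fin.sum_univ_six] at a0 a1 a2 a3 a4 a5
    generalize hc : (fun i : Fin 6 =>
      (g 0 + g 1 * (i : ℕ) + g 2 * ((i : ℕ) : ℝ) ^ 2) ^ 5 * Lm kc i) = cc
    have hc' : ∀ i : Fin 6,
      (g 0 + g 1 * (i : ℕ) + g 2 * ((i : ℕ) : ℝ) ^ 2) ^ 5 * Lm kc i = cc i := fun i => congrFun hc i
    simp only [hc'] at a0 a1 a2 a3 a4 a5 ⊢
    norm_num at a0 a1 a2 a3 a4 a5
    intro i
    fin_cases i <;> simp <;> linarith
  open Polynomial in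
  have hp : (C (g 0) + C (g 1) * X + C (g 2) * X ^ 2) *
      (C (kc 0) + C (kc 1) * X + C (kc 2) * X ^ 2 + C (kc 3) * X ^ 3) = (0 : ℝ[X]) := by
    refine Polynomial.eq_zero_of_natDegree_lt_card_of_eval_eq_zero _
      (f := fun i : Fin 6 => ((i : ℕ) : ℝ)) ?_ ?_ ?_
    · intro i j h
      exact Fin.ext (Nat.cast_injective (R := ℝ) h)
    · intro i
      have := hz i
      rw [mul_eq_zero, pow_eq_zero_iff (by norm_num), ← mul_eq_zero, Lm_apply] at this
      simpa using this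
    · have : ((C (g 0) + C (g 1) * X + C (g 2) * X ^ 2) *
          (C (kc 0) + C (kc 1) * X + C (kc 2) * X ^ 2 + C (kc 3) * X ^ 3) : ℝ[X]).natDegree ≤ 5 := by
        compute_degree
      simp only [Fintype.card_fin]
      omega
  rcases mul_eq_zero.1 hp with h | h
  · exfalso
    apply hg0
    have h0 := congrArg (fun p => Polynomial.coeff p 0) h
    have h1 := congrArg (fun p => Polynomial.coeff p 1) h
    have h2 := congrArg (fun p => Polynomial.coeff p 2) h
    simp [Polynomial.coeff_X, Polynomial.coeff_C, Polynomial.coeff_X_pow] at h0 h1 h2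
    ext j
    fin_cases j <;> simp [h0, h1, h2]
  · ext i
    have := congrArg (Polynomial.eval ((i : ℕ) : ℝ)) h
    simpa [Lm_apply] using this

theorem exists_E : ∃ (E : Type) (_ : NormedAddCommGroup E) (_ : NormedSpace ℝ E),
    FiniteDimensional ℝ E ∧ Nontrivial E ∧ ∀ (l : E →ₗ[ℝ] ℝ) (k : E), k ≠ 0 →
      ∃ (v : E) (t : ℝ), l v = 0 ∧ ‖v + t • k‖ < ‖v‖ := by
  refine ⟨LinearMap.range Lm, inferInstance, inferInstance, inferInstance, ?_, ?_⟩
  · refine ⟨⟨0, ⟨Lm ![1, 0, 0, 0], _, rfl⟩, fun h => ?_⟩⟩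
    have := congrArg (fun v : LinearMap.range Lm => v.1 0) h
    simp [Lm_apply] at this
  · intro l k hk
    by_contra hcon
    push Not at hcon
    obtain ⟨_, kc, rfl⟩ := k
    apply hk
    apply Subtype.ext
    refine E4_prop (l ∘ₗ Lm.rangeRestrict) kc fun v t hv => ?_
    have := hcon (Lm.rangeRestrict v) t hv
    rw [Submodule.coe_norm, Submodule.coe_norm, Submodule.coe_add, Submodule.coe_smul] at this
    exact this

theorem final (H : ∀ (B : Type) [NormedAddCommGroup B] [NormedSpace ℝ B] [CompleteSpace B],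
    ¬ FiniteDimensional ℝ B → (∃ e : ℕ → B, MonoBasis e) →
    ∀ F : Submodule ℝ B, IsClosed (F : Set B) → ¬ FiniteDimensional ℝ F →
      (∃ P : B →L[ℝ] B, (∀ x : B, P x ∈ F) ∧ (∀ x ∈ F, P x = x) ∧ ‖P‖ ≤ 1) →
      ∃ f : ℕ → B, (∀ i : ℕ, f i ∈ F) ∧
        (∀ x ∈ F, ∃! a : ℕ → ℝ,
          Tendsto (fun n : ℕ => ∑ i ∈ Finset.range n, a i • f i) atTop (𝓝 x)) ∧
        (∀ (a : ℕ → ℝ) (n m : ℕ), n ≤ m →
          ‖∑ i ∈ Finset.range n, a i • f i‖ ≤ ‖∑ i ∈ Finset.range m, a i • f i‖)) : False := by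
  obtain ⟨E4, _, _, _, _, hE⟩ := exists_E
  have : CompleteSpace E4 := FiniteDimensional.complete ℝ E4
  obtain ⟨x, φ, h1, h2, h3⟩ := exists_ops (E := E4)
  have hX : ¬ FiniteDimensional ℝ (WithLp 2 (E4 × Z2)) := by
    intro h
    apply Z2_infinite
    exact Module.Finite.of_surjective (WithLp.sndₗ 2 ℝ E4 Z2)
      (fun z => ⟨WithLp.toLp 2 (0, z), rfl⟩)
  obtain ⟨y, hy⟩ := counter hX x h1 φ h2 h3 H
  exact no_basis hE y hy

end Pool.Agent.H700Z.Pel
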