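import Pool.Agent.H700Z.Pel

open Filter Topology

set_option linter.unusedSectionVars false

namespace Pool.Agent.H700Z.Pel

variable {E Z : Type} [NormedAddCommGroup E] [NormedSpace ℝ E] [NormedAddCommGroup Z]
  [NormedSpace ℝ Z]

theorem exists_proj {X : Type} [NormedAddCommGroup X] [NormedSpace ℝ X] {y : ℕ → X}
    (hy : MonoBasis y) : ∃ s : ℕ → X →ₗ[ℝ] X, s 0 = 0 ∧ (∀ n v, ‖s n v‖ ≤ ‖v‖) ∧
      (∀ n m v, s n (s m v) = s (min n m) v) ∧ (∀ v, Tendsto (fun n => s n v) atTop (𝓝 v)) ∧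
      ∀ n v, ∃ c : ℝ, s (n + 1) v = s n v + c • y n := by
  choose A hA hAu using hy.1
  have hadd : ∀ v w, A (v + w) = A v + A w := by
    intro v w
    symm
    apply hAu
    refine ((hA v).add (hA w)).congr fun n => ?_
    simp [add_smul, Finset.sum_add_distrib]
  have hsmul : ∀ (c : ℝ) v, A (c • v) = c • A v := by
    intro c v
    symm
    apply hAu
    refine ((hA v).const_smul c).congr fun n => ?_
    simp [Finset.smul_sum, mul_smul]
  let s : ℕ → X →ₗ[ℝ] X := fun n =>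
    { toFun := fun v => S y (A v) n
      map_add' := fun v w => by simp [S, hadd, add_smul, Finset.sum_add_distrib]
      map_smul' := fun c v => by simp [S, hsmul, Finset.smul_sum, mul_smul] }
  have htr : ∀ (a : ℕ → ℝ) (m n : ℕ),
      S y (fun j => if j < m then a j else 0) n = S y a (min n m) := by
    intro a m n
    induction n with
    | zero => simp [S]
    | succ n ih =>
      rw [S_succ, ih]
      by_cases h : n < m
      · rw [if_pos h, min_eq_left h.le, min_eq_left (by omega), S_succ]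
      · rw [if_neg h, min_eq_right (by omega), min_eq_right (by omega)]
        simp
  refine ⟨s, ?_, ?_, ?_, hA, fun n v => ⟨A v n, S_succ _ _ _⟩⟩
  · ext v
    simp [s, S]
  · intro n v
    refine ge_of_tendsto (hA v).norm ?_
    filter_upwards [eventually_ge_atTop n] with m hm
    exact hy.2 (A v) n m hm
  · intro n m v
    have : A (S y (A v) m) = fun j => if j < m then A v j else 0 := by
      symm
      apply hAu
      refine tendsto_const_nhds.congr' ?_
      filter_upwards [eventually_ge_atTop m] with k hk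
      have := htr (A v) m k
      rw [min_eq_right hk] at this
      exact this.symm
    change S y (A (S y (A v) m)) n = S y (A v) (min n m)
    rw [this, htr]

theorem no_basis [FiniteDimensional ℝ E] [Nontrivial E]
    (hE : ∀ (l : E →ₗ[ℝ] ℝ) (k : E), k ≠ 0 →
      ∃ (v : E) (t : ℝ), l v = 0 ∧ ‖v + t • k‖ < ‖v‖)
    (y : ℕ → WithLp 2 (E × Z)) : ¬ MonoBasis y := by
  intro hy
  obtain ⟨s, hs0, hs1, hs2, hs3, hs4⟩ := exists_proj hy
  let π : WithLp 2 (E × Z) →L[ℝ] E := WithLp.fstL 2 ℝ E Z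
  let ι : E →ₗ[ℝ] WithLp 2 (E × Z) :=
    (WithLp.linearEquiv 2 ℝ (E × Z)).symm.toLinearMap ∘ₗ LinearMap.inl ℝ E Z
  have hι1 : ∀ v, (ι v).fst = v := fun v => rfl
  have hι2 : ∀ v, (ι v).snd = 0 := fun v => rfl
  have hπ : ∀ v, π v = v.fst := fun v => rfl
  let Pn : ℕ → Submodule ℝ E := fun n => LinearMap.range ((π : _ →ₗ[ℝ] E) ∘ₗ s n)
  have hmono : Monotone Pn := by
    intro n m h
    rintro _ ⟨v, rfl⟩
    refine ⟨s n v, ?_⟩
    simp only [LinearMap.comp_apply, hs2, min_eq_right h]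
  have hex : ∃ n, Pn n = ⊤ := by
    obtain ⟨N, hN⟩ := monotone_stabilizes_iff_noetherian.2 (inferInstance : IsNoetherian ℝ E)
      ⟨Pn, hmono⟩
    refine ⟨N, eq_top_iff.2 fun v _ => ?_⟩
    have h1 : Tendsto (fun n => π (s n (ι v))) atTop (𝓝 v) :=
      (π.continuous.tendsto _).comp (hs3 (ι v))
    refine (Submodule.closed_of_finiteDimensional (Pn N)).mem_of_tendsto h1 ?_
    filter_upwards [eventually_ge_atTop N] with m hm
    have : Pn N = Pn m := hN m hm
    rw [this]
    exact ⟨ι v, rfl⟩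
  classical
  have hn0 : Nat.find hex ≠ 0 := by
    intro h
    have h1 := Nat.find_spec hex
    rw [h] at h1
    obtain ⟨v, hv⟩ := exists_ne (0 : E)
    have : v ∈ Pn 0 := h1 ▸ Submodule.mem_top
    obtain ⟨w, hw⟩ := this
    apply hv
    rw [← hw]
    simp [hs0]
  obtain ⟨p, hp⟩ := Nat.exists_eq_succ_of_ne_zero hn0
  have hp1 : Pn (p + 1) = ⊤ := by
    have := Nat.find_spec hex
    rwa [hp] at this
  have hp2 : Pn p ≠ ⊤ := Nat.find_min hex (by omega)
  have hdec : ∀ v : E, ∃ w ∈ Pn p, ∃ c : ℝ, v = w + c • π (y p) := by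
    intro v
    have : v ∈ Pn (p + 1) := hp1 ▸ Submodule.mem_top
    obtain ⟨w, rfl⟩ := this
    obtain ⟨c, hc⟩ := hs4 p w
    refine ⟨π (s p w), ⟨w, rfl⟩, c, ?_⟩
    simp only [LinearMap.comp_apply, hc, ContinuousLinearMap.coe_coe, map_add, map_smul]
  have hu : π (y p) ∉ Pn p := by
    intro h
    apply hp2
    refine eq_top_iff.2 fun v _ => ?_
    obtain ⟨w, hw, c, rfl⟩ := hdec v
    exact Submodule.add_mem _ hw (Submodule.smul_mem _ _ h)
  obtain ⟨l, hl1, hl2⟩ := Submodule.exists_le_ker_of_notMem hu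
  have hker : ∀ v, l v = 0 → v ∈ Pn p := by
    intro v hv
    obtain ⟨w, hw, c, rfl⟩ := hdec v
    have h0 : l w = 0 := hl2 hw
    rw [map_add, map_smul, h0, zero_add, smul_eq_mul, mul_eq_zero] at hv
    rcases hv with rfl | hv
    · simpa using hw
    · exact absurd hv hl1
  let ψ : E →ₗ[ℝ] E := (π : _ →ₗ[ℝ] E) ∘ₗ s p ∘ₗ ι
  have hψ : ¬ Function.Injective ψ := by
    rw [LinearMap.injective_iff_surjective]
    intro h
    obtain ⟨v, hv⟩ := h (π (y p))
    exact hu ⟨ι v, hv⟩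
  rw [injective_iff_map_eq_zero] at hψ
  push Not at hψ
  obtain ⟨k, hk1, hk2⟩ := hψ
  have hk3 : (s p (ι k)).fst = 0 := hk1
  have hz : s p (ι k) = 0 := by
    set w := s p (ι k) with hw
    have h1 : s p w = w := by rw [hw, hs2, min_self]
    have h2 : ∀ t : ℝ, ‖w.snd‖ ^ 2 ≤ t ^ 2 * ‖k‖ ^ 2 + (1 - t) ^ 2 * ‖w.snd‖ ^ 2 := by
      intro t
      have h3 := hs1 p (t • ι k + (1 - t) • w)
      rw [map_add, map_smul, map_smul, ← hw, h1, ← add_smul, add_sub_cancel, one_smul] at h3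
      have h4 := pow_le_pow_left₀ (norm_nonneg _) h3 2
      rw [WithLp.prod_norm_sq_eq_of_L2, WithLp.prod_norm_sq_eq_of_L2] at h4
      simp only [WithLp.add_fst, WithLp.smul_fst, WithLp.add_snd, WithLp.smul_snd, hι1, hι2, hk3,
        smul_zero, add_zero, zero_add, norm_zero, norm_smul, mul_pow, Real.norm_eq_abs,
        sq_abs] at h4
      linarith
    have h5 : ‖w.snd‖ ^ 2 = 0 := by
      by_contra hne
      have hpos : 0 < ‖w.snd‖ ^ 2 := lt_of_le_of_ne (sq_nonneg _) (Ne.symm hne)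
      set a := ‖w.snd‖ ^ 2
      have hb : 0 ≤ ‖k‖ ^ 2 := sq_nonneg _
      set b := ‖k‖ ^ 2
      have h6 := h2 (a / (a + b))
      have hab : 0 < a + b := by linarith
      have h7 : (a / (a + b)) ^ 2 * b + (1 - a / (a + b)) ^ 2 * a = a * b / (a + b) := by
        field_simp
        ring
      rw [h7, le_div_iff₀ hab] at h6
      nlinarith
    have h6 := WithLp.prod_norm_sq_eq_of_L2 w
    rw [hk3, h5] at h6
    simpa using h6
  obtain ⟨v, t, hv, hlt⟩ := hE l k hk2
  obtain ⟨w, hw⟩ := hker v hv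
  have hw' : (s p w).fst = v := hw
  have h3 := hs1 p (s p w + t • ι k)
  rw [map_add, map_smul, hz, hs2, min_self, smul_zero, add_zero] at h3
  have h4 := pow_le_pow_left₀ (norm_nonneg _) h3 2
  rw [WithLp.prod_norm_sq_eq_of_L2, WithLp.prod_norm_sq_eq_of_L2] at h4
  simp only [WithLp.add_fst, WithLp.smul_fst, WithLp.add_snd, WithLp.smul_snd, hι1, hι2, hw',
    smul_zero, add_zero] at h4
  have h5 := pow_lt_pow_left₀ hlt (norm_nonneg _) (two_ne_zero)
  linarith

end Pool.Agent.H700Z.Pel
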