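import Pool.Agent.H700Z.ORDefs

set_option maxHeartbeats 400000

namespace Pool.Agent.H700Z.OR

open Finset

section general
variable {V : Type*}

lemma sum_marg {W : Type*} (π : W →₀ ℝ) (m : W → V) (A : Finset V) (c : ℝ) (μ : V → ℝ)
    (hμ : ⇑(π.mapDomain m) = μ) (h1 : ∀ a ∈ A, μ a = c) (h2 : ∀ a ∉ A, μ a = 0) (f : V → ℝ) :
    (π.sum fun p w => w * f (m p)) = c * ∑ a ∈ A, f a := by
  rw [← Finsupp.sum_mapDomain_index (f := m) (s := π) (h := fun a w => w * f a) (by simp)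
    (by intros; ring), Finsupp.sum_of_support_subset (s := A) _ _ _ (by simp), Finset.mul_sum]
  · refine Finset.sum_congr rfl fun a ha => ?_
    rw [hμ, h1 a ha]
  · intro a ha
    by_contra h
    rw [Finsupp.mem_support_iff, hμ] at ha
    exact ha (h2 a h)

lemma supp_marg {W : Type*} (π : W →₀ ℝ) (hπ : ∀ p, 0 ≤ π p) (m : W → V) (A : Finset V) (c : ℝ)
    (μ : V → ℝ) (hμ : ⇑(π.mapDomain m) = μ) (h1 : ∀ a ∈ A, μ a = c) (h2 : ∀ a ∉ A, μ a = 0) :
    ∀ p ∈ π.support, m p ∈ A := by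
  classical
  have h := sum_marg π m A c μ hμ h1 h2 (fun a => if a ∈ A then 0 else 1)
  rw [Finset.sum_congr rfl (g := fun _ => (0 : ℝ)) (fun a ha => by simp [ha])] at h
  simp only [Finset.sum_const_zero, mul_zero, Finsupp.sum] at h
  rw [Finset.sum_eq_zero_iff_of_nonneg (fun p _ => mul_nonneg (hπ p) (by split_ifs <;> norm_num))]
    at h
  intro p hp
  by_contra hn
  have := h p hp
  simp only [hn, if_false, mul_one] at this
  exact Finsupp.mem_support_iff.1 hp this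

/-- weak duality -/
lemma le_W1 (G : SimpleGraph V) (μ ν : V → ℝ) (A B : Finset V) (a b : ℝ)
    (h1 : ∀ x ∈ A, μ x = a) (h2 : ∀ x ∉ A, μ x = 0) (h3 : ∀ x ∈ B, ν x = b) (h4 : ∀ x ∉ B, ν x = 0)
    (hne : ∃ π, IsCoupling μ ν π) (f g : V → ℝ)
    (hfg : ∀ x ∈ A, ∀ y ∈ B, f x + g y ≤ G.dist x y) :
    a * ∑ x ∈ A, f x + b * ∑ y ∈ B, g y ≤ W1 G μ ν := by
  obtain ⟨π0, hπ0⟩ := hne
  refine le_csInf ⟨_, π0, hπ0, rfl⟩ ?_
  rintro _ ⟨π, ⟨p1, p2, p3⟩, rfl⟩
  rw [← sum_marg π Prod.fst A a μ p2 h1 h2, ← sum_marg π Prod.snd B b ν p3 h3 h4]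
  simp only [Finsupp.sum]
  rw [← Finset.sum_add_distrib]
  refine Finset.sum_le_sum fun p hp => ?_
  rw [← mul_add]
  exact mul_le_mul_of_nonneg_left (hfg _ (supp_marg π p1 Prod.fst A a μ p2 h1 h2 p hp) _
    (supp_marg π p1 Prod.snd B b ν p3 h3 h4 p hp)) (p1 p)

end general

section cayley
variable {Γ : Type*} [Group Γ] {S : Finset Γ}

lemma cay_adj (hsymm : ∀ s ∈ S, s⁻¹ ∈ S) (h1 : (1 : Γ) ∉ S) (u v : Γ) :
    (SimpleGraph.mulCayley (S : Set Γ)).Adj u v ↔ u⁻¹ * v ∈ S := by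
  rw [SimpleGraph.mulCayley_adj]
  constructor
  · rintro ⟨-, h | h⟩
    · exact h
    · simpa using hsymm _ h
  · intro h
    refine ⟨?_, Or.inl h⟩
    rintro rfl
    exact h1 (by simpa using h)

lemma cay_reach (hsymm : ∀ s ∈ S, s⁻¹ ∈ S) (h1 : (1 : Γ) ∉ S)
    (hgen : Subgroup.closure (S : Set Γ) = ⊤) (u v : Γ) :
    (SimpleGraph.mulCayley (S : Set Γ)).Reachable u v := by
  have key : ∀ g ∈ Subgroup.closure (S : Set Γ), ∀ u,
      (SimpleGraph.mulCayley (S : Set Γ)).Reachable u (u * g) := by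
    intro g hg
    induction hg using Subgroup.closure_induction with
    | mem x hx =>
      intro u
      exact SimpleGraph.Adj.reachable ((cay_adj hsymm h1 _ _).2 (by simpa using hx))
    | one => intro u; simp
    | mul x y _ _ hx hy =>
      intro u
      rw [← mul_assoc]
      exact (hx u).trans (hy _)
    | inv x _ hx =>
      intro u
      have := (hx (u * x⁻¹)).symm
      simpa using this
  simpa using key (u⁻¹ * v) (hgen ▸ Subgroup.mem_top _) u

lemma cay_meas [DecidableEq Γ] (hsymm : ∀ s ∈ S, s⁻¹ ∈ S) (h1 : (1 : Γ) ∉ S) (x y : Γ) :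
    nbrMeasure (SimpleGraph.mulCayley (S : Set Γ)) x y =
      if y ∈ S.image (x * ·) then 1 / (S.card : ℝ) else 0 := by
  have hmem : ∀ y, (SimpleGraph.mulCayley (S : Set Γ)).Adj x y ↔ y ∈ S.image (x * ·) := by
    intro y
    rw [cay_adj hsymm h1, Finset.mem_image]
    constructor
    · intro h
      exact ⟨_, h, by simp⟩
    · rintro ⟨s, hs, rfl⟩
      simpa using hs
  have hset : (SimpleGraph.mulCayley (S : Set Γ)).neighborSet x = ↑(S.image (x * ·)) := by
    ext y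
    simpa using hmem y
  unfold nbrMeasure
  rw [hset, Set.ncard_coe_finset, Finset.card_image_of_injective _ (mul_right_injective x)]
  simp only [hmem]

lemma cay_coupling [DecidableEq Γ] (hsymm : ∀ s ∈ S, s⁻¹ ∈ S) (h1 : (1 : Γ) ∉ S) (x y : Γ) :
    ∃ π, IsCoupling (nbrMeasure (SimpleGraph.mulCayley (S : Set Γ)) x)
      (nbrMeasure (SimpleGraph.mulCayley (S : Set Γ)) y) π := by
  have key : ∀ z w : Γ, (∑ t ∈ S, Finsupp.single (z * t) (1 / (S.card : ℝ))) w =
      nbrMeasure (SimpleGraph.mulCayley (S : Set Γ)) z w := by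
    intro z w
    rw [cay_meas hsymm h1, Finsupp.finset_sum_apply]
    split_ifs with h
    · obtain ⟨s, hs, rfl⟩ := Finset.mem_image.1 h
      rw [Finset.sum_eq_single s]
      · simp
      · intro b _ hb
        rw [Finsupp.single_apply, if_neg (by simpa using hb)]
      · intro h'
        exact absurd hs h'
    · refine Finset.sum_eq_zero fun t ht => ?_
      rw [Finsupp.single_apply, if_neg]
      rintro rfl
      exact h (Finset.mem_image.2 ⟨t, ht, rfl⟩)
  refine ⟨∑ t ∈ S, Finsupp.single (x * t, y * t) (1 / (S.card : ℝ)), fun p => ?_, ?_, ?_⟩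
  · rw [Finsupp.finset_sum_apply]
    refine Finset.sum_nonneg fun t _ => ?_
    rw [Finsupp.single_apply]
    split_ifs <;> positivity
  · funext w
    rw [← key, Finsupp.mapDomain_finset_sum]
    simp only [Finsupp.mapDomain_single]
  · funext w
    rw [← key, Finsupp.mapDomain_finset_sum]
    simp only [Finsupp.mapDomain_single]

/-- a strictly positive duality gap gives negative curvature -/
lemma neg_of_gap (hsymm : ∀ s ∈ S, s⁻¹ ∈ S) (h1 : (1 : Γ) ∉ S) (x s : Γ) (hs : s ∈ S)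
    (f g : Γ → ℝ)
    (hfg : ∀ t ∈ S, ∀ t' ∈ S, f t + g t' ≤
      (SimpleGraph.mulCayley (S : Set Γ)).dist (x * t) (x * s * t'))
    (hgap : (S.card : ℝ) < ∑ t ∈ S, (f t + g t)) :
    kappa (SimpleGraph.mulCayley (S : Set Γ)) x (x * s) < 0 := by
  classical
  have hadj : (SimpleGraph.mulCayley (S : Set Γ)).Adj x (x * s) :=
    (cay_adj hsymm h1 _ _).2 (by simpa using hs)
  have hcard : (0 : ℝ) < S.card := by exact_mod_cast Finset.card_pos.2 ⟨s, hs⟩
  have := le_W1 (SimpleGraph.mulCayley (S : Set Γ)) _ _ (S.image (x * ·)) (S.image (x * s * ·))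
    (1 / S.card) (1 / S.card)
    (fun a ha => by rw [cay_meas hsymm h1, if_pos ha])
    (fun a ha => by rw [cay_meas hsymm h1, if_neg ha])
    (fun a ha => by rw [cay_meas hsymm h1, if_pos ha])
    (fun a ha => by rw [cay_meas hsymm h1, if_neg ha])
    (cay_coupling hsymm h1 x (x * s)) (fun a => f (x⁻¹ * a)) (fun a => g ((x * s)⁻¹ * a)) ?_
  · rw [Finset.sum_image (fun a _ b _ h => mul_left_cancel h),
      Finset.sum_image (fun a _ b _ h => mul_left_cancel h)] at this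
    simp only [inv_mul_cancel_left] at this
    unfold kappa
    rw [SimpleGraph.dist_eq_one_iff_adj.2 hadj]
    rw [Finset.sum_add_distrib] at hgap
    have h2 : 1 < 1 / (S.card : ℝ) * ∑ t ∈ S, f t + 1 / (S.card : ℝ) * ∑ t ∈ S, g t := by
      rw [← mul_add, one_div, lt_inv_mul_iff₀ hcard]
      linarith
    simp only [Nat.cast_one, div_one]
    linarith
  · intro a ha b hb
    obtain ⟨t, ht, rfl⟩ := Finset.mem_image.1 ha
    obtain ⟨t', ht', rfl⟩ := Finset.mem_image.1 hb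
    simpa only [inv_mul_cancel_left] using hfg t ht t' ht'

theorem core (hsymm : ∀ s ∈ S, s⁻¹ ∈ S) (h1 : (1 : Γ) ∉ S)
    (hgen : Subgroup.closure (S : Set Γ) = ⊤) (ω : Γ → Γ → ℝ) (c : Γ → ℝ)
    (hω1 : ∀ a b x, ω (a * b) x = ω a x + ω b x) (hω2 : ∀ x a b, ω x (a * b) = ω x a + ω x b)
    (hω0 : ∀ a, ω a a = 0) (hc : ∀ a b, c (a * b) = c a + c b + ω a b) (hne : ∃ a b, ω a b ≠ 0) :
    ∃ s ∈ S, kappa (SimpleGraph.mulCayley (S : Set Γ)) 1 (1 * s) < 0 := by
  classical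
  have o1 : ∀ x, ω 1 x = 0 := fun x => by have := hω1 1 1 x; simp at this; exact this
  have o2 : ∀ x, ω x 1 = 0 := fun x => by have := hω2 x 1 1; simp at this; exact this
  have i1 : ∀ a x, ω a⁻¹ x = - ω a x := fun a x => by
    have := hω1 a⁻¹ a x; rw [inv_mul_cancel, o1] at this; linarith
  have i2 : ∀ x a, ω x a⁻¹ = - ω x a := fun x a => by
    have := hω2 x a⁻¹ a; rw [inv_mul_cancel, o2] at this; linarith
  have anti : ∀ a b, ω a b = - ω b a := fun a b => by
    have := hω0 (a * b); rw [hω1, hω2, hω2, hω0, hω0] at this; linarith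
  have c1 : c 1 = 0 := by have := hc 1 1; simp [o1] at this; exact this
  have ci : ∀ a, c a⁻¹ = - c a := fun a => by
    have := hc a⁻¹ a; rw [inv_mul_cancel, c1, i1, hω0] at this; linarith
  have hext : ∀ a b, (∀ t ∈ S, ω a t = ω b t) → ∀ x, ω a x = ω b x := by
    intro a b h x
    have hx : x ∈ Subgroup.closure (S : Set Γ) := hgen ▸ Subgroup.mem_top _
    induction hx using Subgroup.closure_induction with
    | mem x hx => exact h x hx
    | one => rw [o2, o2]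
    | mul x y _ _ hx hy => rw [hω2, hω2, hx, hy]
    | inv x _ hx => rw [i2, i2, hx]
  -- a generic functional
  let T : Finset Γ := insert 1 S
  let F : Γ → Γ → Module.Dual ℝ (S → ℝ) := fun a b =>
    ∑ t : S, (ω a t - ω b t) • LinearMap.proj t
  have hF : ∀ a b α, F a b α = ∑ t : S, (ω a t - ω b t) * α t := by
    intro a b α
    simp [F, LinearMap.sum_apply]
  obtain ⟨α, hα⟩ := Module.Dual.exists_forall_ne_zero_of_forall_exists
    (ι := {p : T × T // ∃ t ∈ S, ω p.1 t ≠ ω p.2 t}) (fun p => F p.1.1 p.1.2) (by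
      rintro ⟨p, t, ht, hp⟩
      refine ⟨Pi.single ⟨t, ht⟩ 1, ?_⟩
      rw [hF, Finset.sum_eq_single ⟨t, ht⟩]
      · simpa [sub_eq_zero] using hp
      · intro b _ hb
        simp [Pi.single_eq_of_ne hb]
      · simp)
  let l0 : Γ → ℝ := fun a => ∑ t : S, ω a t * α t
  have l0mul : ∀ a b, l0 (a * b) = l0 a + l0 b := by
    intro a b
    simp [l0, hω1, add_mul, Finset.sum_add_distrib]
  have l0inv : ∀ a, l0 a⁻¹ = - l0 a := by
    intro a
    simp [l0, i1]
  have l01 : l0 1 = 0 := by simp [l0, o1]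
  have l0inj : ∀ a ∈ T, ∀ b ∈ T, l0 a = l0 b → ∀ x, ω a x = ω b x := by
    intro a ha b hb h
    apply hext
    by_contra hn
    push Not at hn
    apply hα ⟨(⟨a, ha⟩, ⟨b, hb⟩), hn⟩
    simp only [hF, sub_mul, Finset.sum_sub_distrib]
    exact sub_eq_zero.2 h
  obtain ⟨r0, hr0, hr0'⟩ : ∃ r ∈ S, l0 r ≠ 0 := by
    by_contra hn
    push Not at hn
    obtain ⟨a, b, hab⟩ := hne
    apply hab
    have h2 : ∀ r ∈ S, ω r b = 0 := fun r hr => by
      rw [l0inj r (Finset.mem_insert_of_mem hr) 1 (Finset.mem_insert_self _ _)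
        ((hn r hr).trans l01.symm), o1]
    rw [anti, hext b 1 (fun t ht => by rw [anti, h2 t ht, o1, neg_zero]), o1, neg_zero]
  obtain ⟨s0, hs0, hmax0⟩ := S.exists_max_image l0 ⟨r0, hr0⟩
  have hL : 0 < l0 s0 := by
    have a1 := hmax0 r0 hr0
    have a2 := hmax0 _ (hsymm r0 hr0)
    rw [l0inv] at a2
    rcases lt_or_gt_of_ne hr0' with h | h <;> linarith
  obtain ⟨s, hs, hmax⟩ := (S.filter fun r => l0 r = l0 s0).exists_max_image c
    ⟨s0, Finset.mem_filter.2 ⟨hs0, rfl⟩⟩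
  obtain ⟨hsS, hsl⟩ := Finset.mem_filter.1 hs
  let l : Γ → ℝ := fun a => l0 a / l0 s0
  have lmul : ∀ a b, l (a * b) = l a + l b := fun a b => by simp only [l, l0mul, add_div]
  have linv : ∀ a, l a⁻¹ = - l a := fun a => by simp only [l, l0inv, neg_div]
  have l1 : l 1 = 0 := by simp [l, l01]
  have lle : ∀ r ∈ S, l r ≤ 1 := fun r hr => (div_le_one hL).2 (hmax0 r hr)
  have ls : l s = 1 := by simp only [l, hsl]; exact div_self hL.ne'
  have leq : ∀ r ∈ S, l r = 1 → (∀ x, ω r x = ω s x) ∧ c r ≤ c s := by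
    intro r hr h
    have h' : l0 r = l0 s0 := by
      simp only [l] at h
      exact (div_eq_one_iff_eq hL.ne').1 h
    exact ⟨l0inj r (Finset.mem_insert_of_mem hr) s (Finset.mem_insert_of_mem hsS)
      (h'.trans hsl.symm), hmax r (Finset.mem_filter.2 ⟨hr, h'⟩)⟩
  have walk : ∀ (a b : Γ) (p : (SimpleGraph.mulCayley (S : Set Γ)).Walk a b),
      l (a⁻¹ * b) ≤ p.length ∧ (l (a⁻¹ * b) = p.length →
        (∀ x, ω (a⁻¹ * b) x = p.length * ω s x) ∧ c (a⁻¹ * b) ≤ p.length * c s) := by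
    intro a b p
    induction p with
    | nil => simp [l1, o1, c1]
    | @cons u v w h p ih =>
      have hr := (cay_adj hsymm h1 _ _).1 h
      have e : u⁻¹ * w = (u⁻¹ * v) * (v⁻¹ * w) := by group
      have a1 := lle _ hr
      rw [e, lmul, SimpleGraph.Walk.length_cons]
      push_cast
      refine ⟨by linarith [ih.1], fun heq => ?_⟩
      have a2 : l (u⁻¹ * v) = 1 := by linarith [ih.1]
      have a3 : l (v⁻¹ * w) = p.length := by linarith
      obtain ⟨b1, b2⟩ := leq _ hr a2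
      obtain ⟨b3, b4⟩ := ih.2 a3
      refine ⟨fun x => by rw [hω1, b1, b3]; ring, ?_⟩
      rw [hc, b1, anti s, b3, hω0]
      linarith
  obtain ⟨t0, ht0, ht0'⟩ : ∃ t ∈ S, 0 < ω s t := by
    by_contra hn
    push Not at hn
    have h2 : ∀ t ∈ S, ω s t = 0 := fun t ht => by
      have a1 := hn t ht
      have a2 := hn _ (hsymm t ht)
      rw [i2] at a2
      linarith
    have : l0 s = 0 := Finset.sum_eq_zero fun t _ => by rw [h2 t t.2, zero_mul]
    linarith
  let φ : Γ → ℝ := fun t => if 0 < ω s t then c t - l t * (c s - ω s t) else 0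
  let ψ : Γ → ℝ := fun t => if 0 < ω s t then 2 * ω s t else 0
  let D : Γ → Γ → ℝ := fun t t' =>
    ((SimpleGraph.mulCayley (S : Set Γ)).dist (1 * t) (1 * s * t') : ℝ) - (1 - l t + l t')
  have hD : ∀ t t', 0 ≤ D t t' ∧ (D t t' = 0 → φ t' - φ t + ψ t ≤ 0) := by
    intro t t'
    obtain ⟨p, hp⟩ := (cay_reach hsymm h1 hgen (1 * t) (1 * s * t')).exists_walk_length_eq_dist
    obtain ⟨w1, w2⟩ := walk _ _ p
    have e0 : (1 * t)⁻¹ * (1 * s * t') = t⁻¹ * (s * t') := by group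
    have e1 : l (t⁻¹ * (s * t')) = 1 - l t + l t' := by rw [lmul, lmul, linv, ls]; ring
    rw [e0, e1, hp] at w1 w2
    refine ⟨sub_nonneg.2 w1, fun h0 => ?_⟩
    obtain ⟨w3, w4⟩ := w2 (by simp only [D] at h0; linarith)
    have hm : ((SimpleGraph.mulCayley (S : Set Γ)).dist (1 * t) (1 * s * t') : ℝ) =
        1 - l t + l t' := by simp only [D] at h0; linarith
    rw [hm] at w3 w4
    have e2 : ω s t' = ω s t := by
      have := w3 s
      rw [hω1, hω1, i1, hω0, anti t s, anti t' s] at this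
      linarith
    have e3 := w3 t
    rw [hω1, hω1, i1, hω0] at e3
    rw [hc, hc, ci, i1, hω2, anti t s, anti t t', e2] at w4
    simp only [φ, ψ, e2]
    split_ifs with hw
    · nlinarith
    · simp
  obtain ⟨δ, hδ0, hδ⟩ : ∃ δ : ℝ, 0 < δ ∧ ∀ p ∈ S ×ˢ S,
      δ * (φ p.2 - φ p.1 + ψ p.1) ≤ D p.1 p.2 := by
    have : ∀ᶠ δ in nhdsWithin (0 : ℝ) (Set.Ioi 0), ∀ p ∈ S ×ˢ S,
        δ * (φ p.2 - φ p.1 + ψ p.1) ≤ D p.1 p.2 := by
      rw [Filter.eventually_all_finset]
      intro p _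
      rcases (hD p.1 p.2).1.eq_or_lt with h | h
      · filter_upwards [self_mem_nhdsWithin] with δ hδ
        have a1 := (hD p.1 p.2).2 h.symm
        have a2 : 0 < δ := hδ
        rw [← h]
        nlinarith
      · have hc : Filter.Tendsto (fun δ : ℝ => δ * (φ p.2 - φ p.1 + ψ p.1)) (nhds 0) (nhds 0) := by
          simpa using (continuous_mul_const (φ p.2 - φ p.1 + ψ p.1)).tendsto (0 : ℝ)
        exact ((hc.eventually (gt_mem_nhds h)).filter_mono nhdsWithin_le_nhds).mono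
          fun δ hδ => hδ.le
    obtain ⟨δ, h2, h3⟩ := (this.and self_mem_nhdsWithin).exists
    exact ⟨δ, h3, h2⟩
  refine ⟨s, hsS, neg_of_gap hsymm h1 1 s hsS (fun t => 1 - l t - δ * φ t + δ * ψ t)
    (fun t => l t + δ * φ t) (fun t ht t' ht' => ?_) ?_⟩
  · have := hδ (t, t') (Finset.mem_product.2 ⟨ht, ht'⟩)
    simp only [D] at this
    linarith
  · have e : ∀ t ∈ S, (1 - l t - δ * φ t + δ * ψ t + (l t + δ * φ t)) = 1 + δ * ψ t :=
      fun t _ => by ring
    rw [Finset.sum_congr rfl e, Finset.sum_add_distrib, ← Finset.mul_sum]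
    have : 0 < ∑ t ∈ S, ψ t := by
      refine Finset.sum_pos' (fun t _ => ?_) ⟨t0, ht0, ?_⟩
      · simp only [ψ]
        split_ifs with h
        · linarith
        · exact le_rfl
      · simp only [ψ, if_pos ht0']
        linarith
    simp only [Finset.sum_const, nsmul_eq_mul, mul_one]
    nlinarith

end cayley

theorem heis (S : Finset Heis) (hsymm : ∀ s ∈ S, s⁻¹ ∈ S) (h1 : (1 : Heis) ∉ S)
    (hgen : Subgroup.closure (S : Set Heis) = ⊤) :
    ∃ x y : Heis, (SimpleGraph.mulCayley (S : Set Heis)).Adj x y ∧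
      kappa (SimpleGraph.mulCayley (S : Set Heis)) x y < 0 := by
  have m1 : ∀ a b : Heis, (a * b).1 0 1 = a.1 0 1 + b.1 0 1 := by
    rintro ⟨A, a1, a2, a3, a4, a5, a6⟩ ⟨B, b1, b2, b3, b4, b5, b6⟩
    simp [Matrix.mul_apply, Fin.sum_univ_three, *]
    ring
  have m2 : ∀ a b : Heis, (a * b).1 1 2 = a.1 1 2 + b.1 1 2 := by
    rintro ⟨A, a1, a2, a3, a4, a5, a6⟩ ⟨B, b1, b2, b3, b4, b5, b6⟩
    simp [Matrix.mul_apply, Fin.sum_univ_three, *]
    ring
  have m3 : ∀ a b : Heis, (a * b).1 0 2 = a.1 0 2 + b.1 0 2 + a.1 0 1 * b.1 1 2 := by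
    rintro ⟨A, a1, a2, a3, a4, a5, a6⟩ ⟨B, b1, b2, b3, b4, b5, b6⟩
    simp [Matrix.mul_apply, Fin.sum_univ_three, *]
    ring
  obtain ⟨s, hs, h⟩ := core hsymm h1 hgen
    (fun a b => (a.1 0 1 : ℝ) * b.1 1 2 - (a.1 1 2 : ℝ) * b.1 0 1)
    (fun a => 2 * (a.1 0 2 : ℝ) - (a.1 0 1 : ℝ) * a.1 1 2)
    (fun a b x => by rw [m1, m2]; push_cast; ring)
    (fun a b x => by rw [m1, m2]; push_cast; ring)
    (fun a => by ring)
    (fun a b => by rw [m1, m2, m3]; push_cast; ring)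
    ⟨⟨⟨!![1, 1, 0; 0, 1, 0; 0, 0, 1], by simp [Matrix.det_fin_three]⟩, by simp [Heis]⟩,
      ⟨⟨!![1, 0, 0; 0, 1, 1; 0, 0, 1], by simp [Matrix.det_fin_three]⟩, by simp [Heis]⟩, by simp⟩
  exact ⟨1, 1 * s, (cay_adj hsymm h1 _ _).2 (by simpa using hs), h⟩

end Pool.Agent.H700Z.OR
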