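import Mathlib

namespace Pool.Agent.H700Z.OR

open Classical in
/-- the uniform probability measure on the neighbours of `x` (as a mass function) -/
noncomputable def nbrMeasure {V : Type*} (G : SimpleGraph V) (x : V) : V → ℝ :=
  fun y => if G.Adj x y then 1 / ((G.neighborSet x).ncard : ℝ) else 0

/-- `π` is a coupling of the finitely supported mass functions `μ` and `ν` -/
def IsCoupling {V : Type*} (μ ν : V → ℝ) (π : V × V →₀ ℝ) : Prop :=
  (∀ p, 0 ≤ π p) ∧ ⇑(π.mapDomain Prod.fst) = μ ∧ ⇑(π.mapDomain Prod.snd) = ν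

/-- the `L¹` Wasserstein distance with respect to the graph metric -/
noncomputable def W1 {V : Type*} (G : SimpleGraph V) (μ ν : V → ℝ) : ℝ :=
  sInf {c : ℝ | ∃ π : V × V →₀ ℝ, IsCoupling μ ν π ∧
    c = π.sum fun p w => w * (G.dist p.1 p.2 : ℝ)}

/-- the Ollivier-Ricci curvature of two vertices -/
noncomputable def kappa {V : Type*} (G : SimpleGraph V) (x y : V) : ℝ :=
  1 - W1 G (nbrMeasure G x) (nbrMeasure G y) / (G.dist x y : ℝ)

/-- the discrete Heisenberg group: upper triangular integer matrices with unit diagonal -/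
def Heis : Subgroup (Matrix.SpecialLinearGroup (Fin 3) ℤ) where
  carrier := {A | A 0 0 = 1 ∧ A 1 1 = 1 ∧ A 2 2 = 1 ∧ A 1 0 = 0 ∧ A 2 0 = 0 ∧ A 2 1 = 0}
  mul_mem' := by
    rintro A B ⟨a1, a2, a3, a4, a5, a6⟩ ⟨b1, b2, b3, b4, b5, b6⟩
    simp [Matrix.mul_apply, Fin.sum_univ_three, *]
  one_mem' := by simp
  inv_mem' := by
    rintro A ⟨a1, a2, a3, a4, a5, a6⟩
    simp [Matrix.SpecialLinearGroup.coe_inv, Matrix.adjugate_fin_three, *]

end Pool.Agent.H700Z.OR
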