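import Mathlib

set_option maxHeartbeats 400000

namespace Pool.Agent.H700Z.Pac

open MvPolynomial

/-- countable subfields of `ℂ` in which `2, 3, 6` are not squares -/
def Good (F : Subfield ℂ) : Prop :=
  (F : Set ℂ).Countable ∧ ∀ x ∈ F, x ^ 2 ≠ 2 ∧ x ^ 2 ≠ 3 ∧ x ^ 2 ≠ 6

/-- finite polynomial systems over `ℂ` -/
abbrev Sys : Type := Σ n : ℕ, Finset (MvPolynomial (Fin n) ℂ)

def Over (F : Subfield ℂ) (S : Sys) : Prop := ∀ p ∈ S.2, ∀ m, coeff m p ∈ F

def Sol (F : Subfield ℂ) (S : Sys) : Prop :=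
  ∃ x : Fin S.1 → ℂ, (∀ i, x i ∈ F) ∧ ∀ p ∈ S.2, eval x p = 0

theorem Sol.mono {F F' : Subfield ℂ} {S : Sys} (h : F ≤ F') (hs : Sol F S) : Sol F' S := by
  obtain ⟨x, hx, hp⟩ := hs
  exact ⟨x, fun i => h (hx i), hp⟩

theorem good_iSup (F : ℕ → Subfield ℂ) (hm : Monotone F) (hg : ∀ k, Good (F k)) :
    Good (⨆ k, F k) := by
  have hd : Directed (· ≤ ·) F := hm.directed_le
  constructor
  · rw [Subfield.coe_iSup_of_directed hd]
    exact Set.countable_iUnion fun k => (hg k).1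
  · intro x hx
    obtain ⟨k, hk⟩ := (Subfield.mem_iSup_of_directed hd).1 hx
    exact (hg k).2 x hk

theorem countable_poly (F : Subfield ℂ) (hF : (F : Set ℂ).Countable) (n : ℕ) :
    {p : MvPolynomial (Fin n) ℂ | ∀ m, coeff m p ∈ F}.Countable := by
  have : Countable F := hF.to_subtype
  have hc : Countable (MvPolynomial (Fin n) F) := by
    rw [← Cardinal.mk_le_aleph0_iff]
    refine MvPolynomial.cardinalMk_le_max.trans ?_
    simp only [sup_le_iff, le_refl, and_true]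
    exact ⟨Cardinal.mk_le_aleph0, Cardinal.mk_le_aleph0⟩
  refine (Set.countable_range (MvPolynomial.map (σ := Fin n) F.subtype)).mono ?_
  intro p hp
  rw [MvPolynomial.mem_range_map_iff_coeffs_subset]
  intro c hc
  obtain ⟨m, -, rfl⟩ := MvPolynomial.mem_coeffs_iff.1 hc
  exact ⟨⟨_, hp m⟩, rfl⟩

theorem countable_over (F : Subfield ℂ) (hF : (F : Set ℂ).Countable) :
    {S : Sys | Over F S}.Countable := by
  have h1 : ∀ n : ℕ, {s : Finset (MvPolynomial (Fin n) ℂ) | ∀ p ∈ s, ∀ m, coeff m p ∈ F}.Countable := by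
    intro n
    have := Set.countable_ofPred_finite_subset (countable_poly F hF n)
    refine (this.preimage_of_injOn (f := fun s : Finset (MvPolynomial (Fin n) ℂ) =>
      (s : Set (MvPolynomial (Fin n) ℂ))) (Finset.coe_injective.injOn)).mono ?_
    intro s hs
    exact ⟨s.finite_toSet, fun p hp => hs p hp⟩
  have h2 : {S : Sys | Over F S} ⊆ ⋃ n : ℕ, (fun s => (⟨n, s⟩ : Sys)) ''
      {s : Finset (MvPolynomial (Fin n) ℂ) | ∀ p ∈ s, ∀ m, coeff m p ∈ F} := by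
    rintro ⟨n, s⟩ hS
    exact Set.mem_iUnion.2 ⟨n, s, hS, rfl⟩
  exact (Set.countable_iUnion fun n => (h1 n).image _).mono h2

theorem step (F : Subfield ℂ) (hF : Good F) (S : Sys) :
    ∃ F', Good F' ∧ F ≤ F' ∧ ((∃ F'', Good F'' ∧ F' ≤ F'' ∧ Sol F'' S) → Sol F' S) := by
  by_cases h : ∃ F'', Good F'' ∧ F ≤ F'' ∧ Sol F'' S
  · obtain ⟨F'', h1, h2, h3⟩ := h
    exact ⟨F'', h1, h2, fun _ => h3⟩
  · exact ⟨F, hF, le_rfl, fun h' => (h h').elim⟩

theorem star (F : Subfield ℂ) (hF : Good F) :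
    ∃ F', Good F' ∧ F ≤ F' ∧
      ∀ S, Over F S → (∃ F'', Good F'' ∧ F' ≤ F'' ∧ Sol F'' S) → Sol F' S := by
  have hne : {S : Sys | Over F S}.Nonempty := ⟨⟨0, ∅⟩, fun p hp => by simp at hp⟩
  obtain ⟨e, he⟩ := (countable_over F hF.1).exists_eq_range hne
  choose st hst using step
  let G : ℕ → {F // Good F} := fun k => Nat.rec ⟨F, hF⟩
    (fun k A => ⟨st A.1 A.2 (e k), (hst A.1 A.2 (e k)).1⟩) k
  have hG : ∀ k, (G (k + 1)).1 = st (G k).1 (G k).2 (e k) := fun k => rfl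
  have hm : Monotone fun k => (G k).1 := monotone_nat_of_le_succ fun k => by
    rw [hG]; exact (hst _ _ _).2.1
  refine ⟨⨆ k, (G k).1, good_iSup _ hm fun k => (G k).2, le_iSup (fun k => (G k).1) 0, ?_⟩
  intro S hS ⟨F'', h1, h2, h3⟩
  have : S ∈ Set.range e := he ▸ hS
  obtain ⟨k, rfl⟩ := this
  have hle : (G (k + 1)).1 ≤ ⨆ k, (G k).1 := le_iSup (fun k => (G k).1) (k + 1)
  refine Sol.mono hle ?_
  rw [hG] at hle ⊢
  exact (hst _ _ _).2.2 ⟨F'', h1, hle.trans h2, h3⟩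

theorem rat_sq_ne (q : ℚ) (n : ℕ) (hn : ¬ IsSquare n) : q ^ 2 ≠ n := by
  intro h
  apply hn
  rw [← Rat.isSquare_natCast_iff]
  exact ⟨q, by rw [← h]; ring⟩

theorem good_bot : Good (algebraMap ℚ ℂ).fieldRange := by
  constructor
  · exact Set.countable_range (algebraMap ℚ ℂ)
  · rintro x ⟨q, rfl⟩
    have key : ∀ n : ℕ, ¬ IsSquare n → (algebraMap ℚ ℂ q) ^ 2 ≠ n := by
      intro n hn h
      apply rat_sq_ne q n hn
      apply (algebraMap ℚ ℂ).injective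
      rw [map_pow, h, map_natCast]
    refine ⟨?_, ?_, ?_⟩
    · exact_mod_cast key 2 (by norm_num)
    · exact_mod_cast key 3 (by norm_num)
    · exact_mod_cast key 6 (by norm_num)

theorem exists_ec : ∃ K, Good K ∧
    ∀ S, Over K S → (∃ F'', Good F'' ∧ K ≤ F'' ∧ Sol F'' S) → Sol K S := by
  choose st hst using star
  let G : ℕ → {F // Good F} := fun k => Nat.rec ⟨_, good_bot⟩
    (fun _ A => ⟨st A.1 A.2, (hst A.1 A.2).1⟩) k
  have hG : ∀ k, (G (k + 1)).1 = st (G k).1 (G k).2 := fun k => rfl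
  have hm : Monotone fun k => (G k).1 := monotone_nat_of_le_succ fun k => by
    rw [hG]; exact (hst _ _).2.1
  have hd : Directed (· ≤ ·) fun k => (G k).1 := hm.directed_le
  refine ⟨⨆ k, (G k).1, good_iSup _ hm fun k => (G k).2, ?_⟩
  intro S hS ⟨F'', h1, h2, h3⟩
  have hk : ∃ k, Over (G k).1 S := by
    classical
    let T : Finset ℂ := S.2.biUnion fun p => p.coeffs
    have hT : ∀ c ∈ T, ∃ k, c ∈ (G k).1 := by
      intro c hc
      obtain ⟨p, hp, hc⟩ := Finset.mem_biUnion.1 hc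
      obtain ⟨m, -, rfl⟩ := MvPolynomial.mem_coeffs_iff.1 hc
      exact (Subfield.mem_iSup_of_directed hd).1 (hS p hp m)
    choose! κ hκ using hT
    refine ⟨T.sup κ, fun p hp m => ?_⟩
    by_cases h0 : coeff m p = 0
    · rw [h0]; exact zero_mem _
    · have hc : coeff m p ∈ T := Finset.mem_biUnion.2 ⟨p, hp,
        MvPolynomial.coeff_mem_coeffs m h0⟩
      exact hm (Finset.le_sup (f := κ) hc) (hκ _ hc)
  obtain ⟨k, hk⟩ := hk
  have hle : (G (k + 1)).1 ≤ ⨆ k, (G k).1 := le_iSup (fun k => (G k).1) (k + 1)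
  refine Sol.mono hle ?_
  rw [hG] at hle ⊢
  exact (hst _ _).2.2 S hk ⟨F'', h1, hle.trans h2, h3⟩

end Pool.Agent.H700Z.Pac
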