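import Pool.Agent.H700Z.Pac1

set_option maxHeartbeats 400000

namespace Pool.Agent.H700Z.Pac

open MvPolynomial Cardinal

theorem exists_embed (K L : Type) [Field K] [Field L] [Algebra K L] [Algebra K ℂ] [Countable L] :
    Nonempty (L →ₐ[K] ℂ) := by
  obtain ⟨ι, v, hv⟩ := exists_isTranscendenceBasis' K L
  obtain ⟨κ, w, hw⟩ := exists_isTranscendenceBasis' K ℂ
  have hK : Countable K := (algebraMap K L).injective.countable
  have hC : ℵ₀ < #ℂ := by rw [Cardinal.mk_complex]; exact aleph0_lt_continuum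
  have hκ : #ℂ = #κ :=
    IsAlgClosed.cardinal_eq_cardinal_transcendence_basis_of_aleph0_lt' w hw mk_le_aleph0 hC
  have hι : Countable ι := hv.1.injective.countable
  obtain ⟨e⟩ : Nonempty (ι ↪ κ) := by
    rw [← Cardinal.le_def, ← hκ]; exact mk_le_aleph0.trans hC.le
  have hw' : AlgebraicIndependent K (w ∘ e) := hw.1.comp e e.injective
  let A := Algebra.adjoin K (Set.range v)
  let φ : A →ₐ[K] ℂ := (aeval (w ∘ e)).comp hv.1.aevalEquiv.symm.toAlgHom
  have hφ : Function.Injective φ := by
    have h1 : Function.Injective (aeval (w ∘ e) : MvPolynomial ι K →ₐ[K] ℂ) := hw'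
    exact h1.comp hv.1.aevalEquiv.symm.injective
  let _ : Algebra A ℂ := φ.toRingHom.toAlgebra
  have : IsScalarTower K A ℂ := IsScalarTower.of_algebraMap_eq fun x => (φ.commutes x).symm
  have : Algebra.IsAlgebraic A L := hv.isAlgebraic
  have : FaithfulSMul A ℂ := (faithfulSMul_iff_algebraMap_injective A ℂ).2 hφ
  exact ⟨(IsAlgClosed.lift (R := A) (S := L) (M := ℂ)).restrictScalars K⟩

theorem exists_point (K : Subfield ℂ) (hK : Good K)
    (hec : ∀ S, Over K S → (∃ F'', Good F'' ∧ K ≤ F'' ∧ Sol F'' S) → Sol K S)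
    (R : Type) [CommRing R] [IsDomain R] [Algebra K R] [Algebra.FiniteType K R]
    (hR : ∀ x : FractionRing R, x ^ 2 ≠ 2 ∧ x ^ 2 ≠ 3 ∧ x ^ 2 ≠ 6) :
    Nonempty (R →ₐ[K] K) := by
  classical
  have hfp : Algebra.FinitePresentation K R := Algebra.FinitePresentation.of_finiteType.1 ‹_›
  obtain ⟨n, π, hπ, s, hs⟩ := hfp.out
  have : Countable K := hK.1.to_subtype
  have hc : Countable (MvPolynomial (Fin n) K) := by
    rw [← Cardinal.mk_le_aleph0_iff]
    refine MvPolynomial.cardinalMk_le_max.trans ?_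
    simp only [sup_le_iff, le_refl, and_true]
    exact ⟨Cardinal.mk_le_aleph0, Cardinal.mk_le_aleph0⟩
  have hRc : Countable R := hπ.countable
  have hL : Countable (FractionRing R) := by
    rw [← Cardinal.mk_le_aleph0_iff, Cardinal.mk_fractionRing]
    exact Cardinal.mk_le_aleph0
  obtain ⟨φ⟩ := exists_embed K (FractionRing R)
  let S : Sys := ⟨n, s.image (MvPolynomial.map K.subtype)⟩
  have hS : Over K S := by
    intro p hp m
    obtain ⟨q, -, rfl⟩ := Finset.mem_image.1 hp
    rw [coeff_map]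
    exact (coeff m q).2
  let ψ : MvPolynomial (Fin n) K →ₐ[K] ℂ :=
    φ.comp ((IsScalarTower.toAlgHom K R (FractionRing R)).comp π)
  have hsol : Sol K S := by
    refine hec S hS ⟨φ.toRingHom.fieldRange, ⟨?_, ?_⟩, ?_, fun i => ψ (X i), ?_, ?_⟩
    · exact Set.countable_range φ
    · rintro x ⟨y, rfl⟩
      have h := hR y
      refine ⟨fun h' => h.1 (φ.toRingHom.injective ?_), fun h' => h.2.1 (φ.toRingHom.injective ?_),
        fun h' => h.2.2 (φ.toRingHom.injective ?_)⟩ <;> rw [map_pow, h', map_ofNat]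
    · intro x hx
      exact ⟨algebraMap K _ (⟨x, hx⟩ : K), φ.commutes _⟩
    · intro i
      exact ⟨_, rfl⟩
    · intro p hp
      obtain ⟨q, hq, rfl⟩ := Finset.mem_image.1 hp
      have h1 : eval (fun i => ψ (X i)) (MvPolynomial.map K.subtype q) = ψ q := by
        rw [eval_map]
        conv_rhs => rw [aeval_unique ψ]
        rfl
      have h2 : π q = 0 := by
        have : q ∈ RingHom.ker π.toRingHom := hs ▸ Ideal.subset_span hq
        exact this
      rw [h1]
      simp [ψ, h2]
  obtain ⟨x, hx, hp⟩ := hsol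
  let y : Fin n → K := fun i => ⟨x i, hx i⟩
  have hy : ∀ q ∈ RingHom.ker π.toRingHom, (aeval y : MvPolynomial (Fin n) K →ₐ[K] K) q = 0 := by
    have : RingHom.ker π.toRingHom ≤
        RingHom.ker (aeval y : MvPolynomial (Fin n) K →ₐ[K] K).toRingHom := by
      rw [← hs, Ideal.span_le]
      intro q hq
      have h1 := hp _ (Finset.mem_image_of_mem _ hq)
      have h2 : eval x (MvPolynomial.map K.subtype q) = K.subtype (eval y q) := by
        rw [eval_map, ← eval₂_id, eval₂_comp_left]
        rfl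
      rw [h2] at h1
      have h3 : eval y q = 0 := K.subtype.injective (by rw [h1, map_zero])
      simpa using h3
    exact fun q hq => this hq
  exact ⟨(Ideal.Quotient.liftₐ _ (aeval y) hy).comp
    (Ideal.quotientKerAlgEquivOfSurjective hπ).symm.toAlgHom⟩

end Pool.Agent.H700Z.Pac
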