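import Pool.Agent.H700Z.Pac2

set_option maxHeartbeats 400000

namespace Pool.Agent.H700Z.Pac

open TensorProduct AlgebraicGeometry CategoryTheory Limits

theorem sq_ne_of_domain (K R : Type) [Field K] [CommRing R] [IsDomain R] [Algebra K R]
    [Algebra K ℂ] [IsDomain (R ⊗[K] ℂ)] (d : ℕ) (hd : ∀ x : K, x ^ 2 ≠ d)
    (x : FractionRing R) : x ^ 2 ≠ d := by
  intro hx
  obtain ⟨u, v, hv, rfl⟩ := IsFractionRing.div_surjective (A := R) x
  have hv0 : v ≠ 0 := nonZeroDivisors.ne_zero hv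
  have hv1 : algebraMap R (FractionRing R) v ≠ 0 := by
    simpa using hv0
  have huv : u ^ 2 = d * v ^ 2 := by
    apply IsFractionRing.injective R (FractionRing R)
    rw [div_pow, div_eq_iff (pow_ne_zero 2 hv1)] at hx
    simpa using hx
  have key : ∀ b : ℂ, b ^ 2 = d → (u ⊗ₜ[K] (1 : ℂ) : R ⊗[K] ℂ) ≠ v ⊗ₜ[K] b := by
    intro b hb h
    have hnot : b ∉ Submodule.span K {(1 : ℂ)} := by
      intro hm
      obtain ⟨c, hc⟩ := Submodule.mem_span_singleton.1 hm
      apply hd c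
      apply (algebraMap K ℂ).injective
      rw [map_pow, map_natCast, ← hb, ← hc, Algebra.smul_def, mul_one]
    obtain ⟨l, hl, hle⟩ := Submodule.exists_le_ker_of_notMem hnot
    have h1 : l 1 = 0 := hle (Submodule.mem_span_singleton_self _)
    have h2 := congrArg (fun t => TensorProduct.rid K R (LinearMap.lTensor R l t)) h
    simp only [LinearMap.lTensor_tmul, h1, TensorProduct.rid_tmul, zero_smul] at h2
    have h3 : v = 0 := by
      have := congrArg (fun t => (l b)⁻¹ • t) h2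
      simp only [smul_zero, smul_smul, inv_mul_cancel₀ hl, one_smul] at this
      exact this.symm
    exact hv0 h3
  obtain ⟨a, ha⟩ := IsAlgClosed.exists_pow_nat_eq (d : ℂ) (n := 2) (by norm_num)
  have hprod : ((u ⊗ₜ[K] (1 : ℂ) : R ⊗[K] ℂ) - v ⊗ₜ[K] a) *
      ((u ⊗ₜ[K] (1 : ℂ) : R ⊗[K] ℂ) - v ⊗ₜ[K] (-a)) = 0 := by
    rw [TensorProduct.tmul_neg, sub_neg_eq_add, mul_comm, ← sq_sub_sq,
      Algebra.TensorProduct.tmul_pow, Algebra.TensorProduct.tmul_pow, huv, ha, one_pow,
      ← nsmul_eq_mul, ← TensorProduct.smul_tmul', ← TensorProduct.tmul_smul, nsmul_eq_mul,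
      mul_one, sub_self]
  rcases mul_eq_zero.1 hprod with h | h
  · exact key a ha (sub_eq_zero.1 h)
  · exact key (-a) (by rw [neg_sq, ha]) (sub_eq_zero.1 h)

theorem domain_of_geom (K : Type) [Field K] (X : Scheme.{0}) (f : X ⟶ Spec (.of K))
    [GeometricallyIntegral f] (R : Type) [CommRing R] [Nontrivial R] [Algebra K R]
    (ι : Spec (.of R) ⟶ X) [IsOpenImmersion ι]
    (h : ι ≫ f = Spec.map (CommRingCat.ofHom (algebraMap K R)))
    (L : Type) [Field L] [Algebra K L] : IsDomain (R ⊗[K] L) := by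
  let y : Spec (.of L) ⟶ Spec (.of K) := Spec.map (CommRingCat.ofHom (algebraMap K L))
  have h1 : IsIntegral (pullback f y) :=
    pullback_of_geometrically (GeometricallyIntegral.geometrically_isIntegral (f := f)) L y
  let e : pullback ι (pullback.fst f y) ≅ Spec (.of (R ⊗[K] L)) :=
    (pullbackRightPullbackFstIso f y ι).trans
      ((pullback.congrHom h rfl).trans (pullbackSpecIso K R L))
  have h2 : Nonempty (Spec (CommRingCat.of (R ⊗[K] L))) := inferInstance
  have h3 : IsIntegral (Spec (CommRingCat.of (R ⊗[K] L))) :=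
    isIntegral_of_isOpenImmersion (e.inv ≫ pullback.snd ι (pullback.fst f y))
  exact (affine_isIntegral_iff _).1 h3

theorem pac (K : Subfield ℂ) (hK : Good K)
    (hec : ∀ S, Over K S → (∃ F'', Good F'' ∧ K ≤ F'' ∧ Sol F'' S) → Sol K S)
    (X : Scheme.{0}) (f : X ⟶ Spec (.of K)) [LocallyOfFiniteType f] [GeometricallyIntegral f] :
    ∃ s : Spec (.of K) ⟶ X, s ≫ f = 𝟙 _ := by
  have hX : IsIntegral X := GeometricallyIntegral.isIntegral_of_subsingleton f
  obtain ⟨x⟩ : Nonempty X := inferInstance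
  obtain ⟨R, ι, hι, y, -⟩ : ∃ (R : CommRingCat.{0}) (ι : Spec R ⟶ X), IsOpenImmersion ι ∧
      ∃ y : Spec R, ι y = x := by
    exact ⟨_, X.affineOpenCover.f (X.affineOpenCover.idx x), inferInstance,
      X.affineOpenCover.covers x⟩
  have : Nonempty (Spec R) := ⟨y⟩
  have hR : IsIntegral (Spec R) := isIntegral_of_isOpenImmersion ι
  have hR' : IsDomain R := (affine_isIntegral_iff R).1 hR
  obtain ⟨φ, hφ⟩ := Spec.map_surjective (ι ≫ f)
  have hft : φ.hom.FiniteType := by
    have : LocallyOfFiniteType (Spec.map φ) := hφ ▸ inferInstance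
    exact (HasRingHomProperty.Spec_iff (P := @LocallyOfFiniteType)).1 this
  algebraize [φ.hom]
  have hdom : IsDomain (R ⊗[K] ℂ) := domain_of_geom K X f R ι hφ.symm ℂ
  have hsq : ∀ d : ℕ, (∀ x ∈ K, x ^ 2 ≠ d) → ∀ z : FractionRing R, z ^ 2 ≠ d := by
    intro d hd z
    refine sq_ne_of_domain K R d (fun c hc => hd c c.2 ?_) z
    have := congrArg K.subtype hc
    simpa using this
  obtain ⟨ψ⟩ := exists_point K hK hec R fun z =>
    ⟨by exact_mod_cast hsq 2 (fun x hx => by exact_mod_cast (hK.2 x hx).1) z,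
     by exact_mod_cast hsq 3 (fun x hx => by exact_mod_cast (hK.2 x hx).2.1) z,
     by exact_mod_cast hsq 6 (fun x hx => by exact_mod_cast (hK.2 x hx).2.2) z⟩
  refine ⟨Spec.map (CommRingCat.ofHom ψ.toRingHom) ≫ ι, ?_⟩
  rw [Category.assoc, ← hφ, ← Spec.map_comp, ← Spec.map_id]
  congr 1
  ext1
  exact ψ.comp_algebraMap

end Pool.Agent.H700Z.Pac
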