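import Pool.Agent.H700Z.Pac3

set_option maxHeartbeats 400000

namespace Pool.Agent.H700Z.Pac

theorem not_procyclic (K : Type) [Field K] [CharZero K]
    (hK : ∀ x : K, x ^ 2 ≠ 2 ∧ x ^ 2 ≠ 3 ∧ x ^ 2 ≠ 6) :
    ¬ ∃ g : SeparableClosure K ≃ₐ[K] SeparableClosure K,
      (Subgroup.zpowers g).topologicalClosure = ⊤ := by
  rintro ⟨g, hg⟩
  have hchar : CharZero (SeparableClosure K) :=
    charZero_of_injective_algebraMap (algebraMap K _).injective
  have key : ∀ (c : SeparableClosure K) (d : ℕ), (∀ x : K, x ^ 2 ≠ d) → c ^ 2 = d → g c ≠ c := by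
    intro c d hd hc hgc
    have hopen := stabilizer_isOpen_of_isIntegral (K := K) c
    have hclosed := Subgroup.isClosed_of_isOpen _ hopen
    have hle : (Subgroup.zpowers g).topologicalClosure ≤
        MulAction.stabilizer (SeparableClosure K ≃ₐ[K] SeparableClosure K) c :=
      Subgroup.topologicalClosure_minimal _ ((Subgroup.zpowers_le_of_mem hgc)) hclosed
    rw [hg] at hle
    obtain ⟨x, hx⟩ := (InfiniteGalois.mem_range_algebraMap_iff_fixed (k := K) c).2
      fun σ => hle (Subgroup.mem_top σ)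
    apply hd x
    apply (algebraMap K (SeparableClosure K)).injective
    rw [map_pow, hx, hc, map_natCast]
  obtain ⟨a, ha⟩ := IsSepClosed.exists_pow_nat_eq (2 : SeparableClosure K) 2
  obtain ⟨b, hb⟩ := IsSepClosed.exists_pow_nat_eq (3 : SeparableClosure K) 2
  have h2 := key a 2 (fun x => by exact_mod_cast (hK x).1) (by exact_mod_cast ha)
  have h3 := key b 3 (fun x => by exact_mod_cast (hK x).2.1) (by exact_mod_cast hb)
  have h6 := key (a * b) 6 (fun x => by exact_mod_cast (hK x).2.2)
    (by rw [mul_pow, ha, hb]; norm_num)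
  have ga : g a = -a := by
    have : (g a) ^ 2 = a ^ 2 := by rw [← map_pow, ha, map_ofNat]
    exact (sq_eq_sq_iff_eq_or_eq_neg.1 this).resolve_left h2
  have gb : g b = -b := by
    have : (g b) ^ 2 = b ^ 2 := by rw [← map_pow, hb, map_ofNat]
    exact (sq_eq_sq_iff_eq_or_eq_neg.1 this).resolve_left h3
  exact h6 (by rw [map_mul, ga, gb, neg_mul_neg])

end Pool.Agent.H700Z.Pac
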