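import Mathlib

open Filter Topology

set_option linter.unusedSectionVars false

namespace Pool.Agent.H700Z.Pel

/-- `e` is a monotone basis of the whole space -/
def MonoBasis {B : Type} [NormedAddCommGroup B] [NormedSpace ℝ B] (e : ℕ → B) : Prop :=
  (∀ x : B, ∃! a : ℕ → ℝ,
    Tendsto (fun n : ℕ => ∑ i ∈ Finset.range n, a i • e i) atTop (𝓝 x)) ∧
  (∀ (a : ℕ → ℝ) (n m : ℕ), n ≤ m →
    ‖∑ i ∈ Finset.range n, a i • e i‖ ≤ ‖∑ i ∈ Finset.range m, a i • e i‖)

variable {X : Type} [NormedAddCommGroup X] [NormedSpace ℝ X]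

/-- partial sums -/
def S (x : ℕ → X) (a : ℕ → ℝ) (n : ℕ) : X := ∑ i ∈ Finset.range n, a i • x i

lemma S_succ (x : ℕ → X) (a : ℕ → ℝ) (n : ℕ) : S x a (n + 1) = S x a n + a n • x n :=
  Finset.sum_range_succ _ _

/-- the space of convergent sequences of partial sums -/
def Bs (x : ℕ → X) : Submodule ℝ C(OnePoint ℕ, X) where
  carrier := {g | g ((0 : ℕ) : OnePoint ℕ) = 0 ∧
    ∀ n : ℕ, g ((n + 1 : ℕ) : OnePoint ℕ) - g (n : OnePoint ℕ) ∈ Submodule.span ℝ {x n}}
  add_mem' := by
    rintro g h ⟨g1, g2⟩ ⟨h1, h2⟩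
    refine ⟨by simp [g1, h1], fun n => ?_⟩
    have := Submodule.add_mem _ (g2 n) (h2 n)
    convert this using 1
    simp only [ContinuousMap.add_apply]
    abel
  zero_mem' := ⟨rfl, fun n => by simp⟩
  smul_mem' := by
    rintro c g ⟨g1, g2⟩
    refine ⟨by simp [g1], fun n => ?_⟩
    have := Submodule.smul_mem _ c (g2 n)
    convert this using 1
    simp only [ContinuousMap.smul_apply, smul_sub]

lemma isClosed_Bs (x : ℕ → X) : IsClosed (Bs x : Set C(OnePoint ℕ, X)) := by
  have : (Bs x : Set C(OnePoint ℕ, X)) = {g | g ((0 : ℕ) : OnePoint ℕ) = 0} ∩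
      ⋂ n : ℕ, (fun g : C(OnePoint ℕ, X) => g ((n + 1 : ℕ) : OnePoint ℕ) - g (n : OnePoint ℕ)) ⁻¹'
        (Submodule.span ℝ {x n} : Set X) := by
    ext g
    simp only [Set.mem_inter_iff, Set.mem_iInter]
    rfl
  rw [this]
  refine (isClosed_eq (continuous_eval_const _) continuous_const).inter (isClosed_iInter fun n => ?_)
  exact (Submodule.closed_of_finiteDimensional _).preimage
    ((continuous_eval_const _).sub (continuous_eval_const _))

/-- a convergent sequence as a continuous map -/
noncomputable def mk (f : ℕ → X) (y : X) (h : Tendsto f atTop (𝓝 y)) : C(OnePoint ℕ, X) :=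
  OnePoint.continuousMapMkNat f y h

@[simp] lemma mk_coe (f : ℕ → X) (y : X) (h : Tendsto f atTop (𝓝 y)) (n : ℕ) :
    mk f y h (n : OnePoint ℕ) = f n := rfl

@[simp] lemma mk_infty (f : ℕ → X) (y : X) (h : Tendsto f atTop (𝓝 y)) :
    mk f y h OnePoint.infty = y := rfl

lemma tendsto_infty (g : C(OnePoint ℕ, X)) :
    Tendsto (fun n : ℕ => g (n : OnePoint ℕ)) atTop (𝓝 (g OnePoint.infty)) := by
  have h1 : Tendsto (fun n : ℕ => (n : OnePoint ℕ)) atTop (𝓝 OnePoint.infty) := by
    have := OnePoint.tendsto_coe_infty (X := ℕ)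
    rwa [Filter.coclosedCompact_eq_cocompact, Filter.cocompact_eq_cofinite,
      Nat.cofinite_eq_atTop] at this
  exact (g.continuous.tendsto _).comp h1

/-- the basis vectors -/
noncomputable def e0 (x : ℕ → X) (j : ℕ) : C(OnePoint ℕ, X) :=
  mk (fun n => if j < n then x j else 0) (x j) (by
    refine tendsto_const_nhds.congr' ?_
    filter_upwards [eventually_gt_atTop j] with n hn
    simp [hn])

lemma e0_mem (x : ℕ → X) (j : ℕ) : e0 x j ∈ Bs x := by
  refine ⟨by simp [e0], fun n => ?_⟩
  simp only [e0, mk_coe]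
  rcases lt_trichotomy j n with h | h | h
  · have h' : j < n + 1 := by omega
    simp [h, h']
  · subst h
    simp
  · have h1 : ¬ j < n + 1 := by omega
    have h2 : ¬ j < n := by omega
    simp [h1, h2]

/-- the basis vectors in the subspace -/
noncomputable def e (x : ℕ → X) (j : ℕ) : Bs x := ⟨e0 x j, e0_mem x j⟩

lemma sum_coe (x : ℕ → X) (a : ℕ → ℝ) (m n : ℕ) :
    ((∑ i ∈ Finset.range m, a i • e x i : Bs x) : C(OnePoint ℕ, X)) (n : OnePoint ℕ) =
      S x a (min m n) := by
  induction m with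
  | zero => simp [S]
  | succ m ih =>
    rw [Finset.sum_range_succ, Submodule.coe_add, ContinuousMap.add_apply, ih]
    simp only [Submodule.coe_smul, ContinuousMap.smul_apply, e, e0, mk_coe]
    by_cases h : m < n
    · rw [if_pos h, min_eq_left h.le, min_eq_left (by omega), S_succ]
    · rw [if_neg h, min_eq_right (by omega), min_eq_right (by omega)]
      simp

lemma sum_infty (x : ℕ → X) (a : ℕ → ℝ) (m : ℕ) :
    ((∑ i ∈ Finset.range m, a i • e x i : Bs x) : C(OnePoint ℕ, X)) OnePoint.infty =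
      S x a m := by
  induction m with
  | zero => simp [S]
  | succ m ih =>
    rw [Finset.sum_range_succ, Submodule.coe_add, ContinuousMap.add_apply, ih]
    simp only [Submodule.coe_smul, ContinuousMap.smul_apply, e, e0, mk_infty, S_succ]

lemma monoBasis_e (x : ℕ → X) (hx : ∀ j, x j ≠ 0) : MonoBasis (e x) := by
  constructor
  · intro g
    have h2 := fun n => Submodule.mem_span_singleton.1 (g.2.2 n)
    choose a ha using h2
    have hS : ∀ n : ℕ, (g : C(OnePoint ℕ, X)) (n : OnePoint ℕ) = S x a n := by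
      intro n
      induction n with
      | zero => exact g.2.1.trans (by simp [S])
      | succ n ih => rw [S_succ, ← ih, ha n]; abel
    refine ⟨a, ?_, fun a' ha' => ?_⟩
    · beta_reduce
      rw [Metric.tendsto_atTop]
      intro ε hε
      have hL := tendsto_infty (g : C(OnePoint ℕ, X))
      rw [Metric.tendsto_atTop] at hL
      obtain ⟨N, hN⟩ := hL (ε / 3) (by positivity)
      refine ⟨N, fun m hm => ?_⟩
      rw [Subtype.dist_eq]
      refine lt_of_le_of_lt ((ContinuousMap.dist_le (C := 2 * ε / 3) (by positivity)).2 ?_)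
        (by linarith)
      intro k
      induction k using OnePoint.rec with
      | infty =>
        rw [sum_infty, ← hS]
        have := hN m hm
        linarith
      | coe k =>
        rw [sum_coe, ← hS]
        rcases le_total k m with h | h
        · rw [min_eq_right h, dist_self]
          positivity
        · rw [min_eq_left h]
          have h1 := hN m hm
          have h2 := hN k (hm.trans h)
          have := dist_triangle_right ((g : C(OnePoint ℕ, X)) (m : OnePoint ℕ))
            ((g : C(OnePoint ℕ, X)) (k : OnePoint ℕ)) ((g : C(OnePoint ℕ, X)) OnePoint.infty)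
          linarith
    · have hS' : ∀ n : ℕ, S x a' n = S x a n := by
        intro n
        have hc : Continuous fun h : Bs x => (h : C(OnePoint ℕ, X)) (n : OnePoint ℕ) :=
          (continuous_eval_const _).comp continuous_subtype_val
        have h1 := (hc.tendsto g).comp ha'
        have h2 : Tendsto (fun _ : ℕ => S x a' n) atTop
            (𝓝 ((g : C(OnePoint ℕ, X)) (n : OnePoint ℕ))) := by
          refine h1.congr' ?_
          filter_upwards [eventually_ge_atTop n] with m hm
          simp only [Function.comp]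
          rw [sum_coe, min_eq_right hm]
        rw [← hS]
        exact tendsto_nhds_unique tendsto_const_nhds h2
      funext n
      have h1 := hS' (n + 1)
      rw [S_succ, S_succ, hS' n, add_right_inj] at h1
      exact smul_left_injective ℝ (hx n) h1
  · intro a n m hnm
    rw [Submodule.coe_norm, Submodule.coe_norm, ContinuousMap.norm_le _ (norm_nonneg _)]
    intro k
    induction k using OnePoint.rec with
    | infty =>
      have h := ContinuousMap.norm_coe_le_norm
        ((∑ i ∈ Finset.range m, a i • e x i : Bs x) : C(OnePoint ℕ, X)) (n : OnePoint ℕ)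
      rw [sum_coe, min_eq_right hnm] at h
      rwa [sum_infty]
    | coe k =>
      have h := ContinuousMap.norm_coe_le_norm
        ((∑ i ∈ Finset.range m, a i • e x i : Bs x) : C(OnePoint ℕ, X))
          ((min n k : ℕ) : OnePoint ℕ)
      rw [sum_coe, min_eq_right ((min_le_left _ _).trans hnm)] at h
      rwa [sum_coe]

/-- evaluation at infinity -/
noncomputable def ev (x : ℕ → X) : Bs x →L[ℝ] X :=
  (ContinuousMap.evalCLM ℝ (OnePoint.infty : OnePoint ℕ)).comp (Bs x).subtypeL

lemma ev_apply (x : ℕ → X) (g : Bs x) : ev x g = (g : C(OnePoint ℕ, X)) OnePoint.infty := rfl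

lemma norm_ev_le (x : ℕ → X) (g : Bs x) : ‖ev x g‖ ≤ ‖g‖ := by
  rw [ev_apply, Submodule.coe_norm]
  exact ContinuousMap.norm_coe_le_norm _ _

theorem exists_embedding (x : ℕ → X) (φ : ℕ → X →ₗ[ℝ] ℝ)
    (hle : ∀ v n, ‖S x (fun j => φ j v) n‖ ≤ ‖v‖)
    (hlim : ∀ v, Tendsto (S x (fun j => φ j v)) atTop (𝓝 v)) :
    ∃ i : X →L[ℝ] Bs x, (∀ v, ev x (i v) = v) ∧ ∀ v, ‖i v‖ ≤ ‖v‖ := by
  let i0 : X → Bs x := fun v => ⟨mk (S x fun j => φ j v) v (hlim v), by
    refine ⟨by simp [S], fun n => ?_⟩
    simp only [mk_coe, S_succ, add_sub_cancel_left]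
    exact Submodule.mem_span_singleton.2 ⟨_, rfl⟩⟩
  let i1 : X →ₗ[ℝ] Bs x :=
    { toFun := i0
      map_add' := by
        intro v w
        apply Subtype.ext
        ext k
        induction k using OnePoint.rec with
        | infty => simp [i0]
        | coe k => simp [i0, S, add_smul, Finset.sum_add_distrib]
      map_smul' := by
        intro c v
        apply Subtype.ext
        ext k
        induction k using OnePoint.rec with
        | infty => simp [i0]
        | coe k => simp [i0, S, Finset.smul_sum, mul_smul] }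
  have hb : ∀ v, ‖i1 v‖ ≤ ‖v‖ := by
    intro v
    rw [Submodule.coe_norm, ContinuousMap.norm_le _ (norm_nonneg _)]
    intro k
    induction k using OnePoint.rec with
    | infty => exact le_rfl
    | coe k => exact hle v k
  exact ⟨i1.mkContinuous 1 (fun v => by simpa using hb v), fun v => rfl, hb⟩

theorem counter [CompleteSpace X] (hX : ¬ FiniteDimensional ℝ X) (x : ℕ → X) (hx : ∀ j, x j ≠ 0)
    (φ : ℕ → X →ₗ[ℝ] ℝ) (hle : ∀ v n, ‖S x (fun j => φ j v) n‖ ≤ ‖v‖)
    (hlim : ∀ v, Tendsto (S x (fun j => φ j v)) atTop (𝓝 v))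
    (H : ∀ (B : Type) [NormedAddCommGroup B] [NormedSpace ℝ B] [CompleteSpace B],
    ¬ FiniteDimensional ℝ B → (∃ e : ℕ → B, MonoBasis e) →
    ∀ F : Submodule ℝ B, IsClosed (F : Set B) → ¬ FiniteDimensional ℝ F →
      (∃ P : B →L[ℝ] B, (∀ x : B, P x ∈ F) ∧ (∀ x ∈ F, P x = x) ∧ ‖P‖ ≤ 1) →
      ∃ f : ℕ → B, (∀ i : ℕ, f i ∈ F) ∧
        (∀ x ∈ F, ∃! a : ℕ → ℝ,
          Tendsto (fun n : ℕ => ∑ i ∈ Finset.range n, a i • f i) atTop (𝓝 x)) ∧
        (∀ (a : ℕ → ℝ) (n m : ℕ), n ≤ m →
          ‖∑ i ∈ Finset.range n, a i • f i‖ ≤ ‖∑ i ∈ Finset.range m, a i • f i‖)) :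
    ∃ y : ℕ → X, MonoBasis y := by
  obtain ⟨i, hi1, hi2⟩ := exists_embedding x φ hle hlim
  have hnorm : ∀ v, ‖i v‖ = ‖v‖ := fun v =>
    le_antisymm (hi2 v) (by simpa [hi1] using norm_ev_le x (i v))
  have hinj : Function.Injective i := fun v w h => by rw [← hi1 v, h, hi1]
  have : CompleteSpace (Bs x) := (isClosed_Bs x).completeSpace_coe
  let F : Submodule ℝ (Bs x) := LinearMap.range (i : X →ₗ[ℝ] Bs x)
  have hF : ¬ FiniteDimensional ℝ F := by
    intro h
    apply hX
    exact FiniteDimensional.of_injective (V₂ := F) (i : X →ₗ[ℝ] Bs x).rangeRestrict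
      (fun v w hvw => hinj (congrArg Subtype.val hvw))
  have hB : ¬ FiniteDimensional ℝ (Bs x) := fun h => hF inferInstance
  have hfix : ∀ g ∈ F, i (ev x g) = g := by
    rintro _ ⟨v, rfl⟩
    simp only [ContinuousLinearMap.coe_coe, hi1]
  have hcl : IsClosed (F : Set (Bs x)) := by
    have : (F : Set (Bs x)) = {g | i (ev x g) = g} := by
      ext g
      exact ⟨hfix g, fun h => ⟨_, h⟩⟩
    rw [this]
    exact isClosed_eq (i.continuous.comp (ev x).continuous) continuous_id
  obtain ⟨f, hf1, hf2, hf3⟩ := H (Bs x) hB ⟨e x, monoBasis_e x hx⟩ F hcl hF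
    ⟨i.comp (ev x), fun g => ⟨_, rfl⟩, hfix,
      ContinuousLinearMap.opNorm_le_bound _ zero_le_one fun g => by
        simpa using (hi2 _).trans (norm_ev_le x g)⟩
  have hsum : ∀ (a : ℕ → ℝ) (n : ℕ), i (∑ j ∈ Finset.range n, a j • ev x (f j)) =
      ∑ j ∈ Finset.range n, a j • f j := by
    intro a n
    simp only [map_sum, map_smul, hfix _ (hf1 _)]
  refine ⟨fun j => ev x (f j), fun v => ?_, fun a n m h => ?_⟩
  · obtain ⟨a, ha, hu⟩ := hf2 (i v) ⟨v, rfl⟩
    refine ⟨a, ?_, fun a' ha' => hu a' ?_⟩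
    · have := ((ev x).continuous.tendsto _).comp ha
      rw [hi1] at this
      refine this.congr fun n => ?_
      simp only [Function.comp, map_sum, map_smul]
    · have := (i.continuous.tendsto _).comp ha'
      refine this.congr fun n => ?_
      exact hsum a' n
  · rw [← hnorm, ← hnorm, hsum, hsum]
    exact hf3 a n m h

end Pool.Agent.H700Z.Pel
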