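import Mathlib

open scoped Quaternion

namespace Pool.Agent.H700Z.QH

/-- the first layer `ℍ^n` with its Euclidean norm -/
abbrev V1 (n : ℕ) : Type := PiLp 2 (fun _ : Fin n => ℍ[ℝ])

/-- the second layer: purely imaginary quaternions, with the Euclidean norm -/
def ImH : Submodule ℝ ℍ[ℝ] where
  carrier := {q | q.re = 0}
  add_mem' := by
    intro a b ha hb
    change (a + b).re = 0
    rw [Quaternion.re_add, show a.re = 0 from ha, show b.re = 0 from hb, add_zero]
  zero_mem' := rfl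
  smul_mem' := by
    intro c a ha
    change (c • a).re = 0
    rw [Quaternion.re_smul, show a.re = 0 from ha, smul_zero]

/-- the underlying space of the quaternionic Heisenberg group (exponential coordinates) -/
abbrev N (n : ℕ) : Type := V1 n × ImH

/-- the bracket `[p, q] = 2 Im (∑ conj(q i) p i)` -/
noncomputable def br {n : ℕ} (p q : V1 n) : ImH :=
  ⟨(2 : ℝ) • (∑ i, star (q i) * p i).im, ImH.smul_mem _ (Quaternion.re_im _)⟩

/-- the group law `x * y = x + y + [x, y] / 2` -/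
noncomputable def mul {n : ℕ} (x y : N n) : N n :=
  (x.1 + y.1, x.2 + y.2 + (1 / 2 : ℝ) • br x.1 y.1)

/-- `γ` is a `C¹` curve on `[0, 1]` with derivative `γ'`, tangent to the left-invariant horizontal
distribution, whose fibre at `x` consists of the vectors `(v, [x₁, v] / 2)` -/
def IsHorizontal {n : ℕ} (γ γ' : ℝ → N n) : Prop :=
  (∀ t ∈ Set.Icc (0 : ℝ) 1, HasDerivAt γ (γ' t) t) ∧ ContinuousOn γ' (Set.Icc (0 : ℝ) 1) ∧
    ∀ t ∈ Set.Icc (0 : ℝ) 1, (γ' t).2 = (1 / 2 : ℝ) • br (γ t).1 (γ' t).1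

/-- the Carnot (Carnot-Caratheodory) distance: infimum of the lengths of horizontal curves -/
noncomputable def dC {n : ℕ} (x y : N n) : ℝ :=
  sInf {L : ℝ | ∃ γ γ' : ℝ → N n, IsHorizontal γ γ' ∧ γ 0 = x ∧ γ 1 = y ∧
    L = ∫ t in (0 : ℝ)..1, ‖(γ' t).1‖}

/-- quasi-isometries for the Carnot distance -/
def IsQuasiIsometry {n : ℕ} (f : N n → N n) : Prop :=
  ∃ K C : ℝ, 1 ≤ K ∧ 0 ≤ C ∧
    (∀ x y, dC x y / K - C ≤ dC (f x) (f y) ∧ dC (f x) (f y) ≤ K * dC x y + C) ∧
    ∀ y, ∃ x, dC (f x) y ≤ C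

/-- two maps at finite distance -/
def FiniteDistance {n : ℕ} (f h : N n → N n) : Prop := ∃ C : ℝ, ∀ x, dC (f x) (h x) ≤ C

/-- large scale Lipschitz maps from the first layer to the second layer -/
def LargeScaleLipschitz {n : ℕ} (g : V1 n → ImH) : Prop :=
  ∃ L A : ℝ, 0 ≤ L ∧ 0 ≤ A ∧ ∀ x y, ‖g x - g y‖ ≤ L * ‖x - y‖ + A

/-- left translations -/
def leftTranslations (n : ℕ) : Set (Equiv.Perm (N n)) := {σ | ∃ a, ∀ x, σ x = mul a x}

/-- Lie group automorphisms (bicontinuous group automorphisms) -/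
def automorphisms (n : ℕ) : Set (Equiv.Perm (N n)) :=
  {σ | (∀ x y, σ (mul x y) = mul (σ x) (σ y)) ∧ Continuous σ ∧ Continuous σ.symm}

/-- shear maps `x ↦ x + g (π₁ x)` -/
def shears (n : ℕ) : Set (Equiv.Perm (N n)) :=
  {σ | ∃ g : V1 n → ImH, LargeScaleLipschitz g ∧ ∀ x, σ x = x + (0, g x.1)}

/-- affine maps -/
def affine (n : ℕ) : Subgroup (Equiv.Perm (N n)) :=
  Subgroup.closure (leftTranslations n ∪ automorphisms n)

/-- generalized affine maps -/
def generalizedAffine (n : ℕ) : Subgroup (Equiv.Perm (N n)) :=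
  Subgroup.closure ((affine n : Set (Equiv.Perm (N n))) ∪ shears n)

end Pool.Agent.H700Z.QH
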