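import Pool.Agent.H700Z.QHDefs

open scoped Quaternion
open Set

set_option maxHeartbeats 400000

namespace Pool.Agent.H700Z.QH

variable {n : ℕ}

lemma br_coe (p q : V1 n) : (br p q : ℍ[ℝ]) = (2 : ℝ) • (∑ i, star (q i) * p i).im := rfl

/-- the bracket as a bilinear map -/
noncomputable def brL (n : ℕ) : V1 n →ₗ[ℝ] V1 n →ₗ[ℝ] ImH :=
  LinearMap.mk₂ ℝ br
    (fun p p' q => Subtype.ext (by
      simp [br_coe, mul_add, Finset.sum_add_distrib]))
    (fun c p q => Subtype.ext (by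
      simp only [br_coe, PiLp.smul_apply, mul_smul_comm, ← Finset.smul_sum, Quaternion.im_smul,
        Submodule.coe_smul]
      rw [smul_comm]))
    (fun p q q' => Subtype.ext (by
      simp [br_coe, add_mul, Finset.sum_add_distrib]))
    (fun c p q => Subtype.ext (by
      simp only [br_coe, PiLp.smul_apply, Quaternion.star_smul, smul_mul_assoc,
        ← Finset.smul_sum, Quaternion.im_smul, Submodule.coe_smul]
      rw [smul_comm]))

lemma norm_im_le (q : ℍ[ℝ]) : ‖q.im‖ ≤ ‖q‖ := by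
  have h : q.im = (1 / 2 : ℝ) • (q - star q) := by
    ext <;> simp <;> ring
  rw [h, norm_smul]
  have := norm_sub_le q (star q)
  rw [norm_star] at this
  norm_num
  linarith

lemma norm_br_le (p q : V1 n) : ‖br p q‖ ≤ 2 * n * ‖p‖ * ‖q‖ := by
  rw [Submodule.coe_norm, br_coe, norm_smul]
  have h1 : ‖∑ i, star (q i) * p i‖ ≤ n * (‖p‖ * ‖q‖) := by
    refine (norm_sum_le _ _).trans ?_
    have : ∀ i ∈ (Finset.univ : Finset (Fin n)), ‖star (q i) * p i‖ ≤ ‖p‖ * ‖q‖ := by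
      intro i _
      rw [norm_mul, norm_star, mul_comm]
      exact mul_le_mul (PiLp.norm_apply_le p i) (PiLp.norm_apply_le q i) (norm_nonneg _)
        (norm_nonneg _)
    simpa using Finset.sum_le_card_nsmul _ _ _ this
  have h2 := norm_im_le (∑ i, star (q i) * p i)
  norm_num
  nlinarith

/-- the bracket as a continuous bilinear map -/
noncomputable def B (n : ℕ) : V1 n →L[ℝ] V1 n →L[ℝ] ImH :=
  (brL n).mkContinuous₂ (2 * n) norm_br_le

lemma br_eq (p q : V1 n) : br p q = B n p q := rfl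

lemma B_anti (p q : V1 n) : B n q p = - B n p q := by
  rw [← br_eq, ← br_eq]
  apply Subtype.ext
  have h : ∑ i, star (p i) * q i = star (∑ i, star (q i) * p i) := by
    simp [star_sum]
  rw [Submodule.coe_neg, br_coe, br_coe, h, Quaternion.im_star, smul_neg]

lemma B_self (p : V1 n) : B n p p = 0 := by
  have h := B_anti p p
  have h2 : (2 : ℝ) • B n p p = 0 := by
    rw [two_smul]
    exact add_eq_zero_iff_eq_neg.2 h
  simpa using h2

lemma norm_B_le (p q : V1 n) : ‖B n p q‖ ≤ 2 * n * ‖p‖ * ‖q‖ := norm_br_le p q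

/-- the unit imaginary quaternion -/
def ei : ImH := ⟨⟨0, 1, 0, 0⟩, rfl⟩

lemma norm_ei : ‖ei‖ = 1 := by
  rw [Submodule.coe_norm, norm_eq_sqrt_real_inner, Quaternion.inner_self, Quaternion.normSq_def']
  simp [ei]

lemma B_nondeg {p : V1 n} (h : ∀ q, B n p q = 0) : p = 0 := by
  have h1 := congrArg (fun z : ImH => (z : ℍ[ℝ]).imI)
    (h (WithLp.toLp 2 fun i => p i * (ei : ℍ[ℝ])))
  have h2 : ∀ i, star (p i * (ei : ℍ[ℝ])) * p i =
      (Quaternion.normSq (p i)) • (-(ei : ℍ[ℝ])) := by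
    intro i
    ext <;> simp [ei, Quaternion.normSq_def'] <;> ring
  simp only [← br_eq, br_coe, h2, ← Finset.sum_smul] at h1
  have h3 : ∑ i, Quaternion.normSq (p i) = 0 := by
    simpa [ei] using h1
  rw [Finset.sum_eq_zero_iff_of_nonneg (fun i _ => Quaternion.normSq_nonneg)] at h3
  ext1 i
  exact Quaternion.normSq_eq_zero.1 (h3 i (Finset.mem_univ i))

lemma B_surj (hn : 1 ≤ n) (η : ImH) :
    ∃ u v : V1 n, B n u v = η ∧ ‖u‖ ≤ √‖η‖ ∧ ‖v‖ ≤ √‖η‖ := by
  by_cases h0 : η = 0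
  · exact ⟨0, 0, by simp [h0], by simp, by simp⟩
  have hs : 0 < √‖η‖ := Real.sqrt_pos.2 (norm_pos_iff.2 h0)
  set s := √‖η‖ with hsd
  have hss : s * s = ‖η‖ := Real.mul_self_sqrt (norm_nonneg _)
  let i0 : Fin n := ⟨0, hn⟩
  refine ⟨WithLp.toLp 2 (Pi.single i0 (s • (1 : ℍ[ℝ]))),
    WithLp.toLp 2 (Pi.single i0 ((-(2 * s)⁻¹) • (η : ℍ[ℝ]))), ?_, ?_, ?_⟩
  · apply Subtype.ext
    rw [← br_eq, br_coe, Finset.sum_eq_single i0]
    · have hre : (η : ℍ[ℝ]).re = 0 := η.2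
      ext <;> simp [hre] <;> field_simp
    · intro j _ hj
      simp [Pi.single_eq_of_ne hj]
    · simp
  · rw [PiLp.norm_toLp_single, norm_smul, norm_one, mul_one, Real.norm_of_nonneg hs.le]
  · rw [PiLp.norm_toLp_single, norm_smul, norm_neg, norm_inv, Real.norm_of_nonneg (by positivity),
      ← Submodule.coe_norm, ← hss]
    rw [inv_mul_le_iff₀ (by positivity)]
    nlinarith

lemma half_norm : ‖(1 / 2 : ℝ)‖ = 1 / 2 := by norm_num

/-- the homogeneous quasi-distance -/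
noncomputable def δ (x y : N n) : ℝ :=
  ‖y.1 - x.1‖ + √‖y.2 - x.2 - (1 / 2 : ℝ) • B n x.1 y.1‖

lemma δ_nonneg (x y : N n) : 0 ≤ δ x y := by
  unfold δ
  positivity

lemma δ_symm (x y : N n) : δ x y = δ y x := by
  unfold δ
  rw [norm_sub_rev, B_anti x.1 y.1, ← norm_neg (x.2 - y.2 - _)]
  congr 3
  simp only [smul_neg]
  abel

lemma δ_self (x : N n) : δ x x = 0 := by
  simp [δ, B_self]

lemma lower {γ γ' : ℝ → N n} (h : IsHorizontal γ γ') :
    δ (γ 0) (γ 1) ≤ (n + 2) * ∫ t in (0 : ℝ)..1, ‖(γ' t).1‖ := by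
  obtain ⟨h1, h2, h3⟩ := h
  set ℓ := ∫ t in (0 : ℝ)..1, ‖(γ' t).1‖ with hℓ
  have hu : ContinuousOn (fun t => (γ' t).1) (Icc 0 1) := continuous_fst.comp_continuousOn h2
  have hp : ∀ t ∈ Icc (0 : ℝ) 1, HasDerivAt (fun t => (γ t).1) (γ' t).1 t :=
    fun t ht => (h1 t ht).fst
  have hz : ∀ t ∈ Icc (0 : ℝ) 1, HasDerivAt (fun t => (γ t).2) (γ' t).2 t :=
    fun t ht => (h1 t ht).snd
  have hℓ0 : 0 ≤ ℓ := intervalIntegral.integral_nonneg zero_le_one fun _ _ => norm_nonneg _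
  have hint : IntervalIntegrable (fun t => ‖(γ' t).1‖) MeasureTheory.volume 0 1 :=
    (hu.norm.mono (by rw [uIcc_of_le zero_le_one])).intervalIntegrable
  have hdisp : ∀ t ∈ Icc (0 : ℝ) 1, ‖(γ t).1 - (γ 0).1‖ ≤ ℓ := by
    intro t ht
    have hsub : uIcc 0 t ⊆ Icc (0 : ℝ) 1 := by
      rw [uIcc_of_le ht.1]
      exact Icc_subset_Icc_right ht.2
    rw [← intervalIntegral.integral_eq_sub_of_hasDerivAt (fun s hs => hp s (hsub hs))
      (hu.mono hsub).intervalIntegrable]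
    refine (intervalIntegral.norm_integral_le_integral_norm ht.1).trans ?_
    exact intervalIntegral.integral_mono_interval le_rfl ht.1 ht.2
      (Filter.Eventually.of_forall fun _ => norm_nonneg _) hint
  have hpc : ContinuousOn (fun t => (γ t).1) (Icc 0 1) :=
    fun t ht => (hp t ht).continuousAt.continuousWithinAt
  have hζ : ∀ t ∈ uIcc (0 : ℝ) 1,
      HasDerivAt (fun t => (γ t).2 - (1 / 2 : ℝ) • B n (γ 0).1 (γ t).1)
        ((1 / 2 : ℝ) • B n ((γ t).1 - (γ 0).1) (γ' t).1) t := by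
    intro t ht
    rw [uIcc_of_le zero_le_one] at ht
    have := (hz t ht).sub
      (((B n (γ 0).1).hasFDerivAt.comp_hasDerivAt t (hp t ht)).const_smul (1 / 2 : ℝ))
    refine this.congr_deriv ?_
    rw [h3 t ht, br_eq, map_sub, ContinuousLinearMap.sub_apply, smul_sub]
  have hζc : ContinuousOn (fun t => (1 / 2 : ℝ) • B n ((γ t).1 - (γ 0).1) (γ' t).1)
      (uIcc (0 : ℝ) 1) := by
    rw [uIcc_of_le zero_le_one]
    exact (((B n).continuous.comp_continuousOn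
      (hpc.sub (continuousOn_const (c := (γ 0).1)))).clm_apply hu).const_smul (1 / 2 : ℝ)
  have hvert : ‖(γ 1).2 - (γ 0).2 - (1 / 2 : ℝ) • B n (γ 0).1 (γ 1).1‖ ≤ n * ℓ * ℓ := by
    have e1 := intervalIntegral.integral_eq_sub_of_hasDerivAt hζ hζc.intervalIntegrable
    have e2 : (γ 1).2 - (γ 0).2 - (1 / 2 : ℝ) • B n (γ 0).1 (γ 1).1 =
        (γ 1).2 - (1 / 2 : ℝ) • B n (γ 0).1 (γ 1).1 -
          ((γ 0).2 - (1 / 2 : ℝ) • B n (γ 0).1 (γ 0).1) := by
      rw [B_self, smul_zero]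
      abel
    rw [e2, ← e1]
    refine (intervalIntegral.norm_integral_le_of_norm_le zero_le_one
      (g := fun t => n * ℓ * ‖(γ' t).1‖) (Filter.Eventually.of_forall fun t ht => ?_)
      (hint.const_mul _)).trans ?_
    · rw [norm_smul]
      have a1 := norm_B_le ((γ t).1 - (γ 0).1) (γ' t).1
      have a2 := hdisp t ⟨ht.1.le, ht.2⟩
      have a3 : 2 * (n : ℝ) * ‖(γ t).1 - (γ 0).1‖ * ‖(γ' t).1‖ ≤ 2 * n * ℓ * ‖(γ' t).1‖ := by
        gcongr
      rw [half_norm]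
      linarith
    · rw [intervalIntegral.integral_const_mul]
  have h5 : √‖(γ 1).2 - (γ 0).2 - (1 / 2 : ℝ) • B n (γ 0).1 (γ 1).1‖ ≤ (n + 1) * ℓ := by
    rw [Real.sqrt_le_iff]
    refine ⟨by positivity, hvert.trans ?_⟩
    have : (0 : ℝ) ≤ n := Nat.cast_nonneg n
    nlinarith [mul_nonneg hℓ0 hℓ0, mul_nonneg this this]
  have h6 := hdisp 1 ⟨zero_le_one, le_rfl⟩
  unfold δ
  linarith

lemma upper (hn : 1 ≤ n) (x y : N n) : ∃ γ γ' : ℝ → N n, IsHorizontal γ γ' ∧ γ 0 = x ∧ γ 1 = y ∧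
    ∫ t in (0 : ℝ)..1, ‖(γ' t).1‖ ≤ 1000 * δ x y := by
  set a := y.1 - x.1 with ha
  set ζ := y.2 - x.2 - (1 / 2 : ℝ) • B n x.1 y.1 with hζ
  obtain ⟨u, v, huv, hu, hv⟩ := B_surj hn ((-70 : ℝ) • ζ)
  have hs : √‖(-70 : ℝ) • ζ‖ ≤ 9 * √‖ζ‖ := by
    rw [Real.sqrt_le_iff]
    refine ⟨by positivity, ?_⟩
    rw [norm_smul, mul_pow, Real.sq_sqrt (norm_nonneg _)]
    have := norm_nonneg ζ
    have h70 : ‖(-70 : ℝ)‖ = 70 := by norm_num
    rw [h70]
    linarith
  let r1 : ℝ → ℝ := fun t => t - 3 * t ^ 2 + 2 * t ^ 3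
  let r2 : ℝ → ℝ := fun t => t - 6 * t ^ 2 + 10 * t ^ 3 - 5 * t ^ 4
  let d1 : ℝ → ℝ := fun t => 1 - 6 * t + 6 * t ^ 2
  let d2 : ℝ → ℝ := fun t => 1 - 12 * t + 30 * t ^ 2 - 20 * t ^ 3
  let R1 : ℝ → ℝ := fun t => - t ^ 3 + t ^ 4
  let R2 : ℝ → ℝ := fun t => -2 * t ^ 3 + 5 * t ^ 4 - 3 * t ^ 5
  let R3 : ℝ → ℝ := fun t => - t ^ 3 + 4 * t ^ 4 - 33 / 5 * t ^ 5 + 5 * t ^ 6 - 10 / 7 * t ^ 7
  have P : ∀ (k : ℕ) (t : ℝ), HasDerivAt (fun t : ℝ => t ^ k) (k * t ^ (k - 1)) t :=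
    fun k t => hasDerivAt_pow k t
  have hr1 : ∀ t, HasDerivAt r1 (d1 t) t := fun t => by
    refine HasDerivAt.congr_deriv (((hasDerivAt_id t).sub ((P 2 t).const_mul 3)).add ((P 3 t).const_mul 2)) ?_
    simp only [d1]
    norm_num
    ring
  have hr2 : ∀ t, HasDerivAt r2 (d2 t) t := fun t => by
    refine HasDerivAt.congr_deriv ((((hasDerivAt_id t).sub ((P 2 t).const_mul 6)).add ((P 3 t).const_mul 10)).sub
      ((P 4 t).const_mul 5)) ?_
    simp only [d2]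
    norm_num
    ring
  have hR1 : ∀ t, HasDerivAt R1 (t * d1 t - r1 t) t := fun t => by
    refine HasDerivAt.congr_deriv ((P 3 t).neg.add (P 4 t)) ?_
    simp only [d1, r1]
    norm_num
    ring
  have hR2 : ∀ t, HasDerivAt R2 (t * d2 t - r2 t) t := fun t => by
    refine HasDerivAt.congr_deriv ((((P 3 t).const_mul (-2)).add ((P 4 t).const_mul 5)).sub ((P 5 t).const_mul 3)) ?_
    simp only [d2, r2]
    norm_num
    ring
  have hR3 : ∀ t, HasDerivAt R3 (r1 t * d2 t - r2 t * d1 t) t := fun t => by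
    refine HasDerivAt.congr_deriv (((((P 3 t).neg.add ((P 4 t).const_mul 4)).sub ((P 5 t).const_mul (33 / 5))).add
      ((P 6 t).const_mul 5)).sub ((P 7 t).const_mul (10 / 7))) ?_
    simp only [d1, d2, r1, r2]
    norm_num
    ring
  let q : ℝ → V1 n := fun t => t • a + r1 t • u + r2 t • v
  let q' : ℝ → V1 n := fun t => a + d1 t • u + d2 t • v
  have hq : ∀ t, HasDerivAt q (q' t) t := fun t => by
    refine HasDerivAt.congr_deriv ((((hasDerivAt_id t).smul_const a).add ((hr1 t).smul_const u)).add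
      ((hr2 t).smul_const v)) ?_
    simp [q']
  let z : ℝ → ImH := fun t => x.2 + (1 / 2 : ℝ) • (B n x.1 (q t) +
    (R1 t • B n a u + R2 t • B n a v + R3 t • B n u v))
  let z' : ℝ → ImH := fun t => (1 / 2 : ℝ) • B n (x.1 + q t) (q' t)
  have hz : ∀ t, HasDerivAt z (z' t) t := fun t => by
    have e1 := (B n x.1).hasFDerivAt.comp_hasDerivAt t (hq t)
    have e2 := (((hR1 t).smul_const (B n a u)).add ((hR2 t).smul_const (B n a v))).add
      ((hR3 t).smul_const (B n u v))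
    refine HasDerivAt.congr_deriv (((e1.add e2).const_smul (1 / 2 : ℝ)).const_add x.2) ?_
    simp only [z', q, q', map_add, map_smul, ContinuousLinearMap.add_apply,
      ContinuousLinearMap.smul_apply, B_self, B_anti a u, B_anti a v, B_anti u v]
    module
  have hqc : Continuous q := continuous_iff_continuousAt.2 fun t => (hq t).continuousAt
  have hq'c : Continuous q' := by
    simp only [q', d1, d2]
    fun_prop
  refine ⟨fun t => (x.1 + q t, z t), fun t => (q' t, z' t), ⟨fun t _ => ?_, ?_, fun t _ => rfl⟩,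
    ?_, ?_, ?_⟩
  · exact ((hq t).const_add x.1).prodMk (hz t)
  · refine Continuous.continuousOn (hq'c.prodMk ?_)
    exact (((B n).continuous.comp (continuous_const.add hqc)).clm_apply hq'c).const_smul (1 / 2 : ℝ)
  · simp [q, z, r1, r2, R1, R2, R3]
  · have e1 : q 1 = a := by
      simp only [q, r1, r2]
      norm_num
    have e2 : B n x.1 a = B n x.1 y.1 := by rw [ha, map_sub, B_self, sub_zero]
    refine Prod.ext ?_ ?_
    · simp [e1, ha]
    · simp only [z, e1, e2, huv, R1, R2, R3, hζ]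
      module
  · have hb : ∀ t ∈ Icc (0 : ℝ) 1, ‖q' t‖ ≤ 1000 * δ x y := by
      intro t ht
      have t0 := ht.1
      have t1 := ht.2
      have t2 : t ^ 2 ≤ 1 := pow_le_one₀ t0 t1
      have t3 : t ^ 3 ≤ 1 := pow_le_one₀ t0 t1
      have t2' : 0 ≤ t ^ 2 := by positivity
      have t3' : 0 ≤ t ^ 3 := by positivity
      have b1 : |d1 t| ≤ 13 := by
        simp only [d1]
        rw [abs_le]
        constructor <;> linarith
      have b2 : |d2 t| ≤ 63 := by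
        simp only [d2]
        rw [abs_le]
        constructor <;> linarith
      have c1 : ‖d1 t • u‖ ≤ 13 * (9 * √‖ζ‖) := by
        rw [norm_smul, Real.norm_eq_abs]
        exact mul_le_mul b1 (hu.trans hs) (norm_nonneg _) (by norm_num)
      have c2 : ‖d2 t • v‖ ≤ 63 * (9 * √‖ζ‖) := by
        rw [norm_smul, Real.norm_eq_abs]
        exact mul_le_mul b2 (hv.trans hs) (norm_nonneg _) (by norm_num)
      have c3 : ‖q' t‖ ≤ ‖a‖ + ‖d1 t • u‖ + ‖d2 t • v‖ := norm_add₃_le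
      have c4 : δ x y = ‖a‖ + √‖ζ‖ := rfl
      have c5 := norm_nonneg a
      have c6 := Real.sqrt_nonneg ‖ζ‖
      linarith
    have := intervalIntegral.integral_mono_on (μ := MeasureTheory.volume) zero_le_one
      (hq'c.norm.intervalIntegrable 0 1) (continuous_const.intervalIntegrable 0 1) hb
    simpa using this

lemma dC_le (hn : 1 ≤ n) (x y : N n) : dC x y ≤ 1000 * δ x y := by
  obtain ⟨γ, γ', h1, h2, h3, h4⟩ := upper hn x y
  refine le_trans (csInf_le ⟨0, ?_⟩ ⟨γ, γ', h1, h2, h3, rfl⟩) h4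
  rintro _ ⟨γ, γ', -, -, -, rfl⟩
  exact intervalIntegral.integral_nonneg zero_le_one fun _ _ => norm_nonneg _

lemma le_dC (hn : 1 ≤ n) (x y : N n) : δ x y ≤ (n + 2) * dC x y := by
  have hpos : (0 : ℝ) < n + 2 := by positivity
  rw [← div_le_iff₀' hpos]
  obtain ⟨γ, γ', h1, h2, h3, -⟩ := upper hn x y
  refine le_csInf ⟨_, γ, γ', h1, h2, h3, rfl⟩ ?_
  rintro _ ⟨γ, γ', h, rfl, rfl, rfl⟩
  rw [div_le_iff₀' hpos]
  exact lower h

/-- the gauge -/
noncomputable def g (x : N n) : ℝ := √(‖x.1‖ ^ 2 + ‖x.2‖)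

lemma g_le (x y : N n) : g y ≤ g x + (n + 2) * δ x y := by
  set a := y.1 - x.1 with ha
  set ζ := y.2 - x.2 - (1 / 2 : ℝ) • B n x.1 y.1 with hζ
  have e0 : δ x y = ‖a‖ + √‖ζ‖ := rfl
  have e1 : ‖y.1‖ ≤ ‖x.1‖ + ‖a‖ := by
    have : y.1 = x.1 + a := by rw [ha]; abel
    rw [this]
    exact norm_add_le _ _
  have e2 : ‖y.2‖ ≤ ‖x.2‖ + ‖ζ‖ + n * ‖x.1‖ * ‖a‖ := by
    have h1 : B n x.1 a = B n x.1 y.1 := by rw [ha, map_sub, B_self, sub_zero]
    have : y.2 = x.2 + ζ + (1 / 2 : ℝ) • B n x.1 a := by rw [hζ, h1]; abel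
    rw [this]
    refine norm_add₃_le.trans ?_
    have h2 := norm_B_le x.1 a
    rw [norm_smul, half_norm]
    linarith
  have g0 : 0 ≤ g x := Real.sqrt_nonneg _
  have g1 : g x ^ 2 = ‖x.1‖ ^ 2 + ‖x.2‖ := Real.sq_sqrt (by positivity)
  have g2 : ‖x.1‖ ≤ g x := Real.le_sqrt_of_sq_le (by linarith [norm_nonneg x.2])
  have s0 := Real.sqrt_nonneg ‖ζ‖
  have s1 : √‖ζ‖ ^ 2 = ‖ζ‖ := Real.sq_sqrt (norm_nonneg _)
  have n0 : (0 : ℝ) ≤ n := Nat.cast_nonneg n
  have a0 := norm_nonneg a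
  have x0 := norm_nonneg x.1
  rw [e0]
  set s := √‖ζ‖
  refine Real.sqrt_le_iff.2 ⟨by positivity, ?_⟩
  have e3 : ‖y.1‖ ^ 2 ≤ (‖x.1‖ + ‖a‖) ^ 2 := pow_le_pow_left₀ (norm_nonneg _) e1 2
  have e4 : (n + 2) * (‖x.1‖ * ‖a‖) ≤ (n + 2) * (g x * ‖a‖) := by gcongr
  have e5 : ‖a‖ ^ 2 + s ^ 2 ≤ ((n + 2) * (‖a‖ + s)) ^ 2 := by
    have h1 : ‖a‖ + s ≤ (n + 2) * (‖a‖ + s) := by nlinarith
    have h2 := pow_le_pow_left₀ (by positivity) h1 2
    nlinarith [mul_nonneg a0 s0]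
  have e6 : 0 ≤ (n + 2) * (g x * ‖a‖) := by positivity
  have e7 : 0 ≤ (n + 2) * (g x * s) := by positivity
  nlinarith

/-- the map -/
noncomputable def S (x : N n) : N n := (x.1, x.2 + g x • ei)

lemma sqrt_add_le' (a b : ℝ) (ha : 0 ≤ a) (hb : 0 ≤ b) : √(a + b) ≤ √a + √b := by
  refine Real.sqrt_le_iff.2 ⟨by positivity, ?_⟩
  have h1 := Real.sq_sqrt ha
  have h2 := Real.sq_sqrt hb
  nlinarith [mul_nonneg (Real.sqrt_nonneg a) (Real.sqrt_nonneg b)]

lemma δ_S (x y : N n) : δ (S x) (S y) ≤ 2 * δ x y + (n + 2) ∧ δ x y ≤ 2 * δ (S x) (S y) + (n + 2) := by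
  set ζ := y.2 - x.2 - (1 / 2 : ℝ) • B n x.1 y.1 with hζ
  have e0 : δ x y = ‖y.1 - x.1‖ + √‖ζ‖ := rfl
  have e1 : δ (S x) (S y) = ‖y.1 - x.1‖ + √‖ζ + (g y - g x) • ei‖ := by
    simp only [δ, S, hζ]
    congr 3
    module
  have e2 : ‖(g y - g x) • ei‖ ≤ (n + 2) * δ x y := by
    rw [norm_smul, norm_ei, mul_one, Real.norm_eq_abs, abs_le]
    have h1 := g_le x y
    have h2 := g_le y x
    rw [δ_symm y x] at h2
    constructor <;> linarith
  have d0 := δ_nonneg x y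
  have e3 : √‖(g y - g x) • ei‖ ≤ (δ x y + (n + 2)) / 2 := by
    refine Real.sqrt_le_iff.2 ⟨by positivity, e2.trans ?_⟩
    nlinarith [sq_nonneg (δ x y - (n + 2))]
  set w := (g y - g x) • ei
  have e4 : √‖ζ + w‖ ≤ √‖ζ‖ + √‖w‖ :=
    (Real.sqrt_le_sqrt (norm_add_le _ _)).trans (sqrt_add_le' _ _ (norm_nonneg _) (norm_nonneg _))
  have e5 : √‖ζ‖ ≤ √‖ζ + w‖ + √‖w‖ := by
    refine (Real.sqrt_le_sqrt ?_).trans (sqrt_add_le' _ _ (norm_nonneg _) (norm_nonneg _))
    simpa using norm_sub_le (ζ + w) w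
  have n0 : (0 : ℝ) ≤ n := Nat.cast_nonneg n
  constructor <;> linarith

lemma S_surj (y : N n) : ∃ x, S x = y := by
  let h : ℝ → ℝ := fun s => s + g (y.1, y.2 + s • ei)
  have hc : Continuous h := by
    simp only [h, g]
    fun_prop
  set A := ‖y.1‖ ^ 2 + ‖y.2‖ with hA
  have A0 : 0 ≤ A := by positivity
  have h1 : 0 ≤ h 0 := by
    simp only [h, zero_add]
    exact Real.sqrt_nonneg _
  have h2 : h (-(A + 2)) ≤ 0 := by
    have : g (y.1, y.2 + (-(A + 2)) • ei) ≤ A + 2 := by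
      refine Real.sqrt_le_iff.2 ⟨by positivity, ?_⟩
      have b1 := norm_add_le y.2 ((-(A + 2)) • ei)
      rw [norm_smul, norm_ei, mul_one, norm_neg, Real.norm_of_nonneg (by positivity)] at b1
      simp only
      nlinarith
    simp only [h]
    linarith
  obtain ⟨s, hs⟩ := mem_range_of_exists_le_of_exists_ge hc ⟨_, h2⟩ ⟨_, h1⟩
  refine ⟨(y.1, y.2 + s • ei), Prod.ext rfl ?_⟩
  have : g (y.1, y.2 + s • ei) = -s := by
    simp only [h] at hs
    linarith
  simp only [S, this]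
  module

theorem S_qi (hn : 1 ≤ n) : IsQuasiIsometry (S (n := n)) := by
  have n0 : (0 : ℝ) ≤ n := Nat.cast_nonneg n
  refine ⟨2000 * (n + 2), 1000 * (n + 2), by linarith, by positivity, fun x y => ?_, fun y => ?_⟩
  · obtain ⟨h1, h2⟩ := δ_S x y
    have a1 := dC_le hn x y
    have a2 := le_dC hn x y
    have a3 := dC_le hn (S x) (S y)
    have a4 := le_dC hn (S x) (S y)
    constructor
    · rw [sub_le_iff_le_add, div_le_iff₀ (by positivity)]
      nlinarith [mul_nonneg n0 n0]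
    · nlinarith
  · obtain ⟨x, rfl⟩ := S_surj y
    refine ⟨x, (dC_le hn _ _).trans ?_⟩
    rw [δ_self]
    linarith

/-- acting on the vertical fibres through a fixed map -/
def Q (G : Equiv.Perm (N n)) : Prop :=
  ∃ M : ImH → ImH, ∀ x z, G (x + (0, z)) = G x + (0, M z)

lemma Q_inv {G : Equiv.Perm (N n)} (h : ∀ x z, G (x + (0, z)) = G x + (0, z)) : Q G⁻¹ := by
  refine ⟨id, fun x z => ?_⟩
  apply G.injective
  rw [h]
  simp

lemma mul_vert (x : N n) (z : ImH) : mul x (0, z) = x + (0, z) := by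
  simp [mul, br_eq, Prod.ext_iff]

lemma Q_hom {G : Equiv.Perm (N n)} (h : ∀ x y, G (mul x y) = mul (G x) (G y)) : Q G := by
  have key : ∀ z : ImH, (G (0, z)).1 = 0 := by
    intro z
    apply B_nondeg
    intro q
    obtain ⟨w, hw⟩ := G.surjective (q, 0)
    have e1 : mul (0, z) w = mul w (0, z) := by
      simp [mul, br_eq, add_comm]
    have e2 : (G (mul (0, z) w)).2 = (G (mul w (0, z))).2 := by rw [e1]
    rw [h, h, hw] at e2
    simp only [mul, br_eq, B_anti (G (0, z)).1 q, add_zero, zero_add, smul_neg,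
      add_right_inj] at e2
    have e3 : (1 / 2 : ℝ) • B n (G (0, z)).1 q + (1 / 2 : ℝ) • B n (G (0, z)).1 q = 0 :=
      add_eq_zero_iff_eq_neg.2 e2
    rw [← add_smul] at e3
    simpa using e3
  refine ⟨fun z => (G (0, z)).2, fun x z => ?_⟩
  rw [← mul_vert, h, ← mul_vert]
  congr 1
  exact Prod.ext (key z) rfl

/-- the subgroup of maps acting on fibres in this way -/
def QG (n : ℕ) : Subgroup (Equiv.Perm (N n)) where
  carrier := {G | Q G ∧ Q G⁻¹}
  mul_mem' := by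
    rintro G H ⟨⟨M, hM⟩, ⟨M', hM'⟩⟩ ⟨⟨L, hL⟩, ⟨L', hL'⟩⟩
    refine ⟨⟨M ∘ L, fun x z => ?_⟩, ⟨L' ∘ M', fun x z => ?_⟩⟩
    · simp only [Equiv.Perm.mul_apply, hL, hM, Function.comp]
    · simp only [mul_inv_rev, Equiv.Perm.mul_apply, hL', hM', Function.comp]
  one_mem' := ⟨⟨id, fun _ _ => rfl⟩, ⟨id, fun _ _ => rfl⟩⟩
  inv_mem' := by
    rintro G ⟨h1, h2⟩
    exact ⟨h2, by simpa using h1⟩

lemma gen_le : generalizedAffine n ≤ QG n := by
  refine (Subgroup.closure_le _).2 (union_subset ((Subgroup.closure_le _).2 (union_subset ?_ ?_)) ?_)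
  · rintro σ ⟨a, ha⟩
    have h : ∀ x z, σ (x + (0, z)) = σ x + (0, z) := by
      intro x z
      simp only [ha, mul, Prod.fst_add, Prod.snd_add, add_zero, Prod.mk_add_mk, Prod.mk.injEq,
        true_and]
      abel
    exact ⟨⟨id, h⟩, Q_inv h⟩
  · rintro σ ⟨h, -, -⟩
    refine ⟨Q_hom h, Q_hom fun x y => ?_⟩
    apply σ.injective
    rw [h]
    simp
  · rintro σ ⟨g, -, hg⟩
    have h : ∀ x z, σ (x + (0, z)) = σ x + (0, z) := by
      intro x z
      simp only [hg, Prod.fst_add, add_zero]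
      abel
    exact ⟨⟨id, h⟩, Q_inv h⟩

theorem not_close (hn : 1 ≤ n) (G : Equiv.Perm (N n)) (hG : G ∈ generalizedAffine n) :
    ¬ FiniteDistance S G := by
  obtain ⟨M, hM⟩ := (gen_le hG).1
  rintro ⟨C, hC⟩
  have hadd : ∀ z w, M (z + w) = M z + M w := by
    intro z w
    have h1 := hM 0 (z + w)
    have h2 := hM (0 + (0, z)) w
    have h3 : (0 : N n) + (0, z) + (0, w) = 0 + (0, z + w) := by simp
    rw [hM 0 z, h3, h1, add_assoc, add_right_inj] at h2
    simpa using congrArg Prod.snd h2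
  set D := ((n + 2) * C) ^ 2 + ‖(G 0).2‖ with hD
  have D0 : 0 ≤ D := by positivity
  have key : ∀ s : ℝ, 0 ≤ s → ‖M ((s * s) • ei) - (s * s + s) • ei‖ ≤ D := by
    intro s hs
    have h1 := (le_dC hn _ _).trans
      (mul_le_mul_of_nonneg_left (hC (0 + (0, (s * s) • ei))) (by positivity))
    have h2 : g (((0 : V1 n), (s * s) • ei) : N n) = s := by
      simp only [g, norm_smul, norm_ei, norm_zero, Real.norm_of_nonneg (mul_nonneg hs hs)]
      simp [Real.sqrt_mul_self hs]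
    rw [hM] at h1
    simp only [δ, S, h2, Prod.fst_add, Prod.snd_add, Prod.fst_zero, Prod.snd_zero, add_zero,
      zero_add, map_zero, ContinuousLinearMap.zero_apply, smul_zero, sub_zero] at h1
    have h3 : √‖(G 0).2 + M ((s * s) • ei) - ((s * s) • ei + s • ei)‖ ≤ (n + 2) * C := by
      linarith [norm_nonneg (G 0).1]
    have h4 := (Real.sqrt_le_iff.1 h3).2
    have h5 : M ((s * s) • ei) - (s * s + s) • ei =
        ((G 0).2 + M ((s * s) • ei) - ((s * s) • ei + s • ei)) - (G 0).2 := by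
      module
    rw [h5]
    exact (norm_sub_le _ _).trans (by linarith)
  set s := 3 * D + 1 with hs
  have s0 : 0 ≤ s := by positivity
  have k1 := key s s0
  have k2 := key (2 * s) (by positivity)
  have e1 : (2 * s * (2 * s)) • ei =
      ((s * s) • ei + (s * s) • ei) + ((s * s) • ei + (s * s) • ei) := by module
  rw [e1, hadd, hadd] at k2
  set m := M ((s * s) • ei)
  have e2 : (2 * s) • ei = (m + m + (m + m) - (2 * s * (2 * s) + 2 * s) • ei) -
      (4 : ℝ) • (m - (s * s + s) • ei) := by module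
  have e3 := congrArg norm e2
  rw [norm_smul, norm_ei, mul_one, Real.norm_of_nonneg (by positivity)] at e3
  have e4 := norm_sub_le (m + m + (m + m) - (2 * s * (2 * s) + 2 * s) • ei)
    ((4 : ℝ) • (m - (s * s + s) • ei))
  have h4 : ‖(4 : ℝ)‖ = 4 := by norm_num
  rw [norm_smul, h4] at e4
  linarith

end Pool.Agent.H700Z.QH
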